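import Pool.Agent.Lib.MP_25e40f_pr.T.Off
import Pool.Agent.Lib.MP_25e40f_pr.A.Men
import Pool.Agent.Lib.MP_25e40f_pr.A.Att

/-!
# MP_25e40f_pr, stream C: the event for a start set gives two disjoint lines (job ESta, about 80 lines)

`no_sep`: `EP ω univ F u` with `F` nonempty; let `e = s(w, w') ∈ ω` (`Sym2.ind`) and suppose `¬ ∃ f ∈ F, Conn (ω.erase e) f u`, that is `u ∉ Cl (ω.erase e) F`.  For each `f ∈ F`, `Conn ω f u` (`h.1.1 f`), and `Conn_insert` for
`ω = insert e (ω.erase e)` gives (1) `Conn (ω.erase e) f u`: excluded; or (2) `Conn (ω.erase e) f w ∧ Conn (ω.erase e) w' u`; or (3) `Conn (ω.erase e) f w' ∧ Conn (ω.erase e) w u`.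
(2) for `f` and (3) for `g` are not compatible: `f → w → u` by (2) for `f`, (3) for `g` gives `Conn (ω.erase e) f u`: excluded.  So either all `f ∈ F` are in case (2), or all in case (3).
Case (2) for all: `AllConn (ω.erase e) F w`, hence `Thru (ω.erase e) univ F w` (`thru_univ'`), and `w ∈ Cl (ω.erase e) F` (`F` nonempty): this contradicts `h.2 w w'`.  Case (3): the same with `h.2 w' w` (`Sym2.eq_swap`).
`EP_start`: `no_sep` and `menger_two` (A/Men.lean; some `f ∈ F` has `Conn ω f u`): disjoint `ω₁, ω₂ ⊆ ω`; `Occ_of_witness` (A/Occ.lean) for the list of two lines with `W = [ω₁, ω₂]` (`Conn (ω₁ ∩ E) f u`, `Finset.inter_eq_left`).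
-/

set_option autoImplicit false

noncomputable section

open Finset
open scoped Classical

namespace IPC.CE

variable {V : Type} [DecidableEq V]

theorem thru_univ' {ω : Finset (Sym2 V)} {F : Finset V} {y : V} :
    Thru ω Set.univ F y ↔ AllConn ω F y := by
  exact ⟨fun h => h.1, fun h => ⟨h, fun f _ hc => hc.1 (Set.mem_univ _)⟩⟩

theorem no_sep {ω : Finset (Sym2 V)} {F : Finset V} (hF : F.Nonempty) {u : V}
    (h : EP ω Set.univ F u) : ∀ e ∈ ω, ∃ f ∈ F, Conn (ω.erase e) f u := by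
  intro e
  induction e using Sym2.ind with
  | _ w w' =>
    intro he
    by_contra hcon
    push Not at hcon
    have hins : insert s(w, w') (ω.erase s(w, w')) = ω := Finset.insert_erase he
    have key : ∀ f ∈ F, (Conn (ω.erase s(w, w')) f w ∧ Conn (ω.erase s(w, w')) w' u) ∨
        (Conn (ω.erase s(w, w')) f w' ∧ Conn (ω.erase s(w, w')) w u) := by
      intro f hf
      have h1 : Conn (insert s(w, w') (ω.erase s(w, w'))) f u := by
        rw [hins]; exact h.1.1 f hf
      rcases Conn_insert h1 with h2 | h2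
      · exact absurd h2 (hcon f hf)
      · exact h2
    have hu : u ∉ Cl (ω.erase s(w, w')) F := fun ⟨f, hf, hc⟩ => hcon f hf hc
    obtain ⟨f0, hf0⟩ := hF
    rcases key f0 hf0 with h0 | h0
    · have hA : AllConn (ω.erase s(w, w')) F w := by
        intro g hg
        rcases key g hg with h2 | h3
        · exact h2.1
        · exact absurd (Conn_trans h0.1 h3.2) (hcon f0 hf0)
      exact h.2 w w' he ⟨f0, hf0, h0.1⟩ hu (thru_univ'.2 hA)
    · have hA : AllConn (ω.erase s(w, w')) F w' := by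
        intro g hg
        rcases key g hg with h2 | h3
        · exact absurd (Conn_trans h0.1 h2.2) (hcon f0 hf0)
        · exact h3.1
      have h4 := h.2 w' w
      rw [Sym2.eq_swap] at h4
      exact h4 he ⟨f0, hf0, h0.1⟩ hu (thru_univ'.2 hA)

/-- two disjoint lines from `F` to `u` -/
theorem EP_start {E ω : Finset (Sym2 V)} (hE : ω ⊆ E) {F : Finset V} (hF : F.Nonempty) {u : V}
    (h : EP ω Set.univ F u) : ∃ f₁ ∈ F, ∃ f₂ ∈ F, OL [(E, f₁, u), (E, f₂, u)] ω := by
  obtain ⟨f0, hf0⟩ := id hF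
  obtain ⟨ω₁, ω₂, hs1, hs2, hd, ⟨f₁, hf₁, hc₁⟩, ⟨f₂, hf₂, hc₂⟩⟩ :=
    menger_two ω F u ⟨f0, hf0, h.1.1 f0 hf0⟩ (no_sep hF h)
  refine ⟨f₁, hf₁, f₂, hf₂, ?_⟩
  refine Occ_of_witness _ ω [ω₁, ω₂] rfl ?_ ?_ ?_
  · intro w hw
    simp only [List.mem_cons, List.not_mem_nil, or_false] at hw
    rcases hw with rfl | rfl
    · exact hs1
    · exact hs2
  · rw [List.pairwise_cons]
    refine ⟨fun w hw => ?_, List.pairwise_singleton _ _⟩
    rw [List.mem_singleton] at hw
    rw [hw]; exact hd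
  · refine List.Forall₂.cons ?_ (List.Forall₂.cons ?_ List.Forall₂.nil)
    · change Conn (ω₁ ∩ E) f₁ u
      rw [Finset.inter_eq_left.2 (hs1.trans hE)]; exact hc₁
    · change Conn (ω₂ ∩ E) f₂ u
      rw [Finset.inter_eq_left.2 (hs2.trans hE)]; exact hc₂

end IPC.CE
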