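import Pool.Agent.Lib.MP_25e40f_pr.C.EHit
import Pool.Agent.Lib.MP_25e40f_pr.C.ESta

/-!
# MP_25e40f_pr, stream C: one more line attached (job EAtb, about 80 lines)

`EP_lines_att`: `EP_lines` gives the four lines `L = [(E, v, z), (E, z, a), (E, a, u), (E, z, u)]`; `v` is an endpoint of the first line; `OL_attach` (A/Att.lean) with `X₀ = ∅`, `t₀ = v`, `y = a2`, `E' = E` (`ω ∩ E = ω`,
`Finset.inter_eq_left`); the first alternative is impossible (`X₀ = ∅`), the second gives `L = L₁ ++ l :: L₂` and `OL (L₁ ++ (l.1, l.2.1, t) :: (l.1, t, l.2.2) :: (L₂ ++ [(E, t, a2)])) ω`.  The equation `L = L₁ ++ l :: L₂` has four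
solutions: `rcases L₁` repeatedly (`List.cons.injEq`, `List.nil_append`, `List.cons_append`, `simp at`), giving the four alternatives in exactly this order.
`EP_start_att`: `a2` is connected to some `f ∈ F`, and `f` to `u` (`h.1.1 f`), so `Conn ω u a2`; `EP_start`, `OL_attach` with `t₀ = u` for `[(E, f₁, u), (E, f₂, u)]`: two cases; in the second case
`OL [(E, f₁, u), (E, f₂, t), (E, t, u), (E, t, a2)]`: exchange the roles of `f₁` and `f₂` (`OL_perm`).
-/

set_option autoImplicit false

noncomputable section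

open Finset
open scoped Classical

namespace IPC.CE

variable {V : Type} [DecidableEq V]

theorem EP_lines_att {E ω : Finset (Sym2 V)} (hE : ω ⊆ E) {A : Set V} {v u : V} (h : EP ω A {v} u)
    {a2 : V} (ha : Conn ω v a2) :
    ∃ z, ∃ a ∈ A, ∃ t,
      OL [(E, v, t), (E, t, z), (E, z, a), (E, a, u), (E, z, u), (E, t, a2)] ω ∨
      OL [(E, v, z), (E, z, t), (E, t, a), (E, a, u), (E, z, u), (E, t, a2)] ω ∨
      OL [(E, v, z), (E, z, a), (E, a, t), (E, t, u), (E, z, u), (E, t, a2)] ω ∨
      OL [(E, v, z), (E, z, a), (E, a, u), (E, z, t), (E, t, u), (E, t, a2)] ω := by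
  obtain ⟨z, a, haA, hL⟩ := EP_lines hE h
  have hy : Conn (ω ∩ E) v a2 := by
    rw [Finset.inter_eq_left.2 hE]
    exact ha
  rcases OL_attach _ ω E ∅ v a2 hL (Or.inr ⟨(E, v, z), List.mem_cons_self, Or.inl rfl⟩) hy with
    ⟨t, ht, _⟩ | ⟨L₁, L₂, l, t, hl, _, hO⟩
  · exact absurd ht (Finset.notMem_empty t)
  · refine ⟨z, a, haA, t, ?_⟩
    rcases L₁ with _ | ⟨l1, L₁⟩
    · simp only [List.nil_append, List.cons.injEq] at hl
      obtain ⟨rfl, rfl⟩ := hl
      exact Or.inl hO
    · rcases L₁ with _ | ⟨l2, L₁⟩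
      · simp only [List.nil_append, List.cons_append, List.cons.injEq] at hl
        obtain ⟨rfl, rfl, rfl⟩ := hl
        exact Or.inr (Or.inl hO)
      · rcases L₁ with _ | ⟨l3, L₁⟩
        · simp only [List.nil_append, List.cons_append, List.cons.injEq] at hl
          obtain ⟨rfl, rfl, rfl, rfl⟩ := hl
          exact Or.inr (Or.inr (Or.inl hO))
        · rcases L₁ with _ | ⟨l4, L₁⟩
          · simp only [List.nil_append, List.cons_append, List.cons.injEq] at hl
            obtain ⟨rfl, rfl, rfl, rfl, rfl⟩ := hl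
            exact Or.inr (Or.inr (Or.inr hO))
          · exfalso
            simp only [List.cons_append, List.cons.injEq] at hl
            have h5 := congrArg List.length hl.2.2.2.2
            rw [List.length_append, List.length_cons, List.length_nil] at h5
            omega

theorem EP_start_att {E ω : Finset (Sym2 V)} (hE : ω ⊆ E) {F : Finset V} {u : V}
    (h : EP ω Set.univ F u) {a2 : V} (ha : a2 ∈ Cl ω F) :
    ∃ f₁ ∈ F, ∃ f₂ ∈ F, ∃ t, OL [(E, f₁, t), (E, t, u), (E, f₂, u), (E, t, a2)] ω := by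
  obtain ⟨f, hf, hfa⟩ := ha
  have hua : Conn ω u a2 := Conn_trans (Conn_symm (h.1.1 f hf)) hfa
  obtain ⟨f₁, hf₁, f₂, hf₂, hL⟩ := EP_start hE ⟨f, hf⟩ h
  have hy : Conn (ω ∩ E) u a2 := by
    rw [Finset.inter_eq_left.2 hE]
    exact hua
  rcases OL_attach _ ω E ∅ u a2 hL (Or.inr ⟨(E, f₁, u), List.mem_cons_self, Or.inr rfl⟩) hy with
    ⟨t, ht, _⟩ | ⟨L₁, L₂, l, t, hl, _, hO⟩
  · exact absurd ht (Finset.notMem_empty t)
  · rcases L₁ with _ | ⟨l1, L₁⟩
    · simp only [List.nil_append, List.cons.injEq] at hl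
      obtain ⟨rfl, rfl⟩ := hl
      exact ⟨f₁, hf₁, f₂, hf₂, t, hO⟩
    · rcases L₁ with _ | ⟨l2, L₁⟩
      · simp only [List.nil_append, List.cons_append, List.cons.injEq] at hl
        obtain ⟨rfl, rfl, rfl⟩ := hl
        refine ⟨f₂, hf₂, f₁, hf₁, t, (OL_perm ?_ ω).1 hO⟩
        exact (List.Perm.swap _ _ _).trans (List.Perm.cons _ (List.Perm.swap _ _ _))
      · exfalso
        simp only [List.cons_append, List.cons.injEq] at hl
        have h5 := congrArg List.length hl.2.2
        rw [List.length_append, List.length_cons, List.length_nil] at h5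
        omega

end IPC.CE
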