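import Mathlib

/-!
# MP_25e40f_pr, stream C: the kernels of the diagrams (abstract, no percolation)

`ta` is the two point function, `P` the one step kernel, both with values in `[0, ∞]`, on any type `V`.
-/

set_option autoImplicit false

open scoped ENNReal

namespace IPC

variable {V : Type}

/-- the weight of one level of a diagram: the lines `(v,z), (z,a), (a,u), (z,u)` with a new vertex `t` on one
of them, joined to `a2` -/
noncomputable def diag (ta : V → V → ℝ≥0∞) (v a z t u a2 : V) : ℝ≥0∞ :=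
  ta t a2 * (ta v t * ta t z * ta z a * ta a u * ta z u + ta v z * ta z t * ta t a * ta a u * ta z u
    + ta v z * ta z a * ta a t * ta t u * ta z u + ta v z * ta z a * ta a u * ta z t * ta t u)

/-- the kernels `K_n[w](v,a)` -/
noncomputable def KK (ta P : V → V → ℝ≥0∞) (w : V → ℝ≥0∞) : ℕ → V → V → ℝ≥0∞
  | 0 => fun v a => ∑' z, ∑' u, ta v z * ta z a * ta a u * ta z u * w u
  | n + 1 => fun v a => ∑' z, ∑' t, ∑' u, ∑' a2, ∑' v2,
      diag ta v a z t u a2 * P u v2 * KK ta P w n v2 a2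

theorem KK_zero (ta P : V → V → ℝ≥0∞) (w : V → ℝ≥0∞) (v a : V) :
    KK ta P w 0 v a = ∑' z, ∑' u, ta v z * ta z a * ta a u * ta z u * w u := rfl

theorem KK_succ (ta P : V → V → ℝ≥0∞) (w : V → ℝ≥0∞) (n : ℕ) (v a : V) :
    KK ta P w (n + 1) v a = ∑' z, ∑' t, ∑' u, ∑' a2, ∑' v2,
      diag ta v a z t u a2 * P u v2 * KK ta P w n v2 a2 := rfl

/-- the first level for a one point start set `{x}`, with the kernel `K_n[w]` behind it:
`sum 2 ta(x,t) ta(t,u) ta(x,u) ta(t,a2) P(u,v2) K_n[w](v2,a2)` -/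
noncomputable def KS (ta P : V → V → ℝ≥0∞) (w : V → ℝ≥0∞) (n : ℕ) (x y : V) : ℝ≥0∞ :=
  ∑' t, ∑' u, ∑' a2, ∑' v2,
    (ta x t * ta t u * ta y u + ta x u * ta y t * ta t u) * ta t a2 * P u v2 * KK ta P w n v2 a2

end IPC
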