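import Pool.Agent.Lib.MP_25e40f_pr.ZDef
import Pool.Agent.Lib.MP_25e40f_pr.C.Kdef

/-!
# MP_25e40f_pr, stream C: the kernels of a graph in `ENNReal`
-/

set_option autoImplicit false

noncomputable section

open Finset
open scoped Classical

namespace IPC.CE

variable {V : Type} [DecidableEq V]

/-- the two point function as a kernel -/
def tK (G : PG V) (p : ℝ) (x y : V) : ENNReal := ENNReal.ofReal (G.tau p x y)

/-- the kernel `p 1{x ~ y}` -/
def pK (G : PG V) (p : ℝ) (x y : V) : ENNReal := if y ∈ G.nb x then ENNReal.ofReal p else 0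

theorem ZZ_zero (G : PG V) (p : ℝ) (F : Finset V) (A : Set V) (u : V) :
    ZZ G p 0 F A u = ∑' S : Finset V, ENNReal.ofReal (G.ec p F A u S) := rfl

theorem ZZ_succ (G : PG V) (p : ℝ) (n : ℕ) (F : Finset V) (A : Set V) (u : V) :
    ZZ G p (n + 1) F A u = ∑' x, ∑' x2, if x2 ∈ G.nb x then
      ∑' S : Finset V, ENNReal.ofReal (G.cc p F A (x, x2) S) * ZZ G p n {x2} (S : Set V) u
      else 0 := rfl

end IPC.CE
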