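import Pool.Agent.Lib.MP_25e40f_pr.C.EPra
import Pool.Agent.Lib.MP_25e40f_pr.C.EAtb

/-!
# MP_25e40f_pr, stream C: probabilities of the events in a finite domain (job EPrD, about 140 lines)

For `ω ⊆ G.ein D`, `EP_lines` (resp. `EP_lines_att`, `EP_start_att`) with `E = G.ein D` gives the lines; the vertices `z`, `a`, `t` belong to `D`: each line `(E, x, y)` of the list has `Conn (ω ∩ E) x y` (auxiliary lemma from `Occ_witness`, or
`OL_append`/`OL_single`), so there is a chain of connections from `v ∈ D` (resp. `f ∈ F ⊆ D`), `T.Conn_mem_ein'`.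
`Pr_EP_le`: `tsum_bound` with `α = V × V` (pairs `(a, z)`), `s = (D ×ˢ D).filter (fun q => q.1 ∈ A)`, `X q = OL [..]`, `f (a, z) = A.indicator (fun a => the product) a`; `Pr_lines_le` with `L = [(v, z), (z, a), (a, u), (z, u)]` (`simp`
for the product, `mul_assoc`); then `ENNReal.tsum_prod` and `A.indicator (fun a => ∑' z, g a z) a = ∑' z, A.indicator (fun a => g a z) a` (`Set.indicator_apply`, `split_ifs`, `tsum_zero`).
`Pr_EP_att_le`: the same with `α = V × V × V` (`(a, z, t)`), `X (a, z, t)` = the disjunction of the four `OL`; its probability is at most the sum of the four products (`Pr_or_le` three times, `ENNReal.ofReal_add`, `Pr_lines_le`), which is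
`diag` (`ta t a2 * (sum of four products)`: `mul_add`, `ring`).
`Pr_EPs_att_le`: the event is contained in `∃ f₁ ∈ F, ∃ f₂ ∈ F, ∃ t ∈ D, OL [..]`; `Pr_exists_le` over `F ×ˢ F` and `tsum_bound` for fixed `f₁, f₂` (`s = D`, `f t` = the product).
-/

set_option autoImplicit false

noncomputable section

open Finset
open scoped Classical

namespace IPC.CE

variable {V : Type} [DecidableEq V]

variable (G : PG V)

private theorem EPrD_conn {L : List (Line V)} {ω : Finset (Sym2 V)} (h : OL L ω) :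
    ∀ l ∈ L, Conn ω l.2.1 l.2.2 := by
  induction L generalizing ω with
  | nil => intro l hl; exact absurd hl List.not_mem_nil
  | cons l0 L ih =>
    obtain ⟨ω₁, h1, h2, h3⟩ := h
    intro l hl
    rcases List.mem_cons.1 hl with rfl | hl
    · exact Conn_mono (Finset.inter_subset_left.trans h1) h2
    · exact Conn_mono Finset.sdiff_subset (ih (ω := ω \ ω₁) h3 l hl)

private theorem EPrD_prob {p : ℝ} (h0 : 0 ≤ p) (h1 : p ≤ 1 / 2) (D : Finset V)
    (L : List (V × V)) {X : Finset (Sym2 V) → Prop} {c : ENNReal}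
    (hX : X = OL (L.map fun l => (G.ein D, l.1, l.2)))
    (hc : (L.map fun l => tK G p l.1 l.2).prod = c) :
    ENNReal.ofReal (Pr p (G.ein D) X) ≤ c := by
  rw [hX, ← hc]
  exact Pr_lines_le G h0 h1 D L

theorem Pr_EP_le {p : ℝ} (h0 : 0 ≤ p) (h1 : p ≤ 1 / 2) {D : Finset V} {v : V} (hv : v ∈ D) (u : V)
    (A : Set V) :
    ENNReal.ofReal (Pr p (G.ein D) (fun ω => EP ω A {v} u)) ≤
      ∑' a, A.indicator (fun a => ∑' z, tK G p v z * tK G p z a * tK G p a u * tK G p z u) a := by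
  have h1' : p ≤ 1 := by linarith
  have key := tsum_bound h0 h1' (G.ein D) (α := V × V)
    ((D ×ˢ D).filter fun q => q.1 ∈ A) (fun ω => EP ω A {v} u)
    (fun q => OL [(G.ein D, v, q.2), (G.ein D, q.2, q.1), (G.ein D, q.1, u), (G.ein D, q.2, u)])
    (fun q => A.indicator
      (fun a => tK G p v q.2 * tK G p q.2 a * tK G p a u * tK G p q.2 u) q.1)
    (by
      intro ω hω h
      obtain ⟨z, a, ha, hO⟩ := EP_lines hω h
      have hc := EPrD_conn hO
      have hz : z ∈ D := T.Conn_mem_ein' G hω (hc (G.ein D, v, z) (by simp)) hv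
      have haD : a ∈ D := T.Conn_mem_ein' G hω (hc (G.ein D, z, a) (by simp)) hz
      exact ⟨(a, z), Finset.mem_filter.2 ⟨Finset.mem_product.2 ⟨haD, hz⟩, ha⟩, hO⟩)
    (by
      intro q hq
      have hqA : q.1 ∈ A := (Finset.mem_filter.1 hq).2
      rw [Set.indicator_of_mem hqA]
      refine EPrD_prob G h0 h1 D [(v, q.2), (q.2, q.1), (q.1, u), (q.2, u)] rfl ?_
      simp [mul_assoc])
  refine key.trans (le_of_eq ?_)
  rw [ENNReal.tsum_prod (f := fun a z => A.indicator
      (fun a => tK G p v z * tK G p z a * tK G p a u * tK G p z u) a)]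
  congr 1
  ext1 a
  by_cases ha : a ∈ A
  · simp only [Set.indicator_of_mem ha]
  · simp only [Set.indicator_of_notMem ha, tsum_zero]

theorem Pr_EP_att_le {p : ℝ} (h0 : 0 ≤ p) (h1 : p ≤ 1 / 2) {D : Finset V} {v : V} (hv : v ∈ D)
    (u a2 : V) (A : Set V) :
    ENNReal.ofReal (Pr p (G.ein D) (fun ω => EP ω A {v} u ∧ Conn ω v a2)) ≤
      ∑' a, A.indicator (fun a => ∑' z, ∑' t, diag (tK G p) v a z t u a2) a := by
  have h1' : p ≤ 1 := by linarith
  have key := tsum_bound h0 h1' (G.ein D) (α := V × V × V)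
    ((D ×ˢ (D ×ˢ D)).filter fun q => q.1 ∈ A) (fun ω => EP ω A {v} u ∧ Conn ω v a2)
    (fun q ω =>
      OL [(G.ein D, v, q.2.2), (G.ein D, q.2.2, q.2.1), (G.ein D, q.2.1, q.1), (G.ein D, q.1, u),
        (G.ein D, q.2.1, u), (G.ein D, q.2.2, a2)] ω ∨
      (OL [(G.ein D, v, q.2.1), (G.ein D, q.2.1, q.2.2), (G.ein D, q.2.2, q.1), (G.ein D, q.1, u),
        (G.ein D, q.2.1, u), (G.ein D, q.2.2, a2)] ω ∨
      (OL [(G.ein D, v, q.2.1), (G.ein D, q.2.1, q.1), (G.ein D, q.1, q.2.2), (G.ein D, q.2.2, u),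
        (G.ein D, q.2.1, u), (G.ein D, q.2.2, a2)] ω ∨
      OL [(G.ein D, v, q.2.1), (G.ein D, q.2.1, q.1), (G.ein D, q.1, u), (G.ein D, q.2.1, q.2.2),
        (G.ein D, q.2.2, u), (G.ein D, q.2.2, a2)] ω)))
    (fun q => A.indicator (fun a => diag (tK G p) v a q.2.1 q.2.2 u a2) q.1)
    (by
      rintro ω hω ⟨h, hv2⟩
      obtain ⟨z, a, ha, t, hO⟩ := EP_lines_att hω h hv2
      have hmem : ∀ {x y : V}, Conn ω x y → x ∈ D → y ∈ D := fun hxy hx =>
        T.Conn_mem_ein' G hω hxy hx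
      have hD : a ∈ D ∧ z ∈ D ∧ t ∈ D := by
        rcases hO with hO | hO | hO | hO
        · have hc := EPrD_conn hO
          have ht := hmem (hc (G.ein D, v, t) (by simp)) hv
          have hz := hmem (hc (G.ein D, t, z) (by simp)) ht
          exact ⟨hmem (hc (G.ein D, z, a) (by simp)) hz, hz, ht⟩
        · have hc := EPrD_conn hO
          have hz := hmem (hc (G.ein D, v, z) (by simp)) hv
          have ht := hmem (hc (G.ein D, z, t) (by simp)) hz
          exact ⟨hmem (hc (G.ein D, t, a) (by simp)) ht, hz, ht⟩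
        · have hc := EPrD_conn hO
          have hz := hmem (hc (G.ein D, v, z) (by simp)) hv
          have ha := hmem (hc (G.ein D, z, a) (by simp)) hz
          exact ⟨ha, hz, hmem (hc (G.ein D, a, t) (by simp)) ha⟩
        · have hc := EPrD_conn hO
          have hz := hmem (hc (G.ein D, v, z) (by simp)) hv
          exact ⟨hmem (hc (G.ein D, z, a) (by simp)) hz, hz,
            hmem (hc (G.ein D, z, t) (by simp)) hz⟩
      exact ⟨(a, z, t), Finset.mem_filter.2 ⟨Finset.mem_product.2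
        ⟨hD.1, Finset.mem_product.2 ⟨hD.2.1, hD.2.2⟩⟩, ha⟩, hO⟩)
    (by
      rintro ⟨a, z, t⟩ hq
      have hqA : a ∈ A := (Finset.mem_filter.1 hq).2
      show ENNReal.ofReal _ ≤ A.indicator (fun a => diag (tK G p) v a z t u a2) a
      rw [Set.indicator_of_mem hqA]
      have hor : ∀ B C : Finset (Sym2 V) → Prop, ENNReal.ofReal (Pr p (G.ein D)
          (fun ω => B ω ∨ C ω)) ≤ ENNReal.ofReal (Pr p (G.ein D) B) +
            ENNReal.ofReal (Pr p (G.ein D) C) := by
        intro B C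
        rw [← ENNReal.ofReal_add (Pr_nonneg h0 h1' _ _) (Pr_nonneg h0 h1' _ _)]
        exact ENNReal.ofReal_le_ofReal (Pr_or_le h0 h1' _ _ _)
      refine (hor _ _).trans ((add_le_add le_rfl ((hor _ _).trans
        (add_le_add le_rfl (hor _ _)))).trans ?_)
      have e1 := EPrD_prob G h0 h1 D (X := OL [(G.ein D, v, t), (G.ein D, t, z), (G.ein D, z, a),
        (G.ein D, a, u), (G.ein D, z, u), (G.ein D, t, a2)])
        [(v, t), (t, z), (z, a), (a, u), (z, u), (t, a2)] rfl rfl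
      have e2 := EPrD_prob G h0 h1 D (X := OL [(G.ein D, v, z), (G.ein D, z, t), (G.ein D, t, a),
        (G.ein D, a, u), (G.ein D, z, u), (G.ein D, t, a2)])
        [(v, z), (z, t), (t, a), (a, u), (z, u), (t, a2)] rfl rfl
      have e3 := EPrD_prob G h0 h1 D (X := OL [(G.ein D, v, z), (G.ein D, z, a), (G.ein D, a, t),
        (G.ein D, t, u), (G.ein D, z, u), (G.ein D, t, a2)])
        [(v, z), (z, a), (a, t), (t, u), (z, u), (t, a2)] rfl rfl
      have e4 := EPrD_prob G h0 h1 D (X := OL [(G.ein D, v, z), (G.ein D, z, a), (G.ein D, a, u),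
        (G.ein D, z, t), (G.ein D, t, u), (G.ein D, t, a2)])
        [(v, z), (z, a), (a, u), (z, t), (t, u), (t, a2)] rfl rfl
      refine (add_le_add e1 (add_le_add e2 (add_le_add e3 e4))).trans (le_of_eq ?_)
      simp only [List.map_cons, List.map_nil, List.prod_cons, List.prod_nil, mul_one]
      unfold diag
      ring)
  refine key.trans (le_of_eq ?_)
  rw [ENNReal.tsum_prod (f := fun (a : V) (zt : V × V) => A.indicator
      (fun a => diag (tK G p) v a zt.1 zt.2 u a2) a)]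
  congr 1
  ext1 a
  by_cases ha : a ∈ A
  · simp only [Set.indicator_of_mem ha]
    exact ENNReal.tsum_prod (f := fun z t => diag (tK G p) v a z t u a2)
  · simp only [Set.indicator_of_notMem ha, tsum_zero]

theorem Pr_EPs_att_le {p : ℝ} (h0 : 0 ≤ p) (h1 : p ≤ 1 / 2) {D F : Finset V} (hFD : F ⊆ D)
    (u a2 : V) :
    ENNReal.ofReal (Pr p (G.ein D) (fun ω => EP ω Set.univ F u ∧ a2 ∈ Cl ω F)) ≤
      ∑ f₁ ∈ F, ∑ f₂ ∈ F, ∑' t, tK G p f₁ t * tK G p t u * tK G p f₂ u * tK G p t a2 := by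
  have h1' : p ≤ 1 := by linarith
  have hm : Pr p (G.ein D) (fun ω => EP ω Set.univ F u ∧ a2 ∈ Cl ω F) ≤
      ∑ k ∈ F ×ˢ F, Pr p (G.ein D) (fun ω => ∃ t, k.1 ∈ F ∧ OL [(G.ein D, k.1, t),
        (G.ein D, t, u), (G.ein D, k.2, u), (G.ein D, t, a2)] ω) := by
    refine (Pr_mono h0 h1' _ ?_).trans (Pr_exists_le h0 h1' (G.ein D) (F ×ˢ F)
      (fun k ω => ∃ t, k.1 ∈ F ∧ OL [(G.ein D, k.1, t), (G.ein D, t, u), (G.ein D, k.2, u),
        (G.ein D, t, a2)] ω))
    rintro ω hω ⟨h, ha⟩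
    obtain ⟨f₁, hf₁, f₂, hf₂, t, hO⟩ := EP_start_att hω h ha
    exact ⟨(f₁, f₂), Finset.mem_product.2 ⟨hf₁, hf₂⟩, t, hf₁, hO⟩
  refine (ENNReal.ofReal_le_ofReal hm).trans ?_
  rw [ENNReal.ofReal_sum_of_nonneg (fun _ _ => Pr_nonneg h0 h1' _ _),
    ← Finset.sum_product (f := fun k : V × V => ∑' t, tK G p k.1 t * tK G p t u *
      tK G p k.2 u * tK G p t a2)]
  refine Finset.sum_le_sum fun k _ => ?_
  refine tsum_bound h0 h1' (G.ein D) (α := V) D _
    (fun t => OL [(G.ein D, k.1, t), (G.ein D, t, u), (G.ein D, k.2, u), (G.ein D, t, a2)])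
    (fun t => tK G p k.1 t * tK G p t u * tK G p k.2 u * tK G p t a2) ?_ ?_
  · rintro ω hω ⟨t, hk, hO⟩
    have hc := EPrD_conn hO
    exact ⟨t, T.Conn_mem_ein' G hω (hc (G.ein D, k.1, t) (by simp)) (hFD hk), hO⟩
  · intro t _
    refine EPrD_prob G h0 h1 D [(k.1, t), (t, u), (k.2, u), (t, a2)] rfl ?_
    simp [mul_assoc]

end IPC.CE
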