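import Pool.Agent.Lib.MP_25e40f_pr.C.EFam
import Pool.Agent.Lib.MP_25e40f_pr.C.EPrD

/-!
# MP_25e40f_pr, stream C: sums of coefficients over all clusters (job EFab, about 110 lines)

`ENNReal.tsum_eq_iSup_sum`, `iSup_le`: for every finite family `𝒮`: `∑ S ∈ 𝒮, ofReal (c S) = ofReal (∑ S ∈ 𝒮, c S)` (`ENNReal.ofReal_sum_of_nonneg`; `ec_nonneg_C`, `cc_nonneg_C`), `exists_dom 𝒮 {v}` (resp. `exists_dom 𝒮 F`), `sum_ec_le`
resp. `sum_cc_le` (the terms with `a2 ∉ S` vanish: `Finset.sum_filter`), `ENNReal.ofReal_mul`, and the bounds `Pr_EP_le`, `Pr_EPs_le`, `Pr_EP_att_le`, `Pr_EPs_att_le`.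
For `F = {v}`: `a2 ∈ Cl ω {v}` is `Conn ω v a2` (`Cl`, `Finset.mem_singleton`).
-/

set_option autoImplicit false

noncomputable section

open Finset
open scoped Classical

namespace IPC.CE

variable {V : Type} [DecidableEq V]

variable (G : PG V)

private theorem EFab_sup {c : Finset V → ℝ} (hc : ∀ S, 0 ≤ c S) {B : ENNReal}
    (h : ∀ 𝒮 : Finset (Finset V), ENNReal.ofReal (∑ S ∈ 𝒮, c S) ≤ B) :
    ∑' S, ENNReal.ofReal (c S) ≤ B := by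
  rw [ENNReal.tsum_eq_iSup_sum]
  refine iSup_le fun 𝒮 => ?_
  rw [← ENNReal.ofReal_sum_of_nonneg fun S _ => hc S]
  exact h 𝒮

private theorem EFab_sup' {c : Finset V → ℝ} (hc : ∀ S, 0 ≤ c S) (a2 : V) {B : ENNReal}
    (h : ∀ 𝒮 : Finset (Finset V), ENNReal.ofReal (∑ S ∈ 𝒮.filter (fun S => a2 ∈ S), c S) ≤ B) :
    ∑' S, (if a2 ∈ S then ENNReal.ofReal (c S) else 0) ≤ B := by
  rw [ENNReal.tsum_eq_iSup_sum]
  refine iSup_le fun 𝒮 => ?_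
  rw [← Finset.sum_filter, ← ENNReal.ofReal_sum_of_nonneg fun S _ => hc S]
  exact h 𝒮

theorem tsum_ec_le {p : ℝ} (h0 : 0 ≤ p) (h1 : p ≤ 1 / 2) (v u : V) (A : Set V) :
    ∑' S : Finset V, ENNReal.ofReal (G.ec p {v} A u S) ≤
      ∑' a, A.indicator (fun a => ∑' z, tK G p v z * tK G p z a * tK G p a u * tK G p z u) a := by
  have h2 : p ≤ 1 := by linarith
  refine EFab_sup (fun S => ec_nonneg_C G h0 h2 {v} A u S) fun 𝒮 => ?_
  obtain ⟨D, hFD, hD⟩ := exists_dom G 𝒮 {v}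
  refine (ENNReal.ofReal_le_ofReal (sum_ec_le G h0 h2 𝒮 hD {v} A u)).trans ?_
  exact Pr_EP_le G h0 h1 (hFD (Finset.mem_singleton_self v)) u A

theorem tsum_ecs_le {p : ℝ} (h0 : 0 ≤ p) (h1 : p ≤ 1 / 2) {F : Finset V}
    (hF : F.Nonempty) (u : V) :
    ∑' S : Finset V, ENNReal.ofReal (G.ec p F Set.univ u S) ≤
      ∑ f₁ ∈ F, ∑ f₂ ∈ F, tK G p f₁ u * tK G p f₂ u := by
  have h2 : p ≤ 1 := by linarith
  refine EFab_sup (fun S => ec_nonneg_C G h0 h2 F Set.univ u S) fun 𝒮 => ?_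
  obtain ⟨D, _, hD⟩ := exists_dom G 𝒮 F
  refine (ENNReal.ofReal_le_ofReal (sum_ec_le G h0 h2 𝒮 hD F Set.univ u)).trans ?_
  exact Pr_EPs_le G h0 h1 hF u

theorem tsum_cc_le {p : ℝ} (h0 : 0 ≤ p) (h1 : p ≤ 1 / 2) (v : V) (A : Set V)
    (b : V × V) (a2 : V) :
    ∑' S : Finset V, (if a2 ∈ S then ENNReal.ofReal (G.cc p {v} A b S) else 0) ≤
      ENNReal.ofReal p *
        ∑' a, A.indicator (fun a => ∑' z, ∑' t, diag (tK G p) v a z t b.1 a2) a := by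
  have h2 : p ≤ 1 := by linarith
  refine EFab_sup' (fun S => cc_nonneg_C G h0 h2 {v} A b S) a2 fun 𝒮 => ?_
  obtain ⟨D, hFD, hD⟩ := exists_dom G 𝒮 {v}
  refine (ENNReal.ofReal_le_ofReal (sum_cc_le G h0 h2 𝒮 hD {v} A b a2)).trans ?_
  rw [ENNReal.ofReal_mul h0]
  refine mul_le_mul_right ?_ _
  have h3 : (fun ω => EP ω A {v} b.1 ∧ a2 ∈ Cl ω {v}) =
      (fun ω => EP ω A {v} b.1 ∧ Conn ω v a2) := by
    funext ω
    have h4 : a2 ∈ Cl ω {v} ↔ Conn ω v a2 := by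
      constructor
      · rintro ⟨f, hf, hc⟩
        rw [Finset.mem_singleton] at hf
        rw [hf] at hc
        exact hc
      · intro hc
        exact ⟨v, Finset.mem_singleton_self v, hc⟩
    rw [h4]
  rw [h3]
  exact Pr_EP_att_le G h0 h1 (hFD (Finset.mem_singleton_self v)) b.1 a2 A

theorem tsum_ccs_le {p : ℝ} (h0 : 0 ≤ p) (h1 : p ≤ 1 / 2) (F : Finset V)
    (b : V × V) (a2 : V) :
    ∑' S : Finset V, (if a2 ∈ S then ENNReal.ofReal (G.cc p F Set.univ b S) else 0) ≤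
      ENNReal.ofReal p * ∑ f₁ ∈ F, ∑ f₂ ∈ F, ∑' t,
        tK G p f₁ t * tK G p t b.1 * tK G p f₂ b.1 * tK G p t a2 := by
  have h2 : p ≤ 1 := by linarith
  refine EFab_sup' (fun S => cc_nonneg_C G h0 h2 F Set.univ b S) a2 fun 𝒮 => ?_
  obtain ⟨D, hFD, hD⟩ := exists_dom G 𝒮 F
  refine (ENNReal.ofReal_le_ofReal (sum_cc_le G h0 h2 𝒮 hD F Set.univ b a2)).trans ?_
  rw [ENNReal.ofReal_mul h0]
  exact mul_le_mul_right (Pr_EPs_att_le G h0 h1 hFD b.1 a2) _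

end IPC.CE
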