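import Pool.Agent.Lib.MP_25e40f_pr.C.ELoc
import Pool.Agent.Lib.MP_25e40f_pr.A.Prb

/-!
# MP_25e40f_pr, stream C: sums of coefficients over finite families of clusters (job EFam, about 100 lines; with the file ELoc, 15 lines)

`exists_dom`: `D = F ∪ T.biUnion (fun S => S ∪ S.biUnion G.nb)`, `T.touch_subset_ein` (namespace `IPC.T`, file T/Ein.lean; beware of the name `T`).
`ec_nonneg_C`, `cc_nonneg_C`: unfold, `Pr_nonneg`, `mul_nonneg`.
`sum_ec_le`: for `S ∈ 𝒮`, `ec p F A u S = Pr p (touch S) X_S = Pr p (ein D) X_S` by `Pr_restrict` (A/Prb.lean) and `loc_ec` (`X_S ω = (EP ω A F u ∧ Cl ω F = S)`); the events `X_S` are disjoint for different `S` (`Cl ω F = S` determines `S`,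
`Finset.coe_injective`): `Pr_exists_eq` (or `sum_Pr_le`), and their union is contained in `EP ω A F u`: `Pr_mono`.
`sum_cc_le`: the same with `loc_cc` for the sets `S ∈ 𝒮` with `a2 ∈ S`; on `X_S`: `a2 ∈ S = Cl (ω.erase s(b.1, b.2)) F ⊆ Cl ω F` (`T.Cl_mono`, `Finset.erase_subset`); `Finset.mul_sum`.
-/

set_option autoImplicit false

noncomputable section

open Finset
open scoped Classical

namespace IPC.CE

variable {V : Type} [DecidableEq V]

variable (G : PG V)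

theorem exists_dom (𝒮 : Finset (Finset V)) (F : Finset V) :
    ∃ D : Finset V, F ⊆ D ∧ ∀ S ∈ 𝒮, G.touch S ⊆ G.ein D := by
  refine ⟨F ∪ 𝒮.biUnion (fun S => S ∪ S.biUnion G.nb), Finset.subset_union_left, ?_⟩
  intro S hS
  have h1 : S ∪ S.biUnion G.nb ⊆ F ∪ 𝒮.biUnion (fun S => S ∪ S.biUnion G.nb) := by
    refine Finset.Subset.trans ?_ Finset.subset_union_right
    exact Finset.subset_biUnion_of_mem (fun S => S ∪ S.biUnion G.nb) hS
  refine T.touch_subset_ein G (Finset.Subset.trans Finset.subset_union_left h1) ?_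
  intro a ha
  refine Finset.Subset.trans ?_ h1
  refine Finset.Subset.trans ?_ Finset.subset_union_right
  exact Finset.subset_biUnion_of_mem G.nb ha

theorem ec_nonneg_C {p : ℝ} (h0 : 0 ≤ p) (h1 : p ≤ 1) (F : Finset V) (A : Set V) (u : V)
    (S : Finset V) : 0 ≤ G.ec p F A u S := by
  unfold PG.ec
  exact Pr_nonneg h0 h1 _ _

theorem cc_nonneg_C {p : ℝ} (h0 : 0 ≤ p) (h1 : p ≤ 1) (F : Finset V) (A : Set V) (b : V × V)
    (S : Finset V) : 0 ≤ G.cc p F A b S := by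
  unfold PG.cc
  exact mul_nonneg h0 (Pr_nonneg h0 h1 _ _)

theorem sum_ec_le {p : ℝ} (h0 : 0 ≤ p) (h1 : p ≤ 1) (𝒮 : Finset (Finset V))
    {D : Finset V} (hD : ∀ S ∈ 𝒮, G.touch S ⊆ G.ein D) (F : Finset V) (A : Set V) (u : V) :
    ∑ S ∈ 𝒮, G.ec p F A u S ≤ Pr p (G.ein D) (fun ω => EP ω A F u) := by
  have h2 : ∑ S ∈ 𝒮, G.ec p F A u S =
      ∑ S ∈ 𝒮, Pr p (G.ein D) (fun ω => EP ω A F u ∧ Cl ω F = (S : Set V)) := by
    refine Finset.sum_congr rfl fun S hS => ?_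
    unfold PG.ec
    exact (Pr_restrict p (hD S hS) (fun ω => EP ω A F u ∧ Cl ω F = (S : Set V))
      fun ω hω => loc_ec G D S F A u hω).symm
  rw [h2]
  refine sum_Pr_le h0 h1 _ 𝒮 (fun S ω => EP ω A F u ∧ Cl ω F = (S : Set V)) _ ?_ ?_
  · intro ω _ S _ S' _ hS hS'
    exact Finset.coe_injective (hS.2.symm.trans hS'.2)
  · intro ω _ S _ hS
    exact hS.1

theorem sum_cc_le {p : ℝ} (h0 : 0 ≤ p) (h1 : p ≤ 1) (𝒮 : Finset (Finset V))
    {D : Finset V} (hD : ∀ S ∈ 𝒮, G.touch S ⊆ G.ein D) (F : Finset V) (A : Set V) (b : V × V)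
    (a2 : V) :
    ∑ S ∈ 𝒮.filter (fun S => a2 ∈ S), G.cc p F A b S ≤
      p * Pr p (G.ein D) (fun ω => EP ω A F b.1 ∧ a2 ∈ Cl ω F) := by
  have h2 : ∑ S ∈ 𝒮.filter (fun S => a2 ∈ S), G.cc p F A b S =
      p * ∑ S ∈ 𝒮.filter (fun S => a2 ∈ S), Pr p (G.ein D)
        (fun ω => EP ω A F b.1 ∧ Cl (ω.erase s(b.1, b.2)) F = (S : Set V)) := by
    rw [Finset.mul_sum]
    refine Finset.sum_congr rfl fun S hS => ?_
    unfold PG.cc
    congr 1
    exact (Pr_restrict p (hD S (Finset.mem_filter.1 hS).1)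
      (fun ω => EP ω A F b.1 ∧ Cl (ω.erase s(b.1, b.2)) F = (S : Set V))
      fun ω hω => loc_cc G D S F A b.1 b.2 hω).symm
  rw [h2]
  refine mul_le_mul_of_nonneg_left ?_ h0
  refine sum_Pr_le h0 h1 _ (𝒮.filter (fun S => a2 ∈ S))
    (fun S ω => EP ω A F b.1 ∧ Cl (ω.erase s(b.1, b.2)) F = (S : Set V)) _ ?_ ?_
  · intro ω _ S _ S' _ hS hS'
    exact Finset.coe_injective (hS.2.symm.trans hS'.2)
  · intro ω _ S hS hS2
    refine ⟨hS2.1, ?_⟩
    have h3 : a2 ∈ Cl (ω.erase s(b.1, b.2)) F := by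
      rw [hS2.2]
      exact (Finset.mem_filter.1 hS).2
    exact T.Cl_mono (Finset.erase_subset _ _) (Finset.Subset.refl F) h3

end IPC.CE
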