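import Pool.Agent.Lib.MP_25e40f_pr.C.Kdef

/-!
# MP_25e40f_pr, stream C: products of kernels with values in `[0, ∞]`
-/

set_option autoImplicit false

open scoped ENNReal

namespace IPC

variable {V : Type}

/-- product of kernels -/
noncomputable def mm (f g : V → V → ℝ≥0∞) : V → V → ℝ≥0∞ := fun x y => ∑' z, f x z * g z y

/-- weighted kernel -/
noncomputable def wt (w k : V → V → ℝ≥0∞) : V → V → ℝ≥0∞ := fun x y => w x y * k x y

/-- the constant weight `1` -/
noncomputable def kone : V → V → ℝ≥0∞ := fun _ _ => 1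

theorem mm_apply (f g : V → V → ℝ≥0∞) (x y : V) : mm f g x y = ∑' z, f x z * g z y := rfl

theorem wt_apply (w k : V → V → ℝ≥0∞) (x y : V) : wt w k x y = w x y * k x y := rfl

theorem wt_kone (k : V → V → ℝ≥0∞) : wt kone k = k := by
  funext x y
  simp [wt, kone]

theorem mm_mono {f f' g g' : V → V → ℝ≥0∞} (hf : ∀ x y, f x y ≤ f' x y)
    (hg : ∀ x y, g x y ≤ g' x y) (x y : V) : mm f g x y ≤ mm f' g' x y :=
  ENNReal.tsum_le_tsum fun z => mul_le_mul' (hf x z) (hg z y)

theorem mm_assoc (f g h : V → V → ℝ≥0∞) : mm (mm f g) h = mm f (mm g h) := by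
  funext x y
  unfold mm
  calc ∑' z, (∑' w, f x w * g w z) * h z y
      = ∑' z, ∑' w, f x w * g w z * h z y := by
        refine tsum_congr fun z => ?_
        rw [ENNReal.tsum_mul_right]
    _ = ∑' w, ∑' z, f x w * g w z * h z y := ENNReal.tsum_comm
    _ = ∑' w, f x w * ∑' z, g w z * h z y := by
        refine tsum_congr fun w => ?_
        rw [← ENNReal.tsum_mul_left]
        refine tsum_congr fun z => ?_
        ring

/-- transposed kernel -/
def ktr (k : V → V → ℝ≥0∞) : V → V → ℝ≥0∞ := fun x y => k y x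

theorem mm_swap (f g : V → V → ℝ≥0∞) (x y : V) : mm f g x y = mm (ktr g) (ktr f) y x := by
  unfold mm ktr
  exact tsum_congr fun z => mul_comm _ _

theorem ktr_mm (f g : V → V → ℝ≥0∞) : ktr (mm f g) = mm (ktr g) (ktr f) := by
  funext x y
  exact mm_swap f g y x

theorem ktr_symm {k : V → V → ℝ≥0∞} (h : ∀ x y, k x y = k y x) : ktr k = k := by
  funext x y
  exact h y x

theorem ktr_wt {w k : V → V → ℝ≥0∞} (hw : ∀ x y, w x y = w y x) (hk : ∀ x y, k x y = k y x) :
    ktr (wt w k) = wt w k := by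
  funext x y
  simp only [ktr, wt, hw y x, hk y x]

theorem le_mm_left {f g : V → V → ℝ≥0∞} (hg : ∀ x, 1 ≤ g x x) (x y : V) : f x y ≤ mm f g x y := by
  calc f x y = f x y * 1 := (mul_one _).symm
    _ ≤ f x y * g y y := mul_le_mul' le_rfl (hg y)
    _ ≤ ∑' z, f x z * g z y := ENNReal.le_tsum y

theorem le_mm_right {f g : V → V → ℝ≥0∞} (hf : ∀ x, 1 ≤ f x x) (x y : V) : g x y ≤ mm f g x y := by
  calc g x y = 1 * g x y := (one_mul _).symm
    _ ≤ f x x * g x y := mul_le_mul' (hf x) le_rfl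
    _ ≤ ∑' z, f x z * g z y := ENNReal.le_tsum x

/-- a bound of the second factor: `sum_z f(x,z) g(z,y) ≤ (sum_z f(x,z)) sup g` -/
theorem mm_le_of_le {f g : V → V → ℝ≥0∞} {C X : ℝ≥0∞} (x y : V) (hf : ∑' z, f x z ≤ C)
    (hg : ∀ z, g z y ≤ X) : mm f g x y ≤ C * X := by
  calc ∑' z, f x z * g z y ≤ ∑' z, f x z * X := ENNReal.tsum_le_tsum fun z => mul_le_mul' le_rfl (hg z)
    _ = (∑' z, f x z) * X := ENNReal.tsum_mul_right
    _ ≤ C * X := mul_le_mul' hf le_rfl

/-- chains -/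
noncomputable def ch3 (a b c : V → V → ℝ≥0∞) : V → V → ℝ≥0∞ := mm a (mm b c)

noncomputable def ch4 (a b c d : V → V → ℝ≥0∞) : V → V → ℝ≥0∞ := mm a (mm b (mm c d))

theorem ch3_apply (a b c : V → V → ℝ≥0∞) (x y : V) :
    ch3 a b c x y = ∑' z, ∑' t, a x z * b z t * c t y := by
  unfold ch3 mm
  refine tsum_congr fun z => ?_
  rw [← ENNReal.tsum_mul_left]
  exact tsum_congr fun t => by ring

theorem ch4_apply (a b c d : V → V → ℝ≥0∞) (x y : V) :
    ch4 a b c d x y = ∑' z, ∑' t, ∑' u, a x z * b z t * c t u * d u y := by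
  unfold ch4 mm
  refine tsum_congr fun z => ?_
  rw [← ENNReal.tsum_mul_left]
  refine tsum_congr fun t => ?_
  rw [← ENNReal.tsum_mul_left, ← ENNReal.tsum_mul_left]
  exact tsum_congr fun t => by ring

theorem ch3_mono {a a' b b' c c' : V → V → ℝ≥0∞} (ha : ∀ x y, a x y ≤ a' x y)
    (hb : ∀ x y, b x y ≤ b' x y) (hc : ∀ x y, c x y ≤ c' x y) (x y : V) :
    ch3 a b c x y ≤ ch3 a' b' c' x y :=
  mm_mono ha (mm_mono hb hc) x y

theorem ch4_mono {a a' b b' c c' d d' : V → V → ℝ≥0∞} (ha : ∀ x y, a x y ≤ a' x y)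
    (hb : ∀ x y, b x y ≤ b' x y) (hc : ∀ x y, c x y ≤ c' x y) (hd : ∀ x y, d x y ≤ d' x y) (x y : V) :
    ch4 a b c d x y ≤ ch4 a' b' c' d' x y :=
  mm_mono ha (mm_mono hb (mm_mono hc hd)) x y

/-- hypotheses on the two point function and the step kernel -/
structure Ker (ta P : V → V → ℝ≥0∞) (q : ℝ≥0∞) : Prop where
  symm : ∀ x y, ta x y = ta y x
  one : ∀ x, ta x x = 1
  le_one : ∀ x y, ta x y ≤ 1
  step : ∀ x y, x ≠ y → ta x y ≤ mm P ta x y
  q4 : ∀ x y, ch4 (mm P ta) ta ta ta x y ≤ q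

/-- quasi triangle inequality for a weight -/
def QT (f : V → V → ℝ≥0∞) (a c : ℝ≥0∞) : Prop := ∀ x y z, f x z ≤ a * f y z + c * f x y

theorem QT_kone : QT (kone : V → V → ℝ≥0∞) 1 0 := by
  intro x y z
  simp [kone]

namespace Ker

variable {ta P : V → V → ℝ≥0∞} {q : ℝ≥0∞}

theorem one_le (h : Ker ta P q) (x : V) : 1 ≤ ta x x := (h.one x).ge

/-- `(P ta) ta ta ≤ q` -/
theorem t3 (h : Ker ta P q) (x y : V) : ch3 (mm P ta) ta ta x y ≤ q := by
  refine le_trans ?_ (h.q4 x y)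
  refine mm_mono (fun _ _ => le_rfl) (fun x y => ?_) x y
  exact mm_mono (fun _ _ => le_rfl) (fun x y => le_mm_left h.one_le x y) x y

theorem t2 (h : Ker ta P q) (x y : V) : mm (mm P ta) ta x y ≤ q :=
  le_trans (mm_mono (fun _ _ => le_rfl) (fun x y => le_mm_left h.one_le x y) x y) (h.t3 x y)

/-- `sum_z ta(x,z) g(z) ≤ g(x) + sum_z (P ta)(x,z) g(z)` -/
theorem split (h : Ker ta P q) (g : V → ℝ≥0∞) (x : V) :
    ∑' z, ta x z * g z ≤ g x + ∑' z, mm P ta x z * g z := by
  classical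
  calc ∑' z, ta x z * g z ≤ ∑' z, ((if z = x then g x else 0) + mm P ta x z * g z) := by
        refine ENNReal.tsum_le_tsum fun z => ?_
        by_cases hz : z = x
        · subst hz
          rw [if_pos rfl, h.one z, one_mul]
          exact le_self_add
        · rw [if_neg hz, zero_add]
          exact mul_le_mul' (h.step x z (Ne.symm hz)) le_rfl
    _ = g x + ∑' z, mm P ta x z * g z := by
        rw [ENNReal.tsum_add, tsum_ite_eq]

/-- the bubble -/
theorem bub (h : Ker ta P q) (x y : V) : mm ta ta x y ≤ 1 + q := by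
  refine (h.split (fun z => ta z y) x).trans ?_
  exact add_le_add (h.le_one x y) (h.t2 x y)

/-- the triangle -/
theorem tri (h : Ker ta P q) (x y : V) : ch3 ta ta ta x y ≤ 1 + 2 * q := by
  refine (h.split (fun z => mm ta ta z y) x).trans ?_
  calc mm ta ta x y + ∑' z, mm P ta x z * mm ta ta z y ≤ (1 + q) + q :=
        add_le_add (h.bub x y) (h.t3 x y)
    _ = 1 + 2 * q := by ring

/-- a weight vanishing on the diagonal -/
theorem wt_le (h : Ker ta P q) {f : V → V → ℝ≥0∞} (hf : ∀ x, f x x = 0) (x y : V) :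
    wt f ta x y ≤ wt f (mm P ta) x y := by
  by_cases hxy : x = y
  · subst hxy
    simp [wt, hf]
  · exact mul_le_mul' le_rfl (h.step x y hxy)

end Ker

end IPC
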