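import Pool.Agent.Lib.MP_25e40f_pr.C.EInd
import Pool.Agent.Lib.MP_25e40f_pr.C.Kalg
import Pool.Agent.Lib.MP_25e40f_pr.Defs2

/-!
# MP_25e40f_pr, stream C: final interface of C1+C2, in terms of `G.tK p`, `G.pK p` of Defs2; the two point function is a
kernel in the sense of C/Kalg.lean
-/

set_option autoImplicit false

noncomputable section

open Finset
open scoped Classical

namespace IPC

variable {V : Type} [DecidableEq V] (G : PG V)

/-- the expansion started at a vertex is bounded by the diagrams -/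
theorem ZZ_vertex_le {p : ℝ} (h0 : 0 ≤ p) (hp : p ≤ 1 / 2) (w : V → ENNReal) (n : ℕ) (v : V)
    (A : Set V) : ∑' u, w u * ZZ G p n {v} A u ≤
      ∑' a, A.indicator (fun a => KK (G.tK p) (G.pK p) w n v a) a :=
  CE.ZZ_le G h0 hp w n v A

/-- the same with a finite set `A` -/
theorem ZZ_vertex_le_finset {p : ℝ} (h0 : 0 ≤ p) (hp : p ≤ 1 / 2) (w : V → ENNReal) (n : ℕ) (v : V)
    (A : Finset V) : ∑' u, w u * ZZ G p n {v} (A : Set V) u ≤
      ∑ a ∈ A, KK (G.tK p) (G.pK p) w n v a :=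
  (ZZ_vertex_le G h0 hp w n v A).trans_eq (CE.tsum_indicator_coe A _)

/-- the expansion started at a finite set, the first term -/
theorem ZZ_start_zero_le {p : ℝ} (h0 : 0 ≤ p) (hp : p ≤ 1 / 2) {F : Finset V} (hF : F.Nonempty)
    (u : V) : ZZ G p 0 F Set.univ u ≤ ∑ f₁ ∈ F, ∑ f₂ ∈ F, G.tK p f₁ u * G.tK p f₂ u :=
  CE.ZZs_zero G h0 hp hF u

/-- the expansion started at a finite set, the other terms -/
theorem ZZ_start_le {p : ℝ} (h0 : 0 ≤ p) (hp : p ≤ 1 / 2) (w : V → ENNReal) (n : ℕ)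
    (F : Finset V) : ∑' u, w u * ZZ G p (n + 1) F Set.univ u ≤
      ∑ f₁ ∈ F, ∑ f₂ ∈ F, KS (G.tK p) (G.pK p) w n f₁ f₂ :=
  CE.ZZs_le G h0 hp w n F

/-- one point start set -/
theorem ZZ_point_zero_le {p : ℝ} (h0 : 0 ≤ p) (hp : p ≤ 1 / 2) (x u : V) :
    ZZ G p 0 {x} Set.univ u ≤ G.tK p x u * G.tK p x u := by
  have h := ZZ_start_zero_le G h0 hp (Finset.singleton_nonempty x) u
  rwa [Finset.sum_singleton, Finset.sum_singleton] at h

/-- one point start set -/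
theorem ZZ_point_le {p : ℝ} (h0 : 0 ≤ p) (hp : p ≤ 1 / 2) (w : V → ENNReal) (n : ℕ) (x : V) :
    ∑' u, w u * ZZ G p (n + 1) {x} Set.univ u ≤ KS (G.tK p) (G.pK p) w n x x := by
  have h := ZZ_start_le G h0 hp w n {x}
  rwa [Finset.sum_singleton, Finset.sum_singleton] at h

/-- the step inequality for the kernels -/
theorem tK_step {p : ℝ} (h0 : 0 ≤ p) (hp : p ≤ 1 / 2) {x y : V} (hxy : x ≠ y) :
    G.tK p x y ≤ mm (G.pK p) (G.tK p) x y := by
  have h1 := T.tau_step G h0 hp x y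
  rw [if_neg hxy, zero_add] at h1
  have hnn : ∀ z, 0 ≤ G.tau p z y := fun z => T.tau_nonneg G h0 (by linarith) z y
  calc G.tK p x y ≤ ENNReal.ofReal (∑ z ∈ G.nb x, p * G.tau p z y) := ENNReal.ofReal_le_ofReal h1
    _ = ∑ z ∈ G.nb x, ENNReal.ofReal (p * G.tau p z y) :=
        ENNReal.ofReal_sum_of_nonneg fun z _ => mul_nonneg h0 (hnn z)
    _ = ∑ z ∈ G.nb x, G.pK p x z * G.tK p z y := by
        refine Finset.sum_congr rfl fun z hz => ?_
        rw [ENNReal.ofReal_mul h0, PG.pK, if_pos hz, PG.tK]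
    _ ≤ ∑' z, G.pK p x z * G.tK p z y := ENNReal.sum_le_tsum _
    _ = mm (G.pK p) (G.tK p) x y := rfl

/-- the two point function is a kernel in the sense of C/Kalg.lean -/
theorem ker_graph {p : ℝ} (h0 : 0 ≤ p) (hp : p ≤ 1 / 2) {q : ENNReal}
    (hq : ∀ x y, ch4 (mm (G.pK p) (G.tK p)) (G.tK p) (G.tK p) (G.tK p) x y ≤ q) :
    Ker (G.tK p) (G.pK p) q where
  symm x y := by
    unfold PG.tK
    rw [T.tau_symm]
  one x := by
    unfold PG.tK
    rw [T.tau_self, ENNReal.ofReal_one]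
  le_one x y := by
    unfold PG.tK
    rw [← ENNReal.ofReal_one]
    exact ENNReal.ofReal_le_ofReal (T.tau_le_one G h0 (by linarith) x y)
  step x y hxy := tK_step G h0 hp hxy
  q4 := hq

/-- row sums of `P` -/
theorem pK_row {p : ℝ} (h0 : 0 ≤ p) {Δ : ℕ} (hΔ : G.DegLe Δ) (x : V) :
    ∑' y, G.pK p x y ≤ ENNReal.ofReal (Δ * p) := by
  have h1 : ∑' y, G.pK p x y = ∑ y ∈ G.nb x, G.pK p x y := by
    refine tsum_eq_sum fun y hy => ?_
    rw [PG.pK, if_neg hy]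
  have h2 : ∑ y ∈ G.nb x, G.pK p x y = ∑ y ∈ G.nb x, ENNReal.ofReal p :=
    Finset.sum_congr rfl fun y hy => by rw [PG.pK, if_pos hy]
  rw [h1, h2, Finset.sum_const, nsmul_eq_mul, ENNReal.ofReal_mul (Nat.cast_nonneg Δ),
    ENNReal.ofReal_natCast]
  gcongr
  exact hΔ x

end IPC
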