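import Pool.Agent.Lib.MP_25e40f_pr.C.EPiv
import Pool.Agent.Lib.MP_25e40f_pr.A.Men
import Pool.Agent.Lib.MP_25e40f_pr.A.Att

/-!
# MP_25e40f_pr, stream C: the events of the expansion give four disjoint lines (job EHit, about 110 lines)

`OL_of_conns`: `Occ_of_witness` (A/Occ.lean), `Conn (w ∩ E)` and `w ⊆ E`: `Finset.inter_eq_left`.
`hit_set`: if `z ∈ A` take `a = z`, `∅`, `ω`.  Otherwise `exists_trail` (A/Trl.lean): `ω' ⊆ ω`, `Trail ω' z u`.  If no edge of `ω'` has an endpoint in `A`, then `ω' ⊆ off ω A` and `Conn (off ω A) z u` (`Trail_conn`, `Conn_mono`), so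
`ConnOff ω A z u`: excluded.  So some `a ∈ A` is an endpoint of an edge of `ω'` (`a ∈ VV ω'`): `Trail_split`, `Trail_conn`.
`EP_lines`: `h.1.1` gives `Conn ω v u` (`AllConn` for `F = {v}`), `h.1.2` gives `¬ ConnOff ω A v u`.  `last_piv`: `z, ω₀, ω₁`.  `menger_two` in `ω₁` with `F = {z}`: disjoint `ω₂, ω₃ ⊆ ω₁` with `Conn ω₂ z u`, `Conn ω₃ z u`.
Claim: `z ∈ A` or `ConnOff ω A v z`.  If `z = v`: `v ∈ A`, or `v ∉ A` and `ConnOff ω A v v` (reflexivity).  If `z` is the end of the edge `b = s(y, z)` of `last_piv`: by `EP` (`h.2 y z`, with `y ∈ Cl (ω.erase b) {v}`,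
`u ∉ Cl (ω.erase b) {v}`) `Thru (ω.erase b) A {v} y` is false, and `AllConn (ω.erase b) {v} y` holds, so `ConnOff (ω.erase b) A v y`: `v ∉ A`, `Conn (off (ω.erase b) A) v y`, `y ∉ A` (`T.ConnOff_notMem`).  If `z ∉ A` then `b ∈ off ω A`
(`T.mem_off`), so `ConnOff ω A v z` (`T.off_mono`).
`¬ ConnOff ω₂ A z u`: if `z ∈ A` clear (`ConnOff` contains `z ∉ A`).  If `ConnOff ω A v z`, then `ConnOff ω₂ A z u` would give `ConnOff ω A v u` (`Conn_trans`, `T.off_mono`): excluded.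
`hit_set` for `ω₂`: `a ∈ A`, `ω₄, ω₅ ⊆ ω₂` disjoint, `Conn ω₄ z a`, `Conn ω₅ a u`.  `OL_of_conns` with `W = [ω₀, ω₄, ω₅, ω₃]`.
-/

set_option autoImplicit false

noncomputable section

open Finset
open scoped Classical

namespace IPC.CE

variable {V : Type} [DecidableEq V]

theorem OL_of_conns {L : List (Line V)} {ω : Finset (Sym2 V)} (W : List (Finset (Sym2 V)))
    (hW : List.Forall₂ (fun l w => w ⊆ l.1 ∧ Conn w l.2.1 l.2.2) L W)
    (hd : W.Pairwise Disjoint) (hs : ∀ w ∈ W, w ⊆ ω) : OL L ω := by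
  refine Occ_of_witness _ ω W ?_ hs hd ?_
  · rw [List.length_map]; exact hW.length_eq.symm
  · rw [List.forall₂_map_left_iff]
    refine hW.imp fun l w h => ?_
    change Conn (w ∩ l.1) l.2.1 l.2.2
    rw [Finset.inter_eq_left.2 h.1]; exact h.2

/-- a connection which cannot avoid `A` can be cut at a vertex of `A` -/
theorem hit_set {ω : Finset (Sym2 V)} {A : Set V} {z u : V} (h : Conn ω z u)
    (hA : ¬ ConnOff ω A z u) :
    ∃ a ∈ A, ∃ ω₁ ω₂ : Finset (Sym2 V), Disjoint ω₁ ω₂ ∧ ω₁ ⊆ ω ∧ ω₂ ⊆ ω ∧ Conn ω₁ z a ∧ Conn ω₂ a u := by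
  by_cases hz : z ∈ A
  · exact ⟨z, hz, ∅, ω, Finset.disjoint_empty_left _, Finset.empty_subset _,
      Finset.Subset.refl _, Conn_refl _ _, h⟩
  obtain ⟨ω', hs, ht⟩ := exists_trail h
  by_cases hex : ∃ a ∈ A, a ∈ VV ω'
  · obtain ⟨a, ha, hav⟩ := hex
    obtain ⟨ω₁, ω₂, hd, hu, h1, h2⟩ := Trail_split ht (Or.inr (Or.inr hav))
    refine ⟨a, ha, ω₁, ω₂, hd, ?_, ?_, Trail_conn h1, Trail_conn h2⟩
    · refine Finset.Subset.trans ?_ hs
      rw [← hu]; exact Finset.subset_union_left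
    · refine Finset.Subset.trans ?_ hs
      rw [← hu]; exact Finset.subset_union_right
  · exfalso
    apply hA
    refine ⟨hz, Conn_mono ?_ (Trail_conn ht)⟩
    intro e he
    unfold off
    rw [Finset.mem_filter]
    refine ⟨hs he, fun a ha haA => hex ⟨a, haA, ?_⟩⟩
    rw [mem_VV]
    obtain ⟨b, rfl⟩ := Sym2.mem_iff_exists.1 ha
    exact ⟨b, he⟩

/-- four disjoint lines `v → z → a → u` and `z → u` with `a ∈ A` -/
theorem EP_lines {E ω : Finset (Sym2 V)} (hE : ω ⊆ E) {A : Set V} {v u : V} (h : EP ω A {v} u) :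
    ∃ z, ∃ a ∈ A, OL [(E, v, z), (E, z, a), (E, a, u), (E, z, u)] ω := by
  have hc : Conn ω v u := h.1.1 v (Finset.mem_singleton_self v)
  have hn : ¬ ConnOff ω A v u := h.1.2 v (Finset.mem_singleton_self v)
  obtain ⟨z, ω₀, ω₁, hs0, hs1, hd01, hc0, hc1, hnp, hz⟩ := last_piv hc
  obtain ⟨ω₂, ω₃, hs2, hs3, hd23, ⟨f2, hf2, hc2⟩, ⟨f3, hf3, hc3⟩⟩ :=
    menger_two ω₁ {z} u ⟨z, Finset.mem_singleton_self z, hc1⟩
      (fun e he => ⟨z, Finset.mem_singleton_self z, hnp e he⟩)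
  rw [Finset.mem_singleton] at hf2 hf3
  rw [hf2] at hc2
  rw [hf3] at hc3
  have claim : z ∈ A ∨ ConnOff ω A v z := by
    by_cases hzA : z ∈ A
    · exact Or.inl hzA
    right
    rcases hz with hzv | ⟨y, hyω, hvy, hnvu⟩
    · rw [hzv] at hzA ⊢
      exact ⟨hzA, Conn_refl _ _⟩
    · have h1 : ¬ Thru (ω.erase s(y, z)) A {v} y := by
        refine h.2 y z hyω ⟨v, Finset.mem_singleton_self v, hvy⟩ ?_
        rintro ⟨f, hf, hcf⟩
        rw [Finset.mem_singleton] at hf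
        rw [hf] at hcf
        exact hnvu hcf
      have h2 : ConnOff (ω.erase s(y, z)) A v y := by
        by_contra hno
        refine h1 ⟨fun f hf => ?_, fun f hf => ?_⟩
        · rw [Finset.mem_singleton.1 hf]; exact hvy
        · rw [Finset.mem_singleton.1 hf]; exact hno
      refine ⟨h2.1, Conn_trans
        (Conn_mono (T.off_mono (Finset.erase_subset _ _) (Set.Subset.refl A)) h2.2)
        (Conn_edge (T.mem_off.2 ⟨hyω, (T.ConnOff_notMem h2).2, hzA⟩))⟩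
  have hno2 : ¬ ConnOff ω₂ A z u := by
    intro hco
    rcases claim with hzA | hcz
    · exact hco.1 hzA
    · exact hn ⟨hcz.1, Conn_trans hcz.2
        (Conn_mono (T.off_mono (hs2.trans hs1) (Set.Subset.refl A)) hco.2)⟩
  obtain ⟨a, ha, ω₄, ω₅, hd45, hs4, hs5, hc4, hc5⟩ := hit_set hc2 hno2
  have hd04 : Disjoint ω₀ ω₄ := Finset.disjoint_of_subset_right (hs4.trans hs2) hd01
  have hd05 : Disjoint ω₀ ω₅ := Finset.disjoint_of_subset_right (hs5.trans hs2) hd01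
  have hd03 : Disjoint ω₀ ω₃ := Finset.disjoint_of_subset_right hs3 hd01
  have hd43 : Disjoint ω₄ ω₃ := Finset.disjoint_of_subset_left hs4 hd23
  have hd53 : Disjoint ω₅ ω₃ := Finset.disjoint_of_subset_left hs5 hd23
  have e4 : ω₄ ⊆ ω := (hs4.trans hs2).trans hs1
  have e5 : ω₅ ⊆ ω := (hs5.trans hs2).trans hs1
  have e3 : ω₃ ⊆ ω := hs3.trans hs1
  refine ⟨z, a, ha, OL_of_conns [ω₀, ω₄, ω₅, ω₃] ?_ ?_ ?_⟩
  · exact List.Forall₂.cons ⟨hs0.trans hE, hc0⟩ (List.Forall₂.cons ⟨e4.trans hE, hc4⟩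
      (List.Forall₂.cons ⟨e5.trans hE, hc5⟩ (List.Forall₂.cons ⟨e3.trans hE, hc3⟩
        List.Forall₂.nil)))
  · simp only [List.pairwise_cons, List.mem_cons, List.not_mem_nil, or_false, forall_eq_or_imp,
      forall_eq, false_imp_iff, implies_true, List.Pairwise.nil, and_true]
    exact ⟨⟨hd04, hd05, hd03⟩, ⟨hd45, hd43⟩, hd53⟩
  · intro w hw
    simp only [List.mem_cons, List.not_mem_nil, or_false] at hw
    rcases hw with rfl | rfl | rfl | rfl
    · exact hs0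
    · exact e4
    · exact e5
    · exact e3

end IPC.CE
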