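import Pool.Agent.Lib.MP_25e40f_pr.C.EDef

/-!
# MP_25e40f_pr, stream C: rearrangement of the sums of the expansion (job EZr, about 70 lines)

All sums in `ENNReal` can be exchanged (`ENNReal.tsum_comm`, `ENNReal.tsum_mul_left`, `ENNReal.tsum_mul_right`).
`ZZ_rec`: `ZZ_succ`; move `w u *` inside (`ENNReal.tsum_mul_left`, `mul_ite`, `mul_zero`), exchange `∑' u` with `∑' x`, `∑' x2`; `∑' u, if c then f u else 0 = if c then ∑' u, f u else 0` (`split_ifs`, `tsum_zero`), exchange `∑' u` and `∑' S`,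
`mul_left_comm`.
`ZZ_step`: `ZZ_rec`, then monotonicity (`ENNReal.tsum_le_tsum`, `mul_le_mul_left'`) with `hK`; then `∑' S, c S * ∑' a2, (S : Set V).indicator (K x2) a2 = ∑' a2, (∑' S, if a2 ∈ S then c S else 0) * K x2 a2`: exchange the sums,
`(S : Set V).indicator f a2 = if a2 ∈ S then f a2 else 0` (`Set.indicator_apply`, `Finset.mem_coe`).
`tsum_indicator_coe`: `tsum_eq_sum` (the terms outside `S` vanish), or `Finset.tsum_subtype'`.
-/

set_option autoImplicit false

noncomputable section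

open Finset
open scoped Classical

namespace IPC.CE

variable {V : Type} [DecidableEq V]

theorem tsum_indicator_coe (S : Finset V) (f : V → ENNReal) :
    ∑' a, (S : Set V).indicator f a = ∑ a ∈ S, f a := by
  rw [tsum_eq_sum (s := S) (fun a ha => Set.indicator_of_notMem (fun h => ha (Finset.mem_coe.1 h)) f)]
  exact Finset.sum_congr rfl (fun a ha => Set.indicator_of_mem (Finset.mem_coe.2 ha) f)

variable (G : PG V)

theorem ZZ_rec (p : ℝ) (n : ℕ) (F : Finset V) (A : Set V) (w : V → ENNReal) :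
    ∑' u, w u * ZZ G p (n + 1) F A u = ∑' x, ∑' x2, if x2 ∈ G.nb x then
      ∑' S : Finset V, ENNReal.ofReal (G.cc p F A (x, x2) S) *
        ∑' u, w u * ZZ G p n {x2} (S : Set V) u else 0 := by
  have h1 : ∀ u, w u * ZZ G p (n + 1) F A u = ∑' x, ∑' x2, if x2 ∈ G.nb x then
      ∑' S : Finset V, ENNReal.ofReal (G.cc p F A (x, x2) S) * (w u * ZZ G p n {x2} (S : Set V) u) else 0 := by
    intro u
    rw [ZZ_succ, ← ENNReal.tsum_mul_left]
    refine tsum_congr (fun x => ?_)
    rw [← ENNReal.tsum_mul_left]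
    refine tsum_congr (fun x2 => ?_)
    rw [mul_ite, mul_zero]
    split_ifs
    · rw [← ENNReal.tsum_mul_left]
      refine tsum_congr (fun S => ?_)
      rw [mul_left_comm]
    · rfl
  rw [tsum_congr h1, ENNReal.tsum_comm]
  refine tsum_congr (fun x => ?_)
  rw [ENNReal.tsum_comm]
  refine tsum_congr (fun x2 => ?_)
  split_ifs
  · rw [ENNReal.tsum_comm]
    refine tsum_congr (fun S => ?_)
    rw [ENNReal.tsum_mul_left]
  · exact tsum_zero

theorem ZZ_step (p : ℝ) (n : ℕ) (F : Finset V) (A : Set V) (w : V → ENNReal)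
    (K : V → V → ENNReal)
    (hK : ∀ (x2 : V) (S : Finset V), ∑' u, w u * ZZ G p n {x2} (S : Set V) u ≤
      ∑' a2, (S : Set V).indicator (K x2) a2) :
    ∑' u, w u * ZZ G p (n + 1) F A u ≤ ∑' x, ∑' x2, if x2 ∈ G.nb x then
      ∑' a2, (∑' S : Finset V, if a2 ∈ S then ENNReal.ofReal (G.cc p F A (x, x2) S) else 0) *
        K x2 a2 else 0 := by
  rw [ZZ_rec]
  refine ENNReal.tsum_le_tsum (fun x => ENNReal.tsum_le_tsum (fun x2 => ?_))
  split_ifs
  · have h1 : ∑' S : Finset V, ENNReal.ofReal (G.cc p F A (x, x2) S) * ∑' u, w u * ZZ G p n {x2} (S : Set V) u ≤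
        ∑' S : Finset V, ENNReal.ofReal (G.cc p F A (x, x2) S) * ∑' a2, (S : Set V).indicator (K x2) a2 := by
      exact ENNReal.tsum_le_tsum (fun S => mul_le_mul' le_rfl (hK x2 S))
    refine h1.trans (le_of_eq ?_)
    have h2 : ∀ S : Finset V, ENNReal.ofReal (G.cc p F A (x, x2) S) * ∑' a2, (S : Set V).indicator (K x2) a2 =
        ∑' a2, (if a2 ∈ S then ENNReal.ofReal (G.cc p F A (x, x2) S) else 0) * K x2 a2 := by
      intro S
      rw [← ENNReal.tsum_mul_left]
      refine tsum_congr (fun a2 => ?_)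
      by_cases ha : a2 ∈ S
      · rw [Set.indicator_of_mem (Finset.mem_coe.2 ha), if_pos ha]
      · rw [Set.indicator_of_notMem (fun h => ha (Finset.mem_coe.1 h)), if_neg ha, mul_zero, zero_mul]
    rw [tsum_congr h2, ENNReal.tsum_comm]
    refine tsum_congr (fun a2 => ?_)
    rw [ENNReal.tsum_mul_right]
  · exact le_rfl

end IPC.CE
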