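import Pool.Agent.Lib.MP_25e40f_pr.C.EFab
import Pool.Agent.Lib.MP_25e40f_pr.C.EZr

/-!
# MP_25e40f_pr, stream C: the expansion is bounded by the diagrams (job EInd, about 120 lines)

All sums in `ENNReal` can be exchanged (`ENNReal.tsum_comm`, `ENNReal.tsum_mul_left`, `ENNReal.tsum_mul_right`).
`ZZ_le`: induction on `n` (for all `v`, `A`).  `n = 0`: `∑' u, w u * ∑' S .. ≤ ∑' u, w u * ∑' a, A.indicator ..` (`ZZ_zero`, `tsum_ec_le`), exchange the sums; `A.indicator` commutes with sums and products (`Set.indicator_apply`, `split_ifs`);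
`KK_zero`.
Step: `ZZ_step` with `K = KK (tK G p) (pK G p) w n` (the hypothesis is the induction hypothesis for `A = (S : Set V)`), then `tsum_cc_le`, and `if x2 ∈ nb x then ofReal p * .. else 0` is `pK G p x x2 * ..`; exchange the sums to get the
order of `KK_succ` (`∑' z, ∑' t, ∑' u, ∑' a2, ∑' v2`; here `u = x`, `v2 = x2`).
`ZZs_zero`: `ZZ_zero` and `tsum_ecs_le`.
`ZZs_le`: `ZZ_step` with `tsum_ccs_le` and `ZZ_le` for the hypothesis; the finite sums over `f₁, f₂` are moved outside (`Finset.mul_sum`, `Finset.sum_mul`, `Summable.tsum_finsetSum` with `ENNReal.summable`); the result is bounded by the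
first of the two products in `KS` (`le_self_add`, `add_mul`).
-/

set_option autoImplicit false

noncomputable section

open Finset
open scoped Classical

namespace IPC.CE

variable {V : Type} [DecidableEq V]

private theorem EInd_pull {α β γ δ : Type} (F : α → β → γ → δ → ENNReal) :
    ∑' x, ∑' y, ∑' z, ∑' w, F x y z w = ∑' w, ∑' x, ∑' y, ∑' z, F x y z w := by
  have h1 : ∀ x y, ∑' z, ∑' w, F x y z w = ∑' w, ∑' z, F x y z w := fun x y => ENNReal.tsum_comm
  have h2 : ∀ x, ∑' y, ∑' w, ∑' z, F x y z w = ∑' w, ∑' y, ∑' z, F x y z w := fun x => ENNReal.tsum_comm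
  simp only [h1, h2]
  exact ENNReal.tsum_comm

private theorem EInd_fin {α β : Type} (F : Finset β) (g : α → β → ENNReal) :
    ∑' x, ∑ f ∈ F, g x f = ∑ f ∈ F, ∑' x, g x f :=
  Summable.tsum_finsetSum (fun _ _ => ENNReal.summable)

omit [DecidableEq V] in
private theorem EInd_tsum_ind {α : Type} (A : Set V) (f : α → V → ENNReal) (a : V) :
    ∑' x, A.indicator (f x) a = A.indicator (fun a => ∑' x, f x a) a := by
  by_cases ha : a ∈ A
  · simp only [Set.indicator_of_mem ha]
  · simp only [Set.indicator_of_notMem ha, tsum_zero]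

variable (G : PG V)

/-- the expansion started at a vertex is bounded by the diagrams -/
theorem ZZ_le {p : ℝ} (h0 : 0 ≤ p) (hp : p ≤ 1 / 2)
    (w : V → ENNReal) (n : ℕ) (v : V) (A : Set V) :
    ∑' u, w u * ZZ G p n {v} A u ≤
      ∑' a, A.indicator (fun a => KK (tK G p) (pK G p) w n v a) a := by
  induction n generalizing v A with
  | zero =>
    have h1 : ∑' u, w u * ZZ G p 0 {v} A u ≤ ∑' u, w u * ∑' a, A.indicator
        (fun a => ∑' z, tK G p v z * tK G p z a * tK G p a u * tK G p z u) a := by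
      refine ENNReal.tsum_le_tsum (fun u => ?_)
      gcongr
      rw [ZZ_zero]
      exact tsum_ec_le G h0 hp v u A
    refine h1.trans (le_of_eq ?_)
    have h2 : ∀ u, w u * ∑' a, A.indicator
        (fun a => ∑' z, tK G p v z * tK G p z a * tK G p a u * tK G p z u) a =
        ∑' a, A.indicator (fun a => ∑' z, tK G p v z * tK G p z a * tK G p a u * tK G p z u * w u) a := by
      intro u
      rw [← ENNReal.tsum_mul_left]
      refine tsum_congr (fun a => ?_)
      by_cases ha : a ∈ A
      · rw [Set.indicator_of_mem ha, Set.indicator_of_mem ha, ENNReal.tsum_mul_right, mul_comm]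
      · rw [Set.indicator_of_notMem ha, Set.indicator_of_notMem ha, mul_zero]
    rw [tsum_congr h2, ENNReal.tsum_comm]
    refine tsum_congr (fun a => ?_)
    rw [EInd_tsum_ind]
    by_cases ha : a ∈ A
    · rw [Set.indicator_of_mem ha, Set.indicator_of_mem ha, KK_zero, ENNReal.tsum_comm]
    · rw [Set.indicator_of_notMem ha, Set.indicator_of_notMem ha]
  | succ n ih =>
    refine (ZZ_step G p n {v} A w (KK (tK G p) (pK G p) w n) (fun x2 S => ih x2 (S : Set V))).trans ?_
    have h1 : ∀ x x2, (if x2 ∈ G.nb x then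
        ∑' a2, (∑' S : Finset V, if a2 ∈ S then ENNReal.ofReal (G.cc p {v} A (x, x2) S) else 0) *
          KK (tK G p) (pK G p) w n x2 a2 else 0) ≤
        ∑' a2, ∑' a, A.indicator (fun a => ∑' z, ∑' t, diag (tK G p) v a z t x a2 * pK G p x x2 *
          KK (tK G p) (pK G p) w n x2 a2) a := by
      intro x x2
      by_cases h : x2 ∈ G.nb x
      · rw [if_pos h]
        refine ENNReal.tsum_le_tsum (fun a2 => ?_)
        have h3 : pK G p x x2 = ENNReal.ofReal p := if_pos h
        have h2 : (∑' S : Finset V, if a2 ∈ S then ENNReal.ofReal (G.cc p {v} A (x, x2) S) else 0) *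
            KK (tK G p) (pK G p) w n x2 a2 ≤ (ENNReal.ofReal p *
            ∑' a, A.indicator (fun a => ∑' z, ∑' t, diag (tK G p) v a z t x a2) a) *
            KK (tK G p) (pK G p) w n x2 a2 := by
          gcongr
          exact tsum_cc_le G h0 hp v A (x, x2) a2
        refine h2.trans (le_of_eq ?_)
        rw [← ENNReal.tsum_mul_left, ← ENNReal.tsum_mul_right]
        refine tsum_congr (fun a => ?_)
        by_cases ha : a ∈ A
        · rw [Set.indicator_of_mem ha, Set.indicator_of_mem ha, h3, ← ENNReal.tsum_mul_left,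
            ← ENNReal.tsum_mul_right]
          refine tsum_congr (fun z => ?_)
          rw [← ENNReal.tsum_mul_left, ← ENNReal.tsum_mul_right]
          refine tsum_congr (fun t => ?_)
          rw [mul_comm (ENNReal.ofReal p)]
        · rw [Set.indicator_of_notMem ha, Set.indicator_of_notMem ha, mul_zero, zero_mul]
      · rw [if_neg h]
        exact zero_le
    refine (ENNReal.tsum_le_tsum (fun x => ENNReal.tsum_le_tsum (fun x2 => h1 x x2))).trans (le_of_eq ?_)
    rw [EInd_pull]
    refine tsum_congr (fun a => ?_)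
    simp only [EInd_tsum_ind]
    by_cases ha : a ∈ A
    · rw [Set.indicator_of_mem ha, Set.indicator_of_mem ha, KK_succ, EInd_pull]
      refine tsum_congr (fun z => ?_)
      rw [EInd_pull]
      refine tsum_congr (fun t => tsum_congr (fun x => ?_))
      exact ENNReal.tsum_comm
    · rw [Set.indicator_of_notMem ha, Set.indicator_of_notMem ha]

/-- the expansion started at a finite set, the first term -/
theorem ZZs_zero {p : ℝ} (h0 : 0 ≤ p) (hp : p ≤ 1 / 2) {F : Finset V}
    (hF : F.Nonempty) (u : V) :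
    ZZ G p 0 F Set.univ u ≤ ∑ f₁ ∈ F, ∑ f₂ ∈ F, tK G p f₁ u * tK G p f₂ u := by
  rw [ZZ_zero]
  exact tsum_ecs_le G h0 hp hF u

/-- the expansion started at a finite set, the other terms -/
theorem ZZs_le {p : ℝ} (h0 : 0 ≤ p) (hp : p ≤ 1 / 2)
    (w : V → ENNReal) (n : ℕ) (F : Finset V) :
    ∑' u, w u * ZZ G p (n + 1) F Set.univ u ≤
      ∑ f₁ ∈ F, ∑ f₂ ∈ F, KS (tK G p) (pK G p) w n f₁ f₂ := by
  refine (ZZ_step G p n F Set.univ w (KK (tK G p) (pK G p) w n)
    (fun x2 S => ZZ_le G h0 hp w n x2 (S : Set V))).trans ?_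
  have h1 : ∀ x x2, (if x2 ∈ G.nb x then
      ∑' a2, (∑' S : Finset V, if a2 ∈ S then ENNReal.ofReal (G.cc p F Set.univ (x, x2) S) else 0) *
        KK (tK G p) (pK G p) w n x2 a2 else 0) ≤
      ∑' a2, ∑ f₁ ∈ F, ∑ f₂ ∈ F, ∑' t, (tK G p f₁ t * tK G p t x * tK G p f₂ x + tK G p f₁ x * tK G p f₂ t *
        tK G p t x) * tK G p t a2 * pK G p x x2 * KK (tK G p) (pK G p) w n x2 a2 := by
    intro x x2
    by_cases h : x2 ∈ G.nb x
    · rw [if_pos h]
      refine ENNReal.tsum_le_tsum (fun a2 => ?_)
      have h3 : pK G p x x2 = ENNReal.ofReal p := if_pos h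
      have h2 : (∑' S : Finset V, if a2 ∈ S then ENNReal.ofReal (G.cc p F Set.univ (x, x2) S) else 0) *
          KK (tK G p) (pK G p) w n x2 a2 ≤ (ENNReal.ofReal p * ∑ f₁ ∈ F, ∑ f₂ ∈ F, ∑' t,
            tK G p f₁ t * tK G p t x * tK G p f₂ x * tK G p t a2) *
          KK (tK G p) (pK G p) w n x2 a2 := by
        gcongr
        exact tsum_ccs_le G h0 hp F (x, x2) a2
      refine h2.trans ?_
      rw [Finset.mul_sum, Finset.sum_mul]
      refine Finset.sum_le_sum (fun f₁ _ => ?_)
      rw [Finset.mul_sum, Finset.sum_mul]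
      refine Finset.sum_le_sum (fun f₂ _ => ?_)
      rw [← ENNReal.tsum_mul_left, ← ENNReal.tsum_mul_right, h3]
      refine ENNReal.tsum_le_tsum (fun t => ?_)
      rw [mul_comm (ENNReal.ofReal p)]
      gcongr
      exact le_self_add
    · rw [if_neg h]
      exact zero_le
  refine (ENNReal.tsum_le_tsum (fun x => ENNReal.tsum_le_tsum (fun x2 => h1 x x2))).trans (le_of_eq ?_)
  simp only [EInd_fin]
  refine Finset.sum_congr rfl (fun f₁ _ => Finset.sum_congr rfl (fun f₂ _ => ?_))
  rw [EInd_pull]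
  unfold KS
  refine tsum_congr (fun t => tsum_congr (fun x => ?_))
  exact ENNReal.tsum_comm

end IPC.CE
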