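import Pool.Agent.Lib.MP_25e40f_pr.C.EDef
import Pool.Agent.Lib.MP_25e40f_pr.B.Lok2
import Pool.Agent.Lib.MP_25e40f_pr.T.Ein

/-!
# MP_25e40f_pr, stream C: locality of the events of the coefficients (part of job EFam, 15 lines)

`EPCl_local`, `EPec_local` (B/Lok2) for `ω` and `ω' = ω ∩ G.touch S`: an edge `e = s(a, b)` of `ω ⊆ ein D` with an endpoint in `S` is in `touch S` (`T.mem_ein`, `T.mem_touch`, `Sym2.ind`).
-/

set_option autoImplicit false

noncomputable section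

open Finset
open scoped Classical

namespace IPC.CE

variable {V : Type} [DecidableEq V]

private theorem ELoc_edge (G : PG V) (D S : Finset V) {ω : Finset (Sym2 V)}
    (hω : ω ⊆ G.ein D) : ∀ e : Sym2 V, (∃ a ∈ e, a ∈ (S : Set V)) →
      (e ∈ ω ↔ e ∈ ω ∩ G.touch S) := by
  intro e
  induction e using Sym2.ind with
  | _ a b =>
    rintro ⟨c, hc, hcS⟩
    rw [Finset.mem_inter]
    refine ⟨fun h => ⟨h, ?_⟩, fun h => h.1⟩
    rw [T.mem_touch]
    have h1 := hω h
    rw [T.mem_ein] at h1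
    refine ⟨h1.1, ?_⟩
    rw [Sym2.mem_iff] at hc
    rcases hc with rfl | rfl
    · exact Or.inl hcS
    · exact Or.inr hcS

theorem loc_cc (G : PG V) (D S F : Finset V) (A : Set V) (u u' : V) {ω : Finset (Sym2 V)}
    (hω : ω ⊆ G.ein D) : (EP ω A F u ∧ Cl (ω.erase s(u, u')) F = (S : Set V)) ↔
      (EP (ω ∩ G.touch S) A F u ∧ Cl ((ω ∩ G.touch S).erase s(u, u')) F = (S : Set V)) :=
  EPCl_local (S : Set V) (ELoc_edge G D S hω)

theorem loc_ec (G : PG V) (D S F : Finset V) (A : Set V) (u : V) {ω : Finset (Sym2 V)}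
    (hω : ω ⊆ G.ein D) : (EP ω A F u ∧ Cl ω F = (S : Set V)) ↔
      (EP (ω ∩ G.touch S) A F u ∧ Cl (ω ∩ G.touch S) F = (S : Set V)) :=
  EPec_local (S : Set V) (ELoc_edge G D S hω)

end IPC.CE
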