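import Pool.Agent.Lib.MP_25e40f_pr.T.Off

/-!
# MP_25e40f_pr, stream C: the last pivotal edge (job EPiv, about 120 lines)

Read A/Cnn.lean (`Conn_refl`, `Conn_symm`, `Conn_trans`, `Conn_mono`, `Conn_edge`, `Conn_insert`, `Conn_closed`, `Conn_off_of_disjoint`, `Conn_exit_edge`) and T/Off.lean (`T.Cl_finite`, `T.mem_off`).
A pair `(y, z)` is called pivotal if `s(y, z) ∈ ω`, `Conn (ω.erase s(y, z)) v y` and `¬ Conn (ω.erase s(y, z)) v u`.
Deletion: for `e = s(a, b) ∈ ω`, `ω = insert e (ω.erase e)`, so by `Conn_insert` and `Conn ω v u`: `Conn (ω.erase e) v u`, or `Conn (ω.erase e) v a ∧ Conn (ω.erase e) b u`, or `Conn (ω.erase e) v b ∧ Conn (ω.erase e) a u`.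
Case 1: there is no pivotal pair.  Take `z = v`, `ω₀ = ∅`, `ω₁ = ω`: for `e = s(a, b) ∈ ω` (`Sym2.ind`) suppose `¬ Conn (ω.erase e) v u`; by deletion `Conn (ω.erase e) v a` or `Conn (ω.erase e) v b`, so `(a, b)` or `(b, a)` is pivotal
(`Sym2.eq_swap`).
Case 2: choose a pivotal pair `(y, z)` such that the number of vertices (`Set.ncard`) of the cluster `{x | Conn (ω.erase s(y, z)) v x}` (it is `Cl (ω.erase s(y, z)) {v}`, finite by `T.Cl_finite`) is maximal: the pivotal pairs are a subset of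
`VV ω ×ˢ VV ω` (`mem_VV`), `Finset.exists_max_image`.  Let `b = s(y, z)`, `S = {x | Conn (ω.erase b) v x}`: `y ∈ S`, `u ∉ S`, both `S` and its complement are closed under the edges of `ω.erase b`.
Deletion for `b`: (1) impossible; (3) `Conn _ v z ∧ Conn _ y u`: impossible because `y ∈ S` gives `u ∈ S`; so (2): `Conn (ω.erase b) z u`, hence `z ∉ S`.
`ω₀ = insert b ((ω.erase b).filter (fun e => ∀ a ∈ e, a ∈ S))`, `ω₁ = off (ω.erase b) S`.  They are disjoint (`b ∉ ω.erase b`; an edge has an endpoint, `Sym2.ind`).  `Conn ω₀ v z`: `v → y` inside `S` (a connection from `v ∈ S` in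
`ω.erase b` stays in `S`: induction, auxiliary lemma `Piv_inside`: if `x ∈ S` and `S` is closed under `ω'` then `Conn ω' x y` implies `Conn (ω'.filter (inside S)) x y`), then `b`.  `Conn ω₁ z u`: the same with `Sᶜ`.
Let `e = s(a, a') ∈ ω₁` and suppose `¬ Conn (ω₁.erase e) z u`.  (i) `ω₀ ⊆ ω.erase e` (`e` has no endpoint in `S`, and `e ≠ b` as `y ∈ S`), so `Conn (ω.erase e) v x` for all `x ∈ S` (again inside `S`) and for `x = z`.
(ii) `¬ Conn (ω.erase e) v u`: otherwise deletion of `b` in `ω.erase e` gives: `Conn ((ω.erase e).erase b) v u`, impossible (`⊆ ω.erase b`, `u ∉ S`); or `Conn ((ω.erase e).erase b) z u`, and since `z ∉ S` and `Sᶜ` is closed this is a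
connection in `ω₁.erase e`, impossible; or `Conn ((ω.erase e).erase b) v z`, impossible since `z ∉ S`.
(iii) deletion of `e` in `ω`: `Conn (ω.erase e) v a` or `Conn (ω.erase e) v a'`: `(a, a')` or `(a', a)` is pivotal.  (iv) its cluster contains `S ∪ {z}`, so it has more vertices than `S` (`Set.ncard_lt_ncard`): contradiction.
-/

set_option autoImplicit false

noncomputable section

open Finset
open scoped Classical

namespace IPC.CE

variable {V : Type} [DecidableEq V]

/-- deletion of an edge -/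
private theorem EPiv_del {ω : Finset (Sym2 V)} {a b x y : V} (h : Conn ω x y) (he : s(a, b) ∈ ω) :
    Conn (ω.erase s(a, b)) x y ∨ (Conn (ω.erase s(a, b)) x a ∧ Conn (ω.erase s(a, b)) b y) ∨
      (Conn (ω.erase s(a, b)) x b ∧ Conn (ω.erase s(a, b)) a y) := by
  have h1 : Conn (insert s(a, b) (ω.erase s(a, b))) x y := by
    rw [Finset.insert_erase he]
    exact h
  exact Conn_insert h1

private theorem EPiv_inside {ω : Finset (Sym2 V)} {x y : V} (S : Set V) (hx : x ∈ S)
    (hS : ∀ a b, s(a, b) ∈ ω → a ∈ S → b ∈ S) (h : Conn ω x y) :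
    Conn (ω.filter fun e => ∀ a ∈ e, a ∈ S) x y := by
  have key : y ∈ S ∧ Conn (ω.filter fun e => ∀ a ∈ e, a ∈ S) x y := by
    unfold Conn at h
    induction h with
    | refl => exact ⟨hx, Conn_refl _ _⟩
    | @tail b c _ hbc ih =>
      have hc : c ∈ S := hS b c hbc ih.1
      refine ⟨hc, Relation.ReflTransGen.tail ih.2 ?_⟩
      rw [Finset.mem_filter]
      refine ⟨hbc, fun d hd => ?_⟩
      rcases Sym2.mem_iff.1 hd with rfl | rfl
      · exact ih.1
      · exact hc
  exact key.2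

private theorem EPiv_outside {ω : Finset (Sym2 V)} {x y : V} (S : Set V) (hx : x ∉ S)
    (hS : ∀ a b, s(a, b) ∈ ω → b ∈ S → a ∈ S) (h : Conn ω x y) : Conn (off ω S) x y := by
  have h1 := EPiv_inside (ω := ω) Sᶜ hx (fun a b hab ha hb => ha (hS a b hab hb)) h
  exact h1

private theorem EPiv_fin (ω : Finset (Sym2 V)) (v : V) : {x | Conn ω v x}.Finite := by
  refine Set.Finite.subset (Finset.finite_toSet (insert v (VV ω))) fun x hx => ?_
  rw [Finset.mem_coe, Finset.mem_insert]
  by_cases hxv : x = v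
  · exact Or.inl hxv
  · exact Or.inr (Conn_mem_VV hx (Ne.symm hxv)).2

/-- the last pivotal edge for a connection `v → u`: `ω₀` goes from `v` through this edge, `ω₁` joins its end `z` to
`u` without pivotal edges -/
theorem last_piv {ω : Finset (Sym2 V)} {v u : V} (h : Conn ω v u) :
    ∃ z, ∃ ω₀ ω₁ : Finset (Sym2 V), ω₀ ⊆ ω ∧ ω₁ ⊆ ω ∧ Disjoint ω₀ ω₁ ∧ Conn ω₀ v z ∧ Conn ω₁ z u ∧
      (∀ e ∈ ω₁, Conn (ω₁.erase e) z u) ∧
      (z = v ∨ ∃ y, s(y, z) ∈ ω ∧ Conn (ω.erase s(y, z)) v y ∧ ¬ Conn (ω.erase s(y, z)) v u) := by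
  let P : Finset (V × V) := (VV ω ×ˢ VV ω).filter fun q => s(q.1, q.2) ∈ ω ∧
    Conn (ω.erase s(q.1, q.2)) v q.1 ∧ ¬ Conn (ω.erase s(q.1, q.2)) v u
  have hmemP : ∀ a b, s(a, b) ∈ ω → Conn (ω.erase s(a, b)) v a → ¬ Conn (ω.erase s(a, b)) v u →
      (a, b) ∈ P := by
    intro a b h1 h2 h3
    refine Finset.mem_filter.2 ⟨Finset.mem_product.2 ⟨(mem_VV ω a).2 ⟨b, h1⟩,
      (mem_VV ω b).2 ⟨a, ?_⟩⟩, h1, h2, h3⟩
    rw [Sym2.eq_swap]
    exact h1
  have hdel : ∀ a b, s(a, b) ∈ ω → ¬ Conn (ω.erase s(a, b)) v u → (a, b) ∈ P ∨ (b, a) ∈ P := by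
    intro a b h1 h2
    rcases EPiv_del h h1 with h3 | ⟨h3, _⟩ | ⟨h3, _⟩
    · exact absurd h3 h2
    · exact Or.inl (hmemP a b h1 h3 h2)
    · have hs : s(a, b) = s(b, a) := Sym2.eq_swap
      rw [hs] at h1 h2 h3
      exact Or.inr (hmemP b a h1 h3 h2)
  rcases P.eq_empty_or_nonempty with h0 | hne
  · refine ⟨v, ∅, ω, Finset.empty_subset _, Finset.Subset.refl _, Finset.disjoint_empty_left _,
      Conn_refl _ _, h, ?_, Or.inl rfl⟩
    intro e he
    induction e using Sym2.ind with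
    | _ a b =>
      by_contra hc
      rcases hdel a b he hc with h4 | h4
      · rw [h0] at h4
        exact absurd h4 (Finset.notMem_empty _)
      · rw [h0] at h4
        exact absurd h4 (Finset.notMem_empty _)
  · obtain ⟨⟨y, z⟩, hq, hmax⟩ := Finset.exists_max_image P
      (fun q => Set.ncard {x | Conn (ω.erase s(q.1, q.2)) v x}) hne
    obtain ⟨_, hb, hy, hu⟩ := Finset.mem_filter.1 hq
    dsimp only at hb hy hu
    let S : Set V := {x | Conn (ω.erase s(y, z)) v x}
    have hcl : ∀ a b, s(a, b) ∈ ω.erase s(y, z) → a ∈ S → b ∈ S :=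
      fun a b hab ha => Conn_trans ha (Conn_edge hab)
    have hcl' : ∀ a b, s(a, b) ∈ ω.erase s(y, z) → b ∈ S → a ∈ S := by
      intro a b hab hb'
      refine Conn_trans hb' (Conn_edge ?_)
      have hs : s(b, a) = s(a, b) := Sym2.eq_swap
      rw [hs]
      exact hab
    have hvS : v ∈ S := Conn_refl _ _
    have hyS : y ∈ S := hy
    have huS : u ∉ S := hu
    have hzu : Conn (ω.erase s(y, z)) z u := by
      rcases EPiv_del h hb with h3 | ⟨_, h3⟩ | ⟨_, h3⟩
      · exact absurd h3 hu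
      · exact h3
      · exact absurd (Conn_trans hy h3) hu
    have hzS : z ∉ S := fun hz => hu (Conn_trans hz hzu)
    have hin : ∀ x ∈ S, Conn ((ω.erase s(y, z)).filter fun e => ∀ a ∈ e, a ∈ S) v x :=
      fun x hx => EPiv_inside S hvS hcl hx
    let ω₀ : Finset (Sym2 V) := insert s(y, z) ((ω.erase s(y, z)).filter fun e => ∀ a ∈ e, a ∈ S)
    have h0ω : ω₀ ⊆ ω := by
      intro e he
      rcases Finset.mem_insert.1 he with rfl | he
      · exact hb
      · exact Finset.mem_of_mem_erase (Finset.mem_filter.1 he).1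
    have h0S : ∀ x ∈ S, Conn ω₀ v x := fun x hx =>
      Conn_mono (Finset.subset_insert _ _) (hin x hx)
    have h0z : Conn ω₀ v z := Conn_trans (h0S y hyS) (Conn_edge (Finset.mem_insert_self _ _))
    have hoff : ∀ e ∈ off (ω.erase s(y, z)) S, e ∈ ω ∧ e ≠ s(y, z) ∧ ∀ a ∈ e, a ∉ S := by
      intro e he
      obtain ⟨h1, h2⟩ := Finset.mem_filter.1 he
      exact ⟨Finset.mem_of_mem_erase h1, Finset.ne_of_mem_erase h1, h2⟩
    have hdis : Disjoint ω₀ (off (ω.erase s(y, z)) S) := by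
      rw [Finset.disjoint_left]
      intro e he he'
      obtain ⟨_, h2, h3⟩ := hoff e he'
      rcases Finset.mem_insert.1 he with h4 | h4
      · exact h2 h4
      · induction e using Sym2.ind with
        | _ a b =>
          exact h3 a (Sym2.mem_mk_left a b) ((Finset.mem_filter.1 h4).2 a (Sym2.mem_mk_left a b))
    refine ⟨z, ω₀, off (ω.erase s(y, z)) S, h0ω, fun e he => (hoff e he).1, hdis, h0z,
      EPiv_outside S hzS hcl' hzu, ?_, Or.inr ⟨y, hb, hy, hu⟩⟩
    intro e he
    by_contra hc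
    obtain ⟨heω, hene, heS⟩ := hoff e he
    have h0e : ω₀ ⊆ ω.erase e := by
      intro g hg
      refine Finset.mem_erase.2 ⟨?_, h0ω hg⟩
      rintro rfl
      exact (Finset.disjoint_left.1 hdis hg) he
    have hSe : ∀ x ∈ S, Conn (ω.erase e) v x := fun x hx => Conn_mono h0e (h0S x hx)
    have hze : Conn (ω.erase e) v z := Conn_mono h0e h0z
    have hsub : (ω.erase e).erase s(y, z) ⊆ ω.erase s(y, z) :=
      Finset.erase_subset_erase _ (Finset.erase_subset _ _)
    have hue : ¬ Conn (ω.erase e) v u := by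
      intro h5
      have hbe : s(y, z) ∈ ω.erase e := Finset.mem_erase.2 ⟨Ne.symm hene, hb⟩
      rcases EPiv_del h5 hbe with h3 | ⟨_, h3⟩ | ⟨h3, _⟩
      · exact hu (Conn_mono hsub h3)
      · have h6 : Conn (off ((ω.erase e).erase s(y, z)) S) z u :=
          EPiv_outside S hzS (fun a b hab => hcl' a b (hsub hab)) h3
        refine hc (Conn_mono ?_ h6)
        intro g hg
        obtain ⟨h7, h8⟩ := Finset.mem_filter.1 hg
        refine Finset.mem_erase.2 ⟨?_, Finset.mem_filter.2 ⟨hsub h7, h8⟩⟩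
        exact Finset.ne_of_mem_erase (Finset.mem_of_mem_erase h7)
      · exact hzS (Conn_mono hsub h3)
    have hbig : ∀ q : V × V, s(q.1, q.2) = e → q ∈ P → False := by
      intro q hqe hqP
      have h6 := hmax q hqP
      dsimp only at h6
      rw [hqe] at h6
      have h7 : S ⊂ {x | Conn (ω.erase e) v x} := by
        refine ⟨hSe, fun h8 => hzS (h8 hze)⟩
      have h8 := Set.ncard_lt_ncard h7 (EPiv_fin (ω.erase e) v)
      exact absurd h6 (not_le.2 h8)
    induction e using Sym2.ind with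
    | _ a b =>
      rcases hdel a b heω hue with h4 | h4
      · exact hbig (a, b) rfl h4
      · exact hbig (b, a) Sym2.eq_swap h4

end IPC.CE
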