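import Pool.Agent.Lib.MP_25e40f_pr.C.EDef
import Pool.Agent.Lib.MP_25e40f_pr.C.ESta
import Pool.Agent.Lib.MP_25e40f_pr.T.Tau

/-!
# MP_25e40f_pr, stream C: probabilities of lines in a finite domain (job EPra, about 90 lines)

`tsum_bound`: `Pr_mono` to the event `∃ a ∈ s, X a ω`, `Pr_exists_le` (A/Prb.lean), `ENNReal.ofReal_le_ofReal`, `ENNReal.ofReal_sum_of_nonneg` (`Pr_nonneg`), `Finset.sum_le_sum`, `ENNReal.sum_le_tsum`.
`Pr_lines_le`: `OL_bound` (A/Att.lean) gives `Pr ≤ product over L of IPC.tE p (ein D) l.1 l.2` (`List.map_map`), and `IPC.tE p (G.ein D) x y = G.tauD p D x y` (`rfl`), `tauD ≤ tau` (`T.tauD_le_tau`).  Prove by induction on `L`: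
`ENNReal.ofReal ((L.map fun l => G.tauD p D l.1 l.2).prod) ≤ (L.map fun l => tK G p l.1 l.2).prod` (`ENNReal.ofReal_mul`, `T.tauD_nonneg`, `mul_le_mul'`, `ENNReal.ofReal_one`).
`Pr_EPs_le`: for `ω ⊆ ein D`, `EP_start` with `E = ein D`: `Pr_mono`, `Pr_exists_le` twice (or `F ×ˢ F` and `Finset.sum_product`), `Pr_lines_le` for `L = [(f₁, u), (f₂, u)]` (`simp` for the product of two factors).
-/

set_option autoImplicit false

noncomputable section

open Finset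
open scoped Classical

namespace IPC.CE

variable {V : Type} [DecidableEq V]

variable (G : PG V)

theorem tsum_bound {p : ℝ} (h0 : 0 ≤ p) (h1 : p ≤ 1) (E : Finset (Sym2 V)) {α : Type} (s : Finset α)
    (B : Finset (Sym2 V) → Prop) (X : α → Finset (Sym2 V) → Prop) (f : α → ENNReal)
    (hB : ∀ ω, ω ⊆ E → B ω → ∃ a ∈ s, X a ω)
    (hX : ∀ a ∈ s, ENNReal.ofReal (Pr p E (X a)) ≤ f a) :
    ENNReal.ofReal (Pr p E B) ≤ ∑' a, f a := by
  have h2 : Pr p E B ≤ ∑ a ∈ s, Pr p E (X a) :=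
    (Pr_mono h0 h1 E hB).trans (Pr_exists_le h0 h1 E s X)
  calc ENNReal.ofReal (Pr p E B) ≤ ENNReal.ofReal (∑ a ∈ s, Pr p E (X a)) :=
        ENNReal.ofReal_le_ofReal h2
    _ = ∑ a ∈ s, ENNReal.ofReal (Pr p E (X a)) :=
        ENNReal.ofReal_sum_of_nonneg fun a _ => Pr_nonneg h0 h1 E (X a)
    _ ≤ ∑ a ∈ s, f a := Finset.sum_le_sum hX
    _ ≤ ∑' a, f a := ENNReal.sum_le_tsum s

private theorem EPra_prod {p : ℝ} (h0 : 0 ≤ p) (h1 : p ≤ 1) (D : Finset V) (L : List (V × V)) :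
    ENNReal.ofReal ((L.map fun l => G.tauD p D l.1 l.2).prod) ≤
      (L.map fun l => tK G p l.1 l.2).prod := by
  induction L with
  | nil => simp
  | cons l L ih =>
    rw [List.map_cons, List.prod_cons, List.map_cons, List.prod_cons,
      ENNReal.ofReal_mul (T.tauD_nonneg G h0 h1 D l.1 l.2)]
    refine mul_le_mul' ?_ ih
    unfold tK
    exact ENNReal.ofReal_le_ofReal (T.tauD_le_tau G h0 h1 D l.1 l.2)

theorem Pr_lines_le {p : ℝ} (h0 : 0 ≤ p) (h1 : p ≤ 1 / 2) (D : Finset V) (L : List (V × V)) :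
    ENNReal.ofReal (Pr p (G.ein D) (OL (L.map fun l => (G.ein D, l.1, l.2)))) ≤
      (L.map fun l => tK G p l.1 l.2).prod := by
  refine le_trans (ENNReal.ofReal_le_ofReal ?_) (EPra_prod G h0 (by linarith) D L)
  have h2 := OL_bound h0 h1 (G.ein D) (L.map fun l => (G.ein D, l.1, l.2)) (by
    intro l hl
    rw [List.mem_map] at hl
    obtain ⟨l', _, rfl⟩ := hl
    exact Finset.Subset.refl _)
  rw [List.map_map] at h2
  exact h2

theorem Pr_EPs_le {p : ℝ} (h0 : 0 ≤ p) (h1 : p ≤ 1 / 2) {D F : Finset V} (hF : F.Nonempty) (u : V) :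
    ENNReal.ofReal (Pr p (G.ein D) (fun ω => EP ω Set.univ F u)) ≤
      ∑ f₁ ∈ F, ∑ f₂ ∈ F, tK G p f₁ u * tK G p f₂ u := by
  have hp1 : p ≤ 1 := by linarith
  have h2 : Pr p (G.ein D) (fun ω => EP ω Set.univ F u) ≤
      ∑ f₁ ∈ F, ∑ f₂ ∈ F, Pr p (G.ein D) (OL [(G.ein D, f₁, u), (G.ein D, f₂, u)]) := by
    refine (Pr_mono h0 hp1 (G.ein D) (B := fun ω => ∃ f₁ ∈ F, ∃ f₂ ∈ F,
      OL [(G.ein D, f₁, u), (G.ein D, f₂, u)] ω) fun ω hω hE => EP_start hω hF hE).trans ?_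
    refine (Pr_exists_le h0 hp1 (G.ein D) F (fun f₁ ω => ∃ f₂ ∈ F,
      OL [(G.ein D, f₁, u), (G.ein D, f₂, u)] ω)).trans ?_
    refine Finset.sum_le_sum fun f₁ _ => ?_
    exact Pr_exists_le h0 hp1 (G.ein D) F (fun f₂ ω =>
      OL [(G.ein D, f₁, u), (G.ein D, f₂, u)] ω)
  refine (ENNReal.ofReal_le_ofReal h2).trans ?_
  rw [ENNReal.ofReal_sum_of_nonneg fun f₁ _ => Finset.sum_nonneg fun f₂ _ =>
    Pr_nonneg h0 hp1 _ _]
  refine Finset.sum_le_sum fun f₁ _ => ?_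
  rw [ENNReal.ofReal_sum_of_nonneg fun f₂ _ => Pr_nonneg h0 hp1 _ _]
  refine Finset.sum_le_sum fun f₂ _ => ?_
  have h3 := Pr_lines_le G h0 h1 D [(f₁, u), (f₂, u)]
  simp only [List.map_cons, List.map_nil, List.prod_cons, List.prod_nil, mul_one] at h3
  exact h3

end IPC.CE
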