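import Pool.Agent.Lib.MP_25e40f_pr.C.Ktwo

/-!
# MP_25e40f_pr, stream C: the loop bounds from simpler loop bounds; the terms of order `0`
-/

set_option autoImplicit false
set_option linter.unusedVariables false

open scoped ENNReal

namespace IPC

variable {V : Type}

theorem ch4_P (P b c d e : V → V → ℝ≥0∞) (x y : V) :
    ch4 (mm P b) c d e x y = mm P (ch4 b c d e) x y := by
  unfold ch4
  rw [mm_assoc]

theorem ch4_P_le {P b c d e : V → V → ℝ≥0∞} {CP X : ℝ≥0∞} (hrow : ∀ x, ∑' y, P x y ≤ CP)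
    (h : ∀ x y, ch4 b c d e x y ≤ X) (x y : V) : ch4 (mm P b) c d e x y ≤ CP * X := by
  rw [ch4_P]
  exact mm_le_of_le x y (hrow x) fun z => h z y

/-- transposition of chains -/
theorem ch4_swap (a b c d : V → V → ℝ≥0∞) (x y : V) :
    ch4 a b c d x y = ch4 (ktr d) (ktr c) (ktr b) (ktr a) y x := by
  unfold ch4
  rw [mm_swap, ktr_mm, ktr_mm, mm_assoc, mm_assoc]

theorem ch3_swap (a b c : V → V → ℝ≥0∞) (x y : V) :
    ch3 a b c x y = ch3 (ktr c) (ktr b) (ktr a) y x := by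
  unfold ch3
  rw [mm_swap, ktr_mm, mm_assoc]

theorem ch3_le_ch4 {a b c : V → V → ℝ≥0∞} (h1 : ∀ x, 1 ≤ b x x) (x y : V) :
    ch3 a b c x y ≤ ch4 a b b c x y :=
  mm_mono (fun _ _ => le_rfl) (fun x y => mm_mono (fun _ _ => le_rfl)
    (fun x y => le_mm_right h1 x y) x y) x y

namespace Ker

variable {ta P : V → V → ℝ≥0∞} {q : ℝ≥0∞}

/-- loop bounds for one weight, form used on `ℤⁿ × H` -/
theorem lbd_of_D2 (h : Ker ta P q) {f : V → V → ℝ≥0∞} {CP D : ℝ≥0∞}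
    (hrow : ∀ x, ∑' y, P x y ≤ CP) (hCP : 1 ≤ CP) (sf : ∀ x y, f x y = f y x) (f0 : ∀ x, f x x = 0)
    (d0 : ∀ x y, ch4 (wt f (mm P ta)) ta ta ta x y ≤ D)
    (d1 : ∀ x y, ch4 ta (wt f (mm P ta)) ta ta x y ≤ D) :
    LBd ta P f kone (CP * D) (CP * D) ∧ LBd ta P kone f (CP * D) (CP * D) := by
  have hD : D ≤ CP * D := by
    calc D = 1 * D := (one_mul D).symm
      _ ≤ CP * D := mul_le_mul' hCP le_rfl
  have d0' : ∀ x y, ch4 (wt f ta) ta ta ta x y ≤ D := fun x y =>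
    (ch4_mono (h.wt_le f0) (fun _ _ => le_rfl) (fun _ _ => le_rfl) (fun _ _ => le_rfl) x y).trans
      (d0 x y)
  have d1' : ∀ x y, ch4 ta (wt f ta) ta ta x y ≤ D := fun x y =>
    (ch4_mono (fun _ _ => le_rfl) (h.wt_le f0) (fun _ _ => le_rfl) (fun _ _ => le_rfl) x y).trans
      (d1 x y)
  have d3' : ∀ x y, ch4 ta ta ta (wt f ta) x y ≤ D := fun x y => by
    rw [ch4_swap, ktr_wt sf h.symm, ktr_symm h.symm]
    exact d0' y x
  have e3 : ∀ x y, ch3 (wt f ta) ta ta x y ≤ D := fun x y =>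
    (ch3_le_ch4 h.one_le x y).trans (d0' x y)
  have e3' : ∀ x y, ch3 ta ta (wt f ta) x y ≤ D := fun x y =>
    (ch3_le_ch4 h.one_le x y).trans (d3' x y)
  refine ⟨⟨fun x y => ?_, fun x y => ?_, fun x y => ?_⟩, ⟨fun x y => ?_, fun x y => ?_, fun x y => ?_⟩⟩
  · rw [wt_kone]
    exact (d0 x y).trans hD
  · rw [wt_kone]
    exact ch4_P_le hrow d1' x y
  · rw [wt_kone]
    exact (e3' x y).trans hD
  · rw [wt_kone]
    exact ch4_P_le hrow d3' x y
  · rw [wt_kone]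
    exact ch4_P_le hrow d3' x y
  · rw [wt_kone]
    exact (e3 x y).trans hD

/-- **C4 for stream D**: `2^n sum_u f(x,u) Z_{n+1}({x}, univ; u)` is at most
`(2 a (16 + 4c)(a + c) + c) CP D` -/
theorem KS_D2 (h : Ker ta P q) (hq : 1000 * q ≤ 1) {f : V → V → ℝ≥0∞} {a c CP D : ℝ≥0∞}
    (hf : Wgt f a c) (hqa : 1000 * (a * q) ≤ 1) (hrow : ∀ x, ∑' y, P x y ≤ CP) (hCP : 1 ≤ CP)
    (f0 : ∀ x, f x x = 0)
    (d0 : ∀ x y, ch4 (wt f (mm P ta)) ta ta ta x y ≤ D)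
    (d1 : ∀ x y, ch4 ta (wt f (mm P ta)) ta ta x y ≤ D) (n : ℕ) (x y : V) :
    2 ^ n * KS ta P (fun X => f x X) n x y ≤ (2 * a * (16 + 4 * c) * (a + c) + c) * (CP * D) := by
  obtain ⟨H1, H2⟩ := h.lbd_of_D2 hrow hCP hf.symm f0 d0 d1
  exact h.KS_wt hq hf hqa H1 H2 n x y

/-- terms of order `0`, no weight: `sum_{u ≠ x} ta(x,u)^2 ≤ q` -/
theorem zero_one [DecidableEq V] (h : Ker ta P q) (x : V) :
    ∑' u, (if u = x then 0 else ta x u * ta x u) ≤ q := by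
  calc ∑' u, (if u = x then 0 else ta x u * ta x u) ≤ ∑' u, mm P ta x u * ta u x := by
        refine ENNReal.tsum_le_tsum fun u => ?_
        by_cases hu : u = x
        · rw [if_pos hu]
          exact zero_le'
        · rw [if_neg hu, h.symm u x]
          exact mul_le_mul' (h.step x u (Ne.symm hu)) le_rfl
    _ ≤ q := h.t2 x x

/-- terms of order `0`, weight -/
theorem zero_f (h : Ker ta P q) {f : V → V → ℝ≥0∞} {D : ℝ≥0∞} (f0 : ∀ x, f x x = 0)
    (d0 : ∀ x y, ch4 (wt f (mm P ta)) ta ta ta x y ≤ D) (x y : V) :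
    ∑' u, f x u * (ta x u * ta y u) ≤ D := by
  calc ∑' u, f x u * (ta x u * ta y u) = mm (wt f ta) ta x y := by
        rw [mm_apply]
        refine tsum_congr fun u => ?_
        rw [wt_apply, h.symm y u]
        ring
    _ ≤ ch4 (wt f ta) ta ta ta x y := by
        refine mm_mono (fun _ _ => le_rfl) (fun x y => ?_) x y
        exact (le_mm_left h.one_le x y).trans
          (mm_mono (fun _ _ => le_rfl) (fun x y => le_mm_left h.one_le x y) x y)
    _ ≤ ch4 (wt f (mm P ta)) ta ta ta x y :=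
        ch4_mono (h.wt_le f0) (fun _ _ => le_rfl) (fun _ _ => le_rfl) (fun _ _ => le_rfl) x y
    _ ≤ D := d0 x y

end Ker

/-- bounds of the chains of four lines `ta` with weights on at most two lines (form used on `ℤᵈ`) -/
structure EB (ta f g : V → V → ℝ≥0∞) (X : ℝ≥0∞) : Prop where
  f0 : ∀ x y, ch4 (wt f ta) ta ta ta x y ≤ X
  f1 : ∀ x y, ch4 ta (wt f ta) ta ta x y ≤ X
  f3 : ∀ x y, ch4 ta ta ta (wt f ta) x y ≤ X
  g0 : ∀ x y, ch4 (wt g ta) ta ta ta x y ≤ X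
  g1 : ∀ x y, ch4 ta (wt g ta) ta ta x y ≤ X
  g3 : ∀ x y, ch4 ta ta ta (wt g ta) x y ≤ X
  f0g3 : ∀ x y, ch4 (wt f ta) ta ta (wt g ta) x y ≤ X
  f1g3 : ∀ x y, ch4 ta (wt f ta) ta (wt g ta) x y ≤ X
  g0f3 : ∀ x y, ch4 (wt g ta) ta ta (wt f ta) x y ≤ X
  g1f3 : ∀ x y, ch4 ta (wt g ta) ta (wt f ta) x y ≤ X
  one : ∀ x y, ch4 ta ta ta ta x y ≤ X

theorem EB.swap {ta f g : V → V → ℝ≥0∞} {X : ℝ≥0∞} (h : EB ta f g X) : EB ta g f X :=
  ⟨h.g0, h.g1, h.g3, h.f0, h.f1, h.f3, h.g0f3, h.g1f3, h.f0g3, h.f1g3, h.one⟩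

/-- a weight on the line `P ta` -/
theorem wt_mm_le {P ta f : V → V → ℝ≥0∞} {a c k : ℝ≥0∞} (hf : QT f a c)
    (hk : ∀ x z, P x z * f x z ≤ k * P x z) (x y : V) :
    wt f (mm P ta) x y ≤ a * mm P (wt f ta) x y + c * k * mm P ta x y := by
  unfold mm
  rw [wt_apply, ← ENNReal.tsum_mul_left, ← ENNReal.tsum_mul_left, ← ENNReal.tsum_mul_left,
    ← ENNReal.tsum_add]
  refine ENNReal.tsum_le_tsum fun z => ?_
  calc f x y * (P x z * ta z y) ≤ (a * f z y + c * f x z) * (P x z * ta z y) :=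
        mul_le_mul' (hf x z y) le_rfl
    _ = a * (P x z * (f z y * ta z y)) + c * (P x z * f x z) * ta z y := by ring
    _ ≤ a * (P x z * (f z y * ta z y)) + c * (k * P x z) * ta z y :=
        add_le_add le_rfl (mul_le_mul' (mul_le_mul' le_rfl (hk x z)) le_rfl)
    _ = _ := by
        rw [wt_apply]
        ring

theorem lbd_of {P ta al be : V → V → ℝ≥0∞} {a c k CP X : ℝ≥0∞} (h1 : ∀ x, 1 ≤ ta x x)
    (hal : QT al a c) (hk : ∀ x z, P x z * al x z ≤ k * P x z)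
    (hrow : ∀ x, ∑' y, P x y ≤ CP)
    (e1 : ∀ x y, ch4 (wt al ta) ta ta (wt be ta) x y ≤ X)
    (e1' : ∀ x y, ch4 ta ta ta (wt be ta) x y ≤ X)
    (e2 : ∀ x y, ch4 ta (wt al ta) ta (wt be ta) x y ≤ X)
    (e3 : ∀ x y, ch4 (wt be ta) ta ta (wt al ta) x y ≤ X) :
    LBd ta P al be ((a + c * k + 1) * (CP + 1) * X) ((a + c * k + 1) * (CP + 1) * X) := by
  refine ⟨fun x y => ?_, fun x y => ?_, fun x y => ?_⟩
  · calc ch4 (wt al (mm P ta)) ta ta (wt be ta) x y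
        ≤ ch4 (fun x y => a * mm P (wt al ta) x y + c * k * mm P ta x y) ta ta (wt be ta) x y :=
          ch4_mono (wt_mm_le hal hk) (fun _ _ => le_rfl) (fun _ _ => le_rfl) (fun _ _ => le_rfl) x y
      _ = a * ch4 (mm P (wt al ta)) ta ta (wt be ta) x y
          + c * k * ch4 (mm P ta) ta ta (wt be ta) x y := by
          unfold ch4
          rw [mm_apply, mm_apply, mm_apply, ← ENNReal.tsum_mul_left, ← ENNReal.tsum_mul_left,
            ← ENNReal.tsum_add]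
          exact tsum_congr fun z => by ring
      _ ≤ a * (CP * X) + c * k * (CP * X) :=
          add_le_add (mul_le_mul' le_rfl (ch4_P_le hrow e1 x y))
            (mul_le_mul' le_rfl (ch4_P_le hrow e1' x y))
      _ = (a + c * k) * CP * X := by ring
      _ ≤ _ := mul_le_mul' (mul_le_mul' le_self_add le_self_add) le_rfl
  · calc ch4 (mm P ta) (wt al ta) ta (wt be ta) x y ≤ CP * X := ch4_P_le hrow e2 x y
      _ = 1 * CP * X := by ring
      _ ≤ _ := mul_le_mul' (mul_le_mul' le_add_self le_self_add) le_rfl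
  · calc ch3 (wt be ta) ta (wt al ta) x y ≤ ch4 (wt be ta) ta ta (wt al ta) x y :=
          ch3_le_ch4 h1 x y
      _ ≤ X := e3 x y
      _ = 1 * 1 * X := by ring
      _ ≤ _ := mul_le_mul' (mul_le_mul' le_add_self le_add_self) le_rfl

/-- a common constant for the six loop bounds -/
noncomputable def EC (a1 c1 a2 c2 k CP X : ℝ≥0∞) : ℝ≥0∞ :=
  (a1 + c1 * k + (a2 + c2 * k) + 2) * (CP + 1) * X

theorem two_of_EB {P ta f g : V → V → ℝ≥0∞} {a1 c1 a2 c2 k CP X : ℝ≥0∞} (h1 : ∀ x, 1 ≤ ta x x)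
    (hf : QT f a1 c1) (hg : QT g a2 c2) (hkf : ∀ x z, P x z * f x z ≤ k * P x z)
    (hkg : ∀ x z, P x z * g x z ≤ k * P x z) (hrow : ∀ x, ∑' y, P x y ≤ CP) (H : EB ta f g X) :
    Two ta P f g (EC a1 c1 a2 c2 k CP X) (EC a1 c1 a2 c2 k CP X) (EC a1 c1 a2 c2 k CP X) := by
  have hk1 : ∀ x z, P x z * kone x z ≤ 1 * P x z := fun x z => by simp [kone]
  have b1 : (a1 + c1 * k + 1) * (CP + 1) * X ≤ EC a1 c1 a2 c2 k CP X := by
    unfold EC
    refine mul_le_mul' (mul_le_mul' ?_ le_rfl) le_rfl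
    calc a1 + c1 * k + 1 ≤ a1 + c1 * k + 1 + (a2 + c2 * k + 1) := le_self_add
      _ = _ := by ring
  have b2 : (a2 + c2 * k + 1) * (CP + 1) * X ≤ EC a1 c1 a2 c2 k CP X := by
    unfold EC
    refine mul_le_mul' (mul_le_mul' ?_ le_rfl) le_rfl
    calc a2 + c2 * k + 1 ≤ a2 + c2 * k + 1 + (a1 + c1 * k + 1) := le_self_add
      _ = _ := by ring
  have b0 : ((1 : ℝ≥0∞) + 0 * 1 + 1) * (CP + 1) * X ≤ EC a1 c1 a2 c2 k CP X := by
    unfold EC
    refine mul_le_mul' (mul_le_mul' ?_ le_rfl) le_rfl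
    calc (1 : ℝ≥0∞) + 0 * 1 + 1 = 2 := by norm_num
      _ ≤ _ := le_add_self
  have up : ∀ {al be : V → V → ℝ≥0∞} {Y Y' : ℝ≥0∞}, Y ≤ Y' → LBd ta P al be Y Y → LBd ta P al be Y' Y' :=
    fun hY h => ⟨fun x y => (h.ya x y).trans hY, fun x y => (h.yb x y).trans hY,
      fun x y => (h.z3 x y).trans hY⟩
  refine ⟨up b1 (lbd_of h1 hf hkf hrow ?_ ?_ ?_ ?_), up b0 (lbd_of h1 QT_kone hk1 hrow ?_ ?_ ?_ ?_),
    up b2 (lbd_of h1 hg hkg hrow ?_ ?_ ?_ ?_), up b0 (lbd_of h1 QT_kone hk1 hrow ?_ ?_ ?_ ?_),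
    up b1 (lbd_of h1 hf hkf hrow H.f0g3 H.g3 H.f1g3 H.g0f3),
    up b2 (lbd_of h1 hg hkg hrow H.g0f3 H.f3 H.g1f3 H.f0g3)⟩ <;> try rw [wt_kone]
  · exact H.f0
  · exact H.one
  · exact H.f1
  · exact H.f3
  · exact H.f3
  · exact H.f3
  · exact H.f3
  · exact H.f0
  · exact H.g0
  · exact H.one
  · exact H.g1
  · exact H.g3
  · exact H.g3
  · exact H.g3
  · exact H.g3
  · exact H.g0

theorem EC_ne_top {a1 c1 a2 c2 k CP X : ℝ≥0∞} (ha1 : a1 ≠ ∞) (hc1 : c1 ≠ ∞) (ha2 : a2 ≠ ∞)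
    (hc2 : c2 ≠ ∞) (hk : k ≠ ∞) (hCP : CP ≠ ∞) (hX : X ≠ ∞) : EC a1 c1 a2 c2 k CP X ≠ ∞ := by
  unfold EC
  finiteness

/-- **C4 for streams E, F**: two weights, explicit constant (independent of `ta`, `P`, `f`, `g`) -/
theorem Ker.KS_EB {ta P f g : V → V → ℝ≥0∞} {q a1 c1 a2 c2 k CP X : ℝ≥0∞} (h : Ker ta P q)
    (hq : 1000 * q ≤ 1) (hf : Wgt f a1 c1) (hg : Wgt g a2 c2) (hqa : 1000 * (a1 * a2 * q) ≤ 1)
    (hkf : ∀ x z, P x z * f x z ≤ k * P x z) (hkg : ∀ x z, P x z * g x z ≤ k * P x z)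
    (hrow : ∀ x, ∑' y, P x y ≤ CP) (H : EB ta f g X) (n : ℕ) (x y : V) :
    2 ^ n * KS ta P (fun X => f x X * g y X) n x y ≤
      Ker.KC a1 c1 a2 c2 q (EC a1 c1 a2 c2 k CP X) (EC a1 c1 a2 c2 k CP X) (EC a1 c1 a2 c2 k CP X) :=
  h.KS_two hq hf hg (two_of_EB h.one_le hf.qt hg.qt hkf hkg hrow H) hqa n x y

/-- the same with the quantifiers in front: `C` depends on the numbers only -/
theorem Ker.KS_EB_unif {q a1 c1 a2 c2 k CP X : ℝ≥0∞} (hq : 1000 * q ≤ 1)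
    (hqa : 1000 * (a1 * a2 * q) ≤ 1) (ha1 : a1 ≠ ∞) (hc1 : c1 ≠ ∞)
    (ha2 : a2 ≠ ∞) (hc2 : c2 ≠ ∞) (hk : k ≠ ∞) (hCP : CP ≠ ∞) (hX : X ≠ ∞) :
    ∃ C : ℝ≥0∞, C ≠ ∞ ∧ ∀ (V : Type) (ta P f g : V → V → ℝ≥0∞), Ker ta P q → Wgt f a1 c1 →
      Wgt g a2 c2 → (∀ x z, P x z * f x z ≤ k * P x z) → (∀ x z, P x z * g x z ≤ k * P x z) →
      (∀ x, ∑' y, P x y ≤ CP) → EB ta f g X → ∀ (n : ℕ) (x y : V),
      2 ^ n * KS ta P (fun X => f x X * g y X) n x y ≤ C := by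
  have hE := EC_ne_top ha1 hc1 ha2 hc2 hk hCP hX
  exact ⟨_, Ker.KC_ne_top ha1 hc1 ha2 hc2 (Ker.ne_top_of hq) hE hE hE,
    fun V ta P f g h hf hg hkf hkg hrow H n x y => h.KS_EB hq hf hg hqa hkf hkg hrow H n x y⟩

/-- the chain bounds of `EB` from a bound of the chains of four lines `W` with `ta ≤ W`, when all the
kernels commute (for instance translation invariant kernels on `ℤᵈ`) -/
theorem EB_of_comm {ta W f g : V → V → ℝ≥0∞} {X : ℝ≥0∞} (hW : ∀ x y, ta x y ≤ W x y)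
    (cW : ∀ k ∈ [wt f W, wt g W], mm W k = mm k W) (cfg : mm (wt f W) (wt g W) = mm (wt g W) (wt f W))
    (h1 : ∀ x y, ch4 W W W W x y ≤ X) (hf : ∀ x y, ch4 (wt f W) W W W x y ≤ X)
    (hg : ∀ x y, ch4 (wt g W) W W W x y ≤ X) (hfg : ∀ x y, ch4 (wt f W) (wt g W) W W x y ≤ X) :
    EB ta f g X := by
  have wf : ∀ x y, wt f ta x y ≤ wt f W x y := fun x y => mul_le_mul' le_rfl (hW x y)
  have wg : ∀ x y, wt g ta x y ≤ wt g W x y := fun x y => mul_le_mul' le_rfl (hW x y)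
  have cf : mm W (wt f W) = mm (wt f W) W := cW _ (by simp)
  have cg : mm W (wt g W) = mm (wt g W) W := cW _ (by simp)
  have l1 : ∀ k : V → V → ℝ≥0∞, mm W k = mm k W → ch4 W k W W = ch4 k W W W := by
    intro k hk
    unfold ch4
    rw [← mm_assoc W k, hk, mm_assoc]
  have l3 : ∀ k : V → V → ℝ≥0∞, mm W k = mm k W → ch4 W W W k = ch4 k W W W := by
    intro k hk
    unfold ch4
    rw [hk, ← mm_assoc W k, hk, mm_assoc, ← mm_assoc W k, hk, mm_assoc]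
  have l03 : ∀ k j : V → V → ℝ≥0∞, mm W j = mm j W → ch4 k W W j = ch4 k j W W := by
    intro k j hj
    unfold ch4
    rw [hj, ← mm_assoc W j, hj, mm_assoc]
  have l13 : ∀ k j : V → V → ℝ≥0∞, mm W k = mm k W → mm W j = mm j W → ch4 W k W j = ch4 k j W W := by
    intro k j hk hj
    unfold ch4
    rw [hj, ← mm_assoc W k, hk, mm_assoc, ← mm_assoc W j, hj, mm_assoc]
  have sw : ch4 (wt g W) (wt f W) W W = ch4 (wt f W) (wt g W) W W := by
    unfold ch4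
    rw [← mm_assoc (wt g W), ← cfg, mm_assoc]
  refine ⟨fun x y => ?_, fun x y => ?_, fun x y => ?_, fun x y => ?_, fun x y => ?_, fun x y => ?_,
    fun x y => ?_, fun x y => ?_, fun x y => ?_, fun x y => ?_, fun x y => ?_⟩
  · exact (ch4_mono wf hW hW hW x y).trans (hf x y)
  · refine (ch4_mono hW wf hW hW x y).trans ?_
    rw [l1 _ cf]
    exact hf x y
  · refine (ch4_mono hW hW hW wf x y).trans ?_
    rw [l3 _ cf]
    exact hf x y
  · exact (ch4_mono wg hW hW hW x y).trans (hg x y)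
  · refine (ch4_mono hW wg hW hW x y).trans ?_
    rw [l1 _ cg]
    exact hg x y
  · refine (ch4_mono hW hW hW wg x y).trans ?_
    rw [l3 _ cg]
    exact hg x y
  · refine (ch4_mono wf hW hW wg x y).trans ?_
    rw [l03 _ _ cg]
    exact hfg x y
  · refine (ch4_mono hW wf hW wg x y).trans ?_
    rw [l13 _ _ cf cg]
    exact hfg x y
  · refine (ch4_mono wg hW hW wf x y).trans ?_
    rw [l03 _ _ cf, sw]
    exact hfg x y
  · refine (ch4_mono hW wg hW wf x y).trans ?_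
    rw [l13 _ _ cg cf, sw]
    exact hfg x y
  · exact (ch4_mono hW hW hW hW x y).trans (h1 x y)

/-- terms of order `0` with two weights -/
theorem zero_fg {ta f g : V → V → ℝ≥0∞} {X : ℝ≥0∞} (hs : ∀ x y, ta x y = ta y x)
    (h1 : ∀ x, 1 ≤ ta x x) (sg : ∀ x y, g x y = g y x) (H : EB ta f g X) (x y : V) :
    ∑' u, f x u * g y u * (ta x u * ta y u) ≤ X := by
  calc ∑' u, f x u * g y u * (ta x u * ta y u) = mm (wt f ta) (wt g ta) x y := by
        rw [mm_apply]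
        refine tsum_congr fun u => ?_
        rw [wt_apply, wt_apply, hs y u, sg y u]
        ring
    _ ≤ ch4 (wt f ta) ta ta (wt g ta) x y := by
        refine mm_mono (fun _ _ => le_rfl) (fun x y => ?_) x y
        exact (le_mm_right h1 x y).trans
          (mm_mono (fun _ _ => le_rfl) (fun x y => le_mm_right h1 x y) x y)
    _ ≤ X := H.f0g3 x y

/-- the kernel `K_0` with two weights, at a fixed point -/
theorem KK_zero_fg {ta P f g : V → V → ℝ≥0∞} {a c X : ℝ≥0∞} (hs : ∀ x y, ta x y = ta y x)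
    (h1 : ∀ x, 1 ≤ ta x x) (hf : Wgt f a c) (H : EB ta f g X) (sg : ∀ x y, g x y = g y x) (v a' : V) :
    KK ta P (fun x => f v x * g a' x) 0 v a' ≤ (a + c) * (X * X + X * X) := by
  have m2 : ∀ {b d : V → V → ℝ≥0∞}, (∀ x y, ch4 b ta ta d x y ≤ X) → ∀ x y, mm b d x y ≤ X :=
    fun h x y => (mm_mono (fun _ _ => le_rfl) (fun x y => (le_mm_right h1 x y).trans
      (mm_mono (fun _ _ => le_rfl) (fun x y => le_mm_right h1 x y) x y)) x y).trans (h x y)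
  rw [KK_zero]
  calc ∑' z, ∑' u, ta v z * ta z a' * ta a' u * ta z u * (f v u * g a' u)
      ≤ ∑' z, (a + c) * ((ta v z * ta z a') * mm (wt g ta) (wt f ta) a' z
          + (wt f ta v z * ta z a') * mm (wt g ta) ta a' z) := by
        refine ENNReal.tsum_le_tsum fun z => ?_
        rw [mm_apply, mm_apply, ← ENNReal.tsum_mul_left, ← ENNReal.tsum_mul_left, ← ENNReal.tsum_add,
          ← ENNReal.tsum_mul_left]
        refine ENNReal.tsum_le_tsum fun u => ?_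
        calc ta v z * ta z a' * ta a' u * ta z u * (f v u * g a' u)
            ≤ ta v z * ta z a' * ta a' u * ta z u * (((a + c) * (f z u + f v z)) * g a' u) :=
              mul_le_mul' le_rfl (mul_le_mul' (hf.le v z u) le_rfl)
          _ = _ := by
              rw [wt_apply, wt_apply, wt_apply, hs z u, hf.symm z u]
              ring
    _ ≤ ∑' z, (a + c) * ((ta v z * ta z a') * X + (wt f ta v z * ta z a') * X) := by
        refine ENNReal.tsum_le_tsum fun z => mul_le_mul' le_rfl (add_le_add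
          (mul_le_mul' le_rfl (m2 H.g0f3 a' z)) (mul_le_mul' le_rfl (m2 H.g0 a' z)))
    _ = (a + c) * (mm ta ta v a' * X + mm (wt f ta) ta v a' * X) := by
        rw [ENNReal.tsum_mul_left, ENNReal.tsum_add, ENNReal.tsum_mul_right, ENNReal.tsum_mul_right]
        rfl
    _ ≤ _ := mul_le_mul' le_rfl (add_le_add (mul_le_mul' (m2 H.one v a') le_rfl)
          (mul_le_mul' (m2 H.f0 v a') le_rfl))

end IPC
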