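import Pool.Agent.Lib.MP_25e40f_pr.C.Kbd

/-!
# MP_25e40f_pr, stream C: translation invariant kernels on an abelian group
-/

set_option autoImplicit false

open scoped ENNReal

namespace IPC

variable {V : Type} [AddCommGroup V]

/-- the kernel `(x, y) ↦ K (y - x)` -/
def kt (K : V → ℝ≥0∞) : V → V → ℝ≥0∞ := fun x y => K (y - x)

theorem kt_apply (K : V → ℝ≥0∞) (x y : V) : kt K x y = K (y - x) := rfl

theorem wt_kt (F K : V → ℝ≥0∞) : wt (kt F) (kt K) = kt (fun z => F z * K z) := rfl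

theorem mm_kt_comm (K L : V → ℝ≥0∞) : mm (kt K) (kt L) = mm (kt L) (kt K) := by
  funext x y
  rw [mm_apply, mm_apply, ← Equiv.tsum_eq (Equiv.subLeft (x + y))]
  refine tsum_congr fun z => ?_
  rw [kt_apply, kt_apply, kt_apply, kt_apply, Equiv.subLeft_apply, mul_comm,
    show y - (x + y - z) = z - x by abel, show x + y - z - x = y - z by abel]

theorem mm_kt (K L : V → ℝ≥0∞) : mm (kt K) (kt L) = kt (fun w => ∑' z, K z * L (w - z)) := by
  funext x y
  rw [mm_apply, kt_apply, ← Equiv.tsum_eq (Equiv.addLeft x)]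
  refine tsum_congr fun z => ?_
  rw [kt_apply, kt_apply, Equiv.coe_addLeft, show x + z - x = z by abel,
    show y - (x + z) = y - x - z by abel]

/-- the chain bounds from the four sup norms of convolution products -/
theorem EB_of_kt {ta : V → V → ℝ≥0∞} {W F G : V → ℝ≥0∞} {X : ℝ≥0∞} (hW : ∀ x y, ta x y ≤ kt W x y)
    (h1 : ∀ x y, ch4 (kt W) (kt W) (kt W) (kt W) x y ≤ X)
    (hf : ∀ x y, ch4 (wt (kt F) (kt W)) (kt W) (kt W) (kt W) x y ≤ X)
    (hg : ∀ x y, ch4 (wt (kt G) (kt W)) (kt W) (kt W) (kt W) x y ≤ X)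
    (hfg : ∀ x y, ch4 (wt (kt F) (kt W)) (wt (kt G) (kt W)) (kt W) (kt W) x y ≤ X) :
    EB ta (kt F) (kt G) X := by
  refine EB_of_comm hW ?_ ?_ h1 hf hg hfg
  · intro k hk
    simp only [List.mem_cons, List.not_mem_nil, or_false] at hk
    rcases hk with rfl | rfl <;> rw [wt_kt] <;> exact mm_kt_comm _ _
  · rw [wt_kt, wt_kt]
    exact mm_kt_comm _ _

end IPC
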