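import Pool.Agent.Lib.MP_25e40f_pr.C.Klin

/-!
# MP_25e40f_pr, stream C: the sum over one level, with weights
-/

set_option autoImplicit false

open scoped ENNReal

namespace IPC

variable {V : Type}

theorem tsum_bub3 (F : V → V → V → ℝ≥0∞) :
    ∑' v, ∑' a, ∑' z, F v a z = ∑' a, ∑' z, ∑' v, F v a z := by
  rw [ENNReal.tsum_comm]
  exact tsum_congr fun a => ENNReal.tsum_comm

theorem tsum_bub4 (F : V → V → V → V → ℝ≥0∞) :
    ∑' v, ∑' a, ∑' z, ∑' t, F v a z t = ∑' a, ∑' z, ∑' t, ∑' v, F v a z t := by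
  rw [ENNReal.tsum_comm]
  exact tsum_congr fun a => tsum_bub3 _

theorem tsum_bub5 (F : V → V → V → V → V → ℝ≥0∞) :
    ∑' v, ∑' a, ∑' z, ∑' t, ∑' u, F v a z t u = ∑' a, ∑' z, ∑' t, ∑' u, ∑' v, F v a z t u := by
  rw [ENNReal.tsum_comm]
  exact tsum_congr fun a => tsum_bub4 _

theorem tsum_rev3 (F : V → V → V → ℝ≥0∞) :
    ∑' a, ∑' z, ∑' t, F a z t = ∑' t, ∑' z, ∑' a, F a z t := by
  calc ∑' a, ∑' z, ∑' t, F a z t = ∑' a, ∑' t, ∑' z, F a z t := tsum_congr fun a => ENNReal.tsum_comm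
    _ = ∑' t, ∑' a, ∑' z, F a z t := ENNReal.tsum_comm
    _ = ∑' t, ∑' z, ∑' a, F a z t := tsum_congr fun t => ENNReal.tsum_comm

/-- the sum over one level with the lines `c` and the weight `h` on the two new end points -/
noncomputable def LV (ta P : V → V → ℝ≥0∞) (c : V → V → V → V → V → ℝ≥0∞) (h : V → V → ℝ≥0∞)
    (u0 w0 : V) : ℝ≥0∞ :=
  ∑' v, ∑' a, ∑' z, ∑' t, ∑' u, P u0 v * ta w0 a * (c v a z t u * h t u)

theorem LV_mono {ta P : V → V → ℝ≥0∞} {c : V → V → V → V → V → ℝ≥0∞} {h h' : V → V → ℝ≥0∞}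
    (hh : ∀ t u, h t u ≤ h' t u) (u0 w0 : V) : LV ta P c h u0 w0 ≤ LV ta P c h' u0 w0 :=
  ENNReal.tsum_le_tsum fun v => ENNReal.tsum_le_tsum fun a => ENNReal.tsum_le_tsum fun z =>
    ENNReal.tsum_le_tsum fun t => ENNReal.tsum_le_tsum fun u =>
      mul_le_mul' le_rfl (mul_le_mul' le_rfl (hh t u))

theorem LV_add (ta P : V → V → ℝ≥0∞) (c : V → V → V → V → V → ℝ≥0∞) (h h' : V → V → ℝ≥0∞)
    (u0 w0 : V) : LV ta P c (fun t u => h t u + h' t u) u0 w0
      = LV ta P c h u0 w0 + LV ta P c h' u0 w0 := by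
  unfold LV
  rw [← ENNReal.tsum_add]
  refine tsum_congr fun v => ?_
  rw [← ENNReal.tsum_add]
  refine tsum_congr fun a => ?_
  rw [← ENNReal.tsum_add]
  refine tsum_congr fun z => ?_
  rw [← ENNReal.tsum_add]
  refine tsum_congr fun t => ?_
  rw [← ENNReal.tsum_add]
  refine tsum_congr fun u => ?_
  ring

theorem LV_mul (ta P : V → V → ℝ≥0∞) (c : V → V → V → V → V → ℝ≥0∞) (k : ℝ≥0∞) (h : V → V → ℝ≥0∞)
    (u0 w0 : V) : LV ta P c (fun t u => k * h t u) u0 w0 = k * LV ta P c h u0 w0 := by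
  unfold LV
  rw [← ENNReal.tsum_mul_left]
  refine tsum_congr fun v => ?_
  rw [← ENNReal.tsum_mul_left]
  refine tsum_congr fun a => ?_
  rw [← ENNReal.tsum_mul_left]
  refine tsum_congr fun z => ?_
  rw [← ENNReal.tsum_mul_left]
  refine tsum_congr fun t => ?_
  rw [← ENNReal.tsum_mul_left]
  refine tsum_congr fun u => ?_
  ring

/-- `v` summed out, outer order `t, z, a`, inner `u` (case 1) -/
theorem LV_cs1 (ta P : V → V → ℝ≥0∞) (h : V → V → ℝ≥0∞) (u0 w0 : V) :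
    LV ta P (cs1 ta) h u0 w0 = ∑' t, ∑' z, ∑' a,
      mm P ta u0 t * ta t z * ta z a * ta w0 a * ∑' u, ta a u * ta z u * h t u := by
  unfold LV
  rw [tsum_bub5, tsum_rev3]
  refine tsum_congr fun t => tsum_congr fun z => tsum_congr fun a => ?_
  rw [← ENNReal.tsum_mul_left]
  refine tsum_congr fun u => ?_
  unfold mm
  rw [← ENNReal.tsum_mul_right, ← ENNReal.tsum_mul_right, ← ENNReal.tsum_mul_right,
    ← ENNReal.tsum_mul_right]
  refine tsum_congr fun v => ?_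
  unfold cs1
  ring

/-- outer order `z, t, a`, inner `u` (case 2) -/
theorem LV_cs2 (ta P : V → V → ℝ≥0∞) (h : V → V → ℝ≥0∞) (u0 w0 : V) :
    LV ta P (cs2 ta) h u0 w0 = ∑' z, ∑' t, ∑' a,
      mm P ta u0 z * ta z t * ta t a * ta w0 a * ∑' u, ta a u * ta z u * h t u := by
  unfold LV
  rw [tsum_bub5, tsum_bub3]
  refine tsum_congr fun z => tsum_congr fun t => tsum_congr fun a => ?_
  rw [← ENNReal.tsum_mul_left]
  refine tsum_congr fun u => ?_
  unfold mm
  rw [← ENNReal.tsum_mul_right, ← ENNReal.tsum_mul_right, ← ENNReal.tsum_mul_right,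
    ← ENNReal.tsum_mul_right]
  refine tsum_congr fun v => ?_
  unfold cs2
  ring

/-- outer order `z, a`, inner `u, t` (case 4) -/
theorem LV_cs4 (ta P : V → V → ℝ≥0∞) (h : V → V → ℝ≥0∞) (u0 w0 : V) :
    LV ta P (cs4 ta) h u0 w0 = ∑' z, ∑' a,
      mm P ta u0 z * ta z a * ta w0 a * ∑' u, ∑' t, ta a u * ta t u * ta z t * h t u := by
  unfold LV
  rw [tsum_bub5, ENNReal.tsum_comm]
  refine tsum_congr fun z => tsum_congr fun a => ?_
  rw [ENNReal.tsum_comm, ← ENNReal.tsum_mul_left]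
  refine tsum_congr fun u => ?_
  rw [← ENNReal.tsum_mul_left]
  refine tsum_congr fun t => ?_
  unfold mm
  rw [← ENNReal.tsum_mul_right, ← ENNReal.tsum_mul_right, ← ENNReal.tsum_mul_right]
  refine tsum_congr fun v => ?_
  unfold cs4
  ring

/-- case 3 is case 4 with `t` and `u` exchanged -/
theorem LV_cs3 (ta P : V → V → ℝ≥0∞) (hs : ∀ x y, ta x y = ta y x) (h : V → V → ℝ≥0∞) (u0 w0 : V) :
    LV ta P (cs3 ta) h u0 w0 = LV ta P (cs4 ta) (fun t u => h u t) u0 w0 := by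
  unfold LV
  refine tsum_congr fun v => tsum_congr fun a => tsum_congr fun z => ?_
  rw [ENNReal.tsum_comm]
  refine tsum_congr fun t => tsum_congr fun u => ?_
  unfold cs3 cs4
  rw [hs u t]
  ring

/-- bounds of the loops with a weight `al` on a line of the first path and a weight `be` on a line of
the second path -/
structure LBd (ta P al be : V → V → ℝ≥0∞) (Y Z : ℝ≥0∞) : Prop where
  ya : ∀ x y, ch4 (wt al (mm P ta)) ta ta (wt be ta) x y ≤ Y
  yb : ∀ x y, ch4 (mm P ta) (wt al ta) ta (wt be ta) x y ≤ Y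
  z3 : ∀ x y, ch3 (wt be ta) ta (wt al ta) x y ≤ Z

theorem LBd.y3 {ta P al be : V → V → ℝ≥0∞} {Y Z : ℝ≥0∞} (h : LBd ta P al be Y Z)
    (h1 : ∀ x, 1 ≤ ta x x) (x y : V) : ch3 (wt al (mm P ta)) ta (wt be ta) x y ≤ Y :=
  le_trans (mm_mono (fun _ _ => le_rfl) (fun x y => mm_mono (fun _ _ => le_rfl)
    (fun x y => le_mm_right h1 x y) x y) x y) (h.ya x y)

theorem LBd.z2 {ta P be : V → V → ℝ≥0∞} {Y Z : ℝ≥0∞} (h : LBd ta P kone be Y Z)
    (h1 : ∀ x, 1 ≤ ta x x) (x y : V) : mm (wt be ta) ta x y ≤ Z := by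
  refine le_trans ?_ (h.z3 x y)
  rw [wt_kone]
  exact mm_mono (fun _ _ => le_rfl) (fun x y => le_mm_left h1 x y) x y

/-- weights of type 1 on both paths -/
structure Wgt (f : V → V → ℝ≥0∞) (a c : ℝ≥0∞) : Prop where
  symm : ∀ x y, f x y = f y x
  qt : QT f a c
  one_le : 1 ≤ a

theorem Wgt_kone : Wgt (kone : V → V → ℝ≥0∞) 1 0 := ⟨fun _ _ => rfl, QT_kone, le_rfl⟩

theorem Wgt.le {f : V → V → ℝ≥0∞} {a c : ℝ≥0∞} (h : Wgt f a c) (x y z : V) :
    f x z ≤ (a + c) * (f y z + f x y) := by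
  refine (h.qt x y z).trans ?_
  calc a * f y z + c * f x y ≤ (a + c) * f y z + (a + c) * f x y :=
        add_le_add (mul_le_mul' le_self_add le_rfl) (mul_le_mul' le_add_self le_rfl)
    _ = _ := by ring

/-- the inner sum of the cases 1 and 2 -/
theorem inner12 {ta P be : V → V → ℝ≥0∞} {b d Yb Zb T : ℝ≥0∞} (hs : ∀ x y, ta x y = ta y x)
    (h1 : ∀ x, 1 ≤ ta x x) (hb : Wgt be b d) (hB : ∀ x y, mm ta ta x y ≤ T)
    (H : LBd ta P kone be Yb Zb) (w0 a z : V) :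
    ∑' u, ta a u * ta z u * be w0 u ≤ (b + d) * (Zb + be w0 a * T) := by
  have e1 : ∑' u, wt be ta a u * ta u z ≤ Zb := H.z2 h1 a z
  have e2 : ∑' u, ta a u * ta u z ≤ T := hB a z
  calc ∑' u, ta a u * ta z u * be w0 u
      ≤ ∑' u, (b + d) * (wt be ta a u * ta u z + be w0 a * (ta a u * ta u z)) := by
        refine ENNReal.tsum_le_tsum fun u => ?_
        calc ta a u * ta z u * be w0 u ≤ ta a u * ta z u * ((b + d) * (be a u + be w0 a)) :=
              mul_le_mul' le_rfl (hb.le w0 a u)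
          _ = _ := by
              rw [hs z u, wt_apply]
              ring
    _ = (b + d) * ((∑' u, wt be ta a u * ta u z) + be w0 a * ∑' u, ta a u * ta u z) := by
        rw [ENNReal.tsum_mul_left, ENNReal.tsum_add, ENNReal.tsum_mul_left]
    _ ≤ _ := mul_le_mul' le_rfl (add_le_add e1 (mul_le_mul' le_rfl e2))

/-- case 1 -/
theorem lev1 {ta P al be : V → V → ℝ≥0∞} {a c b d Ya Za Yb Zb Y Z T : ℝ≥0∞}
    (hs : ∀ x y, ta x y = ta y x) (h1 : ∀ x, 1 ≤ ta x x) (ha : Wgt al a c) (hb : Wgt be b d)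
    (hB : ∀ x y, mm ta ta x y ≤ T) (Ha : LBd ta P al kone Ya Za) (Hb : LBd ta P kone be Yb Zb)
    (H : LBd ta P al be Y Z) (u0 w0 : V) :
    LV ta P (cs1 ta) (fun t u => al u0 t * be w0 u) u0 w0 ≤
      (a + c) * (b + d) * (Zb * Ya + T * Y) := by
  rw [LV_cs1]
  calc ∑' t, ∑' z, ∑' a', mm P ta u0 t * ta t z * ta z a' * ta w0 a' *
        ∑' u, ta a' u * ta z u * (al u0 t * be w0 u)
      ≤ ∑' t, ∑' z, ∑' a', (b + d) * (Zb * (wt al (mm P ta) u0 t * ta t z * ta z a' * wt kone ta a' w0)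
          + T * (wt al (mm P ta) u0 t * ta t z * ta z a' * wt be ta a' w0)) := by
        refine ENNReal.tsum_le_tsum fun t => ENNReal.tsum_le_tsum fun z =>
          ENNReal.tsum_le_tsum fun a' => ?_
        have e : ∑' u, ta a' u * ta z u * (al u0 t * be w0 u)
            = al u0 t * ∑' u, ta a' u * ta z u * be w0 u := by
          rw [← ENNReal.tsum_mul_left]
          exact tsum_congr fun u => by ring
        rw [e]
        calc _ ≤ mm P ta u0 t * ta t z * ta z a' * ta w0 a' * (al u0 t * ((b + d) * (Zb + be w0 a' * T))) :=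
              mul_le_mul' le_rfl (mul_le_mul' le_rfl (inner12 hs h1 hb hB Hb w0 a' z))
          _ = _ := by
              rw [wt_kone, wt_apply, wt_apply, hs w0 a', hb.symm w0 a']
              ring
    _ = (b + d) * (Zb * ch4 (wt al (mm P ta)) ta ta (wt kone ta) u0 w0
          + T * ch4 (wt al (mm P ta)) ta ta (wt be ta) u0 w0) := by
        rw [ch4_apply, ch4_apply]
        simp only [← ENNReal.tsum_mul_left, ← ENNReal.tsum_add]
    _ ≤ (b + d) * (Zb * Ya + T * Y) :=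
        mul_le_mul' le_rfl (add_le_add (mul_le_mul' le_rfl (Ha.ya u0 w0)) (mul_le_mul' le_rfl (H.ya u0 w0)))
    _ = 1 * (b + d) * (Zb * Ya + T * Y) := by ring
    _ ≤ _ := mul_le_mul' (mul_le_mul' (ha.one_le.trans le_self_add) le_rfl) le_rfl

end IPC
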