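import Pool.Agent.Lib.MP_25e40f_pr.C.Klev

/-!
# MP_25e40f_pr, stream C: the sum over one level, cases 2, 3, 4
-/

set_option autoImplicit false

open scoped ENNReal

namespace IPC

variable {V : Type}

/-- case 2 -/
theorem lev2 {ta P al be : V → V → ℝ≥0∞} {a c b d Ya Za Yb Zb Y Z T : ℝ≥0∞}
    (hs : ∀ x y, ta x y = ta y x) (h1 : ∀ x, 1 ≤ ta x x) (ha : Wgt al a c) (hb : Wgt be b d)
    (hB : ∀ x y, mm ta ta x y ≤ T) (Ha : LBd ta P al kone Ya Za) (Hb : LBd ta P kone be Yb Zb)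
    (H : LBd ta P al be Y Z) (u0 w0 : V) :
    LV ta P (cs2 ta) (fun t u => al u0 t * be w0 u) u0 w0 ≤
      (a + c) * (b + d) * (2 * (Zb * Ya + T * Y)) := by
  rw [LV_cs2]
  calc ∑' z, ∑' t, ∑' a', mm P ta u0 z * ta z t * ta t a' * ta w0 a' *
        ∑' u, ta a' u * ta z u * (al u0 t * be w0 u)
      ≤ ∑' z, ∑' t, ∑' a', (a + c) * (b + d) *
          (Zb * (mm P ta u0 z * wt al ta z t * ta t a' * wt kone ta a' w0)
          + Zb * (wt al (mm P ta) u0 z * ta z t * ta t a' * wt kone ta a' w0)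
          + T * (mm P ta u0 z * wt al ta z t * ta t a' * wt be ta a' w0)
          + T * (wt al (mm P ta) u0 z * ta z t * ta t a' * wt be ta a' w0)) := by
        refine ENNReal.tsum_le_tsum fun z => ENNReal.tsum_le_tsum fun t =>
          ENNReal.tsum_le_tsum fun a' => ?_
        have e : ∑' u, ta a' u * ta z u * (al u0 t * be w0 u)
            = al u0 t * ∑' u, ta a' u * ta z u * be w0 u := by
          rw [← ENNReal.tsum_mul_left]
          exact tsum_congr fun u => by ring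
        rw [e]
        calc _ ≤ mm P ta u0 z * ta z t * ta t a' * ta w0 a' *
              (((a + c) * (al z t + al u0 z)) * ((b + d) * (Zb + be w0 a' * T))) :=
              mul_le_mul' le_rfl (mul_le_mul' (ha.le u0 z t) (inner12 hs h1 hb hB Hb w0 a' z))
          _ = _ := by
              rw [wt_kone, wt_apply, wt_apply, wt_apply, hs w0 a', hb.symm w0 a']
              ring
    _ = (a + c) * (b + d) * (Zb * ch4 (mm P ta) (wt al ta) ta (wt kone ta) u0 w0
          + Zb * ch4 (wt al (mm P ta)) ta ta (wt kone ta) u0 w0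
          + T * ch4 (mm P ta) (wt al ta) ta (wt be ta) u0 w0
          + T * ch4 (wt al (mm P ta)) ta ta (wt be ta) u0 w0) := by
        rw [ch4_apply, ch4_apply, ch4_apply, ch4_apply]
        simp only [← ENNReal.tsum_mul_left, ← ENNReal.tsum_add]
    _ ≤ (a + c) * (b + d) * (Zb * Ya + Zb * Ya + T * Y + T * Y) :=
        mul_le_mul' le_rfl (add_le_add (add_le_add (add_le_add
          (mul_le_mul' le_rfl (Ha.yb u0 w0)) (mul_le_mul' le_rfl (Ha.ya u0 w0)))
          (mul_le_mul' le_rfl (H.yb u0 w0))) (mul_le_mul' le_rfl (H.ya u0 w0)))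
    _ = _ := by ring

/-- the inner sum of case 4 -/
theorem inner4 {ta P al be : V → V → ℝ≥0∞} {a c b d Ya Za Yb Zb Y Z T : ℝ≥0∞}
    (hs : ∀ x y, ta x y = ta y x) (ha : Wgt al a c) (hb : Wgt be b d)
    (hT : ∀ x y, ch3 ta ta ta x y ≤ T) (Ha : LBd ta P al kone Ya Za) (Hb : LBd ta P kone be Yb Zb)
    (H : LBd ta P al be Y Z) (u0 w0 a' z : V) :
    ∑' u, ∑' t, ta a' u * ta t u * ta z t * (al u0 t * be w0 u) ≤
      (a + c) * (b + d) * (Z + be w0 a' * Za + al u0 z * Zb + al u0 z * be w0 a' * T) := by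
  calc ∑' u, ∑' t, ta a' u * ta t u * ta z t * (al u0 t * be w0 u)
      ≤ ∑' u, ∑' t, (a + c) * (b + d) * (wt be ta a' u * ta u t * wt al ta t z
          + be w0 a' * (wt kone ta a' u * ta u t * wt al ta t z)
          + al u0 z * (wt be ta a' u * ta u t * wt kone ta t z)
          + al u0 z * be w0 a' * (ta a' u * ta u t * ta t z)) := by
        refine ENNReal.tsum_le_tsum fun u => ENNReal.tsum_le_tsum fun t => ?_
        calc _ ≤ ta a' u * ta t u * ta z t *
              (((a + c) * (al z t + al u0 z)) * ((b + d) * (be a' u + be w0 a'))) :=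
              mul_le_mul' le_rfl (mul_le_mul' (ha.le u0 z t) (hb.le w0 a' u))
          _ = _ := by
              rw [wt_kone, wt_apply, wt_apply, hs t u, hs z t, ha.symm z t]
              ring
    _ = (a + c) * (b + d) * (ch3 (wt be ta) ta (wt al ta) a' z
          + be w0 a' * ch3 (wt kone ta) ta (wt al ta) a' z
          + al u0 z * ch3 (wt be ta) ta (wt kone ta) a' z
          + al u0 z * be w0 a' * ch3 ta ta ta a' z) := by
        rw [ch3_apply, ch3_apply, ch3_apply, ch3_apply]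
        simp only [← ENNReal.tsum_mul_left, ← ENNReal.tsum_add]
    _ ≤ _ := mul_le_mul' le_rfl (add_le_add (add_le_add (add_le_add (H.z3 a' z)
          (mul_le_mul' le_rfl (Ha.z3 a' z))) (mul_le_mul' le_rfl (Hb.z3 a' z)))
          (mul_le_mul' le_rfl (hT a' z)))

/-- case 4 -/
theorem lev4 {ta P al be : V → V → ℝ≥0∞} {a c b d Ya Za Yb Zb Y Z T q : ℝ≥0∞}
    (hs : ∀ x y, ta x y = ta y x) (h1 : ∀ x, 1 ≤ ta x x) (ha : Wgt al a c) (hb : Wgt be b d)
    (hT : ∀ x y, ch3 ta ta ta x y ≤ T) (hq : ∀ x y, ch3 (mm P ta) ta ta x y ≤ q)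
    (Ha : LBd ta P al kone Ya Za) (Hb : LBd ta P kone be Yb Zb)
    (H : LBd ta P al be Y Z) (u0 w0 : V) :
    LV ta P (cs4 ta) (fun t u => al u0 t * be w0 u) u0 w0 ≤
      (a + c) * (b + d) * (Z * q + Za * Yb + Zb * Ya + T * Y) := by
  rw [LV_cs4]
  calc ∑' z, ∑' a', mm P ta u0 z * ta z a' * ta w0 a' *
        ∑' u, ∑' t, ta a' u * ta t u * ta z t * (al u0 t * be w0 u)
      ≤ ∑' z, ∑' a', (a + c) * (b + d) * (Z * (mm P ta u0 z * ta z a' * ta a' w0)
          + Za * (wt kone (mm P ta) u0 z * ta z a' * wt be ta a' w0)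
          + Zb * (wt al (mm P ta) u0 z * ta z a' * wt kone ta a' w0)
          + T * (wt al (mm P ta) u0 z * ta z a' * wt be ta a' w0)) := by
        refine ENNReal.tsum_le_tsum fun z => ENNReal.tsum_le_tsum fun a' => ?_
        calc _ ≤ mm P ta u0 z * ta z a' * ta w0 a' * ((a + c) * (b + d) *
              (Z + be w0 a' * Za + al u0 z * Zb + al u0 z * be w0 a' * T)) :=
              mul_le_mul' le_rfl (inner4 hs ha hb hT Ha Hb H u0 w0 a' z)
          _ = _ := by
              rw [wt_kone, wt_kone, wt_apply, wt_apply, hs w0 a', hb.symm w0 a']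
              ring
    _ = (a + c) * (b + d) * (Z * ch3 (mm P ta) ta ta u0 w0
          + Za * ch3 (wt kone (mm P ta)) ta (wt be ta) u0 w0
          + Zb * ch3 (wt al (mm P ta)) ta (wt kone ta) u0 w0
          + T * ch3 (wt al (mm P ta)) ta (wt be ta) u0 w0) := by
        rw [ch3_apply, ch3_apply, ch3_apply, ch3_apply]
        simp only [← ENNReal.tsum_mul_left, ← ENNReal.tsum_add]
    _ ≤ _ := mul_le_mul' le_rfl (add_le_add (add_le_add (add_le_add
          (mul_le_mul' le_rfl (hq u0 w0)) (mul_le_mul' le_rfl (Hb.y3 h1 u0 w0)))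
          (mul_le_mul' le_rfl (Ha.y3 h1 u0 w0))) (mul_le_mul' le_rfl (H.y3 h1 u0 w0)))

/-- case 3: the weight `al` travels to `u`, the weight `be` travels to `t` -/
theorem lev3 {ta P al be : V → V → ℝ≥0∞} {a c b d Ya Za Yb Zb Y Z T q : ℝ≥0∞}
    (hs : ∀ x y, ta x y = ta y x) (h1 : ∀ x, 1 ≤ ta x x) (ha : Wgt al a c) (hb : Wgt be b d)
    (hT : ∀ x y, ch3 ta ta ta x y ≤ T) (hq : ∀ x y, ch3 (mm P ta) ta ta x y ≤ q)
    (Ha : LBd ta P al kone Ya Za) (Hb : LBd ta P kone be Yb Zb)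
    (H : LBd ta P al be Y Z) (u0 w0 : V) :
    LV ta P (cs3 ta) (fun t u => al u0 u * be w0 t) u0 w0 ≤
      (a + c) * (b + d) * (Z * q + Za * Yb + Zb * Ya + T * Y) := by
  rw [LV_cs3 ta P hs]
  exact lev4 hs h1 ha hb hT hq Ha Hb H u0 w0

/-- common bound of the four cases -/
noncomputable def WB (T q Ya Za Yb Zb Y Z : ℝ≥0∞) : ℝ≥0∞ := 2 * (Zb * Ya + T * Y) + (Z * q + Za * Yb)

/-- the sum over one level before the recursion: the weights `f`, `g` on the whole -/
theorem NN_succ_le {ta P f g : V → V → ℝ≥0∞} {a1 c1 a2 c2 : ℝ≥0∞} {n : ℕ} (u0 w0 : V)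
    (hf : QT f a1 c1) (hg : QT g a2 c2) :
    ∑' v, ∑' a, P u0 v * ta w0 a * KK ta P (fun x => f u0 x * g w0 x) (n + 1) v a ≤
      (LV ta P (cs1 ta) (fun t u => a1 * a2 * NN ta P g f n + a1 * c2 * g w0 u * NN ta P kone f n
        + c1 * a2 * f u0 t * NN ta P g kone n + c1 * c2 * (f u0 t * g w0 u) * NN ta P kone kone n) u0 w0
      + LV ta P (cs2 ta) (fun t u => a1 * a2 * NN ta P g f n + a1 * c2 * g w0 u * NN ta P kone f n
        + c1 * a2 * f u0 t * NN ta P g kone n + c1 * c2 * (f u0 t * g w0 u) * NN ta P kone kone n) u0 w0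
      + LV ta P (cs3 ta) (fun t u => a1 * a2 * NN ta P f g n + a1 * c2 * g w0 t * NN ta P f kone n
        + c1 * a2 * f u0 u * NN ta P kone g n + c1 * c2 * (f u0 u * g w0 t) * NN ta P kone kone n) u0 w0
      + LV ta P (cs4 ta) (fun t u => a1 * a2 * NN ta P g f n + a1 * c2 * g w0 u * NN ta P kone f n
        + c1 * a2 * f u0 t * NN ta P g kone n + c1 * c2 * (f u0 t * g w0 u) * NN ta P kone kone n) u0 w0) := by
  unfold LV
  simp only [← ENNReal.tsum_add]
  refine ENNReal.tsum_le_tsum fun v => ENNReal.tsum_le_tsum fun a => ?_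
  rw [KK_succ', ← ENNReal.tsum_mul_left]
  refine ENNReal.tsum_le_tsum fun z => ?_
  rw [← ENNReal.tsum_mul_left]
  refine ENNReal.tsum_le_tsum fun t => ?_
  rw [← ENNReal.tsum_mul_left]
  refine ENNReal.tsum_le_tsum fun u => ?_
  have hA := PT_A (ta := ta) (P := P) hf hg n u0 w0 t u
  have hB := PT_B (ta := ta) (P := P) hf hg n u0 w0 t u
  calc P u0 v * ta w0 a * ((cs1 ta v a z t u + cs2 ta v a z t u + cs3 ta v a z t u + cs4 ta v a z t u)
        * FF ta P (fun x => f u0 x * g w0 x) n t u)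
      = P u0 v * ta w0 a * (cs1 ta v a z t u * FF ta P (fun x => f u0 x * g w0 x) n t u)
        + P u0 v * ta w0 a * (cs2 ta v a z t u * FF ta P (fun x => f u0 x * g w0 x) n t u)
        + P u0 v * ta w0 a * (cs3 ta v a z t u * FF ta P (fun x => f u0 x * g w0 x) n t u)
        + P u0 v * ta w0 a * (cs4 ta v a z t u * FF ta P (fun x => f u0 x * g w0 x) n t u) := by ring
    _ ≤ _ := add_le_add (add_le_add (add_le_add
          (mul_le_mul' le_rfl (mul_le_mul' le_rfl hA)) (mul_le_mul' le_rfl (mul_le_mul' le_rfl hA)))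
          (mul_le_mul' le_rfl (mul_le_mul' le_rfl hB))) (mul_le_mul' le_rfl (mul_le_mul' le_rfl hA))

end IPC
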