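import Pool.Agent.Lib.MP_25e40f_pr.C.Kalg

/-!
# MP_25e40f_pr, stream C: the kernels `K_n[w]` are linear and increasing in the weight `w`
-/

set_option autoImplicit false

open scoped ENNReal

namespace IPC

variable {V : Type}

/-- what is behind one level: `sum_{a2, v2} ta(t,a2) P(u,v2) K_n[w](v2,a2)` -/
noncomputable def FF (ta P : V → V → ℝ≥0∞) (w : V → ℝ≥0∞) (n : ℕ) (t u : V) : ℝ≥0∞ :=
  ∑' a2, ∑' v2, ta t a2 * P u v2 * KK ta P w n v2 a2

/-- the four cases of one level -/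
noncomputable def cs1 (ta : V → V → ℝ≥0∞) (v a z t u : V) : ℝ≥0∞ :=
  ta v t * ta t z * ta z a * ta a u * ta z u

noncomputable def cs2 (ta : V → V → ℝ≥0∞) (v a z t u : V) : ℝ≥0∞ :=
  ta v z * ta z t * ta t a * ta a u * ta z u

noncomputable def cs3 (ta : V → V → ℝ≥0∞) (v a z t u : V) : ℝ≥0∞ :=
  ta v z * ta z a * ta a t * ta t u * ta z u

noncomputable def cs4 (ta : V → V → ℝ≥0∞) (v a z t u : V) : ℝ≥0∞ :=
  ta v z * ta z a * ta a u * ta z t * ta t u

theorem KK_succ' (ta P : V → V → ℝ≥0∞) (w : V → ℝ≥0∞) (n : ℕ) (v a : V) :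
    KK ta P w (n + 1) v a = ∑' z, ∑' t, ∑' u,
      (cs1 ta v a z t u + cs2 ta v a z t u + cs3 ta v a z t u + cs4 ta v a z t u) * FF ta P w n t u := by
  rw [KK_succ]
  refine tsum_congr fun z => tsum_congr fun t => tsum_congr fun u => ?_
  unfold FF
  rw [← ENNReal.tsum_mul_left]
  refine tsum_congr fun a2 => ?_
  rw [← ENNReal.tsum_mul_left]
  refine tsum_congr fun v2 => ?_
  unfold diag cs1 cs2 cs3 cs4
  ring

theorem KS_eq (ta P : V → V → ℝ≥0∞) (w : V → ℝ≥0∞) (n : ℕ) (x y : V) :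
    KS ta P w n x y = ∑' t, ∑' u,
      (ta x t * ta t u * ta y u + ta x u * ta y t * ta t u) * FF ta P w n t u := by
  unfold KS FF
  refine tsum_congr fun t => tsum_congr fun u => ?_
  rw [← ENNReal.tsum_mul_left]
  refine tsum_congr fun a2 => ?_
  rw [← ENNReal.tsum_mul_left]
  refine tsum_congr fun v2 => ?_
  ring

theorem FF_mono_of {ta P : V → V → ℝ≥0∞} {w w' : V → ℝ≥0∞} {n : ℕ}
    (h : ∀ v a, KK ta P w n v a ≤ KK ta P w' n v a) (t u : V) :
    FF ta P w n t u ≤ FF ta P w' n t u :=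
  ENNReal.tsum_le_tsum fun a2 => ENNReal.tsum_le_tsum fun v2 => mul_le_mul' le_rfl (h v2 a2)

theorem KK_mono {ta P : V → V → ℝ≥0∞} {w w' : V → ℝ≥0∞} (h : ∀ x, w x ≤ w' x) (n : ℕ) (v a : V) :
    KK ta P w n v a ≤ KK ta P w' n v a := by
  induction n generalizing v a with
  | zero =>
    exact ENNReal.tsum_le_tsum fun z => ENNReal.tsum_le_tsum fun u => mul_le_mul' le_rfl (h u)
  | succ n ih =>
    rw [KK_succ', KK_succ']
    exact ENNReal.tsum_le_tsum fun z => ENNReal.tsum_le_tsum fun t => ENNReal.tsum_le_tsum fun u =>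
      mul_le_mul' le_rfl (FF_mono_of (fun v a => ih v a) t u)

theorem FF_mono {ta P : V → V → ℝ≥0∞} {w w' : V → ℝ≥0∞} (h : ∀ x, w x ≤ w' x) (n : ℕ) (t u : V) :
    FF ta P w n t u ≤ FF ta P w' n t u :=
  FF_mono_of (KK_mono h n) t u

theorem KK_add (ta P : V → V → ℝ≥0∞) (w w' : V → ℝ≥0∞) (n : ℕ) (v a : V) :
    KK ta P (fun x => w x + w' x) n v a = KK ta P w n v a + KK ta P w' n v a := by
  induction n generalizing v a with
  | zero =>
    rw [KK_zero, KK_zero, KK_zero, ← ENNReal.tsum_add]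
    refine tsum_congr fun z => ?_
    rw [← ENNReal.tsum_add]
    exact tsum_congr fun u => mul_add _ _ _
  | succ n ih =>
    rw [KK_succ, KK_succ, KK_succ, ← ENNReal.tsum_add]
    refine tsum_congr fun z => ?_
    rw [← ENNReal.tsum_add]
    refine tsum_congr fun t => ?_
    rw [← ENNReal.tsum_add]
    refine tsum_congr fun u => ?_
    rw [← ENNReal.tsum_add]
    refine tsum_congr fun a2 => ?_
    rw [← ENNReal.tsum_add]
    refine tsum_congr fun v2 => ?_
    rw [ih, mul_add]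

theorem KK_mul (ta P : V → V → ℝ≥0∞) (c : ℝ≥0∞) (w : V → ℝ≥0∞) (n : ℕ) (v a : V) :
    KK ta P (fun x => c * w x) n v a = c * KK ta P w n v a := by
  induction n generalizing v a with
  | zero =>
    rw [KK_zero, KK_zero, ← ENNReal.tsum_mul_left]
    refine tsum_congr fun z => ?_
    rw [← ENNReal.tsum_mul_left]
    exact tsum_congr fun u => by ring
  | succ n ih =>
    rw [KK_succ, KK_succ, ← ENNReal.tsum_mul_left]
    refine tsum_congr fun z => ?_
    rw [← ENNReal.tsum_mul_left]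
    refine tsum_congr fun t => ?_
    rw [← ENNReal.tsum_mul_left]
    refine tsum_congr fun u => ?_
    rw [← ENNReal.tsum_mul_left]
    refine tsum_congr fun a2 => ?_
    rw [← ENNReal.tsum_mul_left]
    refine tsum_congr fun v2 => ?_
    rw [ih]
    ring

theorem FF_add (ta P : V → V → ℝ≥0∞) (w w' : V → ℝ≥0∞) (n : ℕ) (t u : V) :
    FF ta P (fun x => w x + w' x) n t u = FF ta P w n t u + FF ta P w' n t u := by
  unfold FF
  rw [← ENNReal.tsum_add]
  refine tsum_congr fun a2 => ?_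
  rw [← ENNReal.tsum_add]
  refine tsum_congr fun v2 => ?_
  rw [KK_add, mul_add]

theorem FF_mul (ta P : V → V → ℝ≥0∞) (c : ℝ≥0∞) (w : V → ℝ≥0∞) (n : ℕ) (t u : V) :
    FF ta P (fun x => c * w x) n t u = c * FF ta P w n t u := by
  unfold FF
  rw [← ENNReal.tsum_mul_left]
  refine tsum_congr fun a2 => ?_
  rw [← ENNReal.tsum_mul_left]
  refine tsum_congr fun v2 => ?_
  rw [KK_mul]
  ring

/-- the norms with two weights -/
noncomputable def NN (ta P f g : V → V → ℝ≥0∞) (n : ℕ) : ℝ≥0∞ :=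
  ⨆ u0, ⨆ w0, ∑' v, ∑' a, P u0 v * ta w0 a * KK ta P (fun x => f u0 x * g w0 x) n v a

theorem FF_le_NN (ta P f g : V → V → ℝ≥0∞) (n : ℕ) (t u : V) :
    FF ta P (fun x => f u x * g t x) n t u ≤ NN ta P f g n := by
  refine le_trans (le_of_eq ?_) (le_iSup_of_le u (le_iSup (fun w0 => ∑' v, ∑' a,
    P u v * ta w0 a * KK ta P (fun x => f u x * g w0 x) n v a) t))
  unfold FF
  rw [ENNReal.tsum_comm]
  exact tsum_congr fun v => tsum_congr fun a => by ring

theorem NN_le {ta P f g : V → V → ℝ≥0∞} {n : ℕ} {X : ℝ≥0∞}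
    (h : ∀ u0 w0, ∑' v, ∑' a, P u0 v * ta w0 a * KK ta P (fun x => f u0 x * g w0 x) n v a ≤ X) :
    NN ta P f g n ≤ X :=
  iSup_le fun u0 => iSup_le fun w0 => h u0 w0

/-- weights handed over to the next level, first type: `f` travels `p → t`, `g` travels `q → u` -/
theorem PT_A {ta P f g : V → V → ℝ≥0∞} {a1 c1 a2 c2 : ℝ≥0∞} (hf : QT f a1 c1) (hg : QT g a2 c2)
    (n : ℕ) (p q t u : V) :
    FF ta P (fun x => f p x * g q x) n t u ≤
      a1 * a2 * NN ta P g f n + a1 * c2 * g q u * NN ta P kone f n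
        + c1 * a2 * f p t * NN ta P g kone n + c1 * c2 * (f p t * g q u) * NN ta P kone kone n := by
  have h1 : ∀ x, f p x * g q x ≤ (a1 * a2 * (g u x * f t x) + a1 * c2 * g q u * (kone u x * f t x))
      + (c1 * a2 * f p t * (g u x * kone t x) + c1 * c2 * (f p t * g q u) * (kone u x * kone t x)) := by
    intro x
    calc f p x * g q x ≤ (a1 * f t x + c1 * f p t) * (a2 * g u x + c2 * g q u) :=
          mul_le_mul' (hf p t x) (hg q u x)
      _ = _ := by
          simp only [kone]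
          ring
  refine (FF_mono h1 n t u).trans ?_
  rw [FF_add, FF_add, FF_add, FF_mul, FF_mul, FF_mul, FF_mul]
  have e1 := FF_le_NN ta P g f n t u
  have e2 := FF_le_NN ta P kone f n t u
  have e3 := FF_le_NN ta P g kone n t u
  have e4 := FF_le_NN ta P kone kone n t u
  calc _ ≤ (a1 * a2 * NN ta P g f n + a1 * c2 * g q u * NN ta P kone f n)
        + (c1 * a2 * f p t * NN ta P g kone n + c1 * c2 * (f p t * g q u) * NN ta P kone kone n) :=
        add_le_add (add_le_add (mul_le_mul' le_rfl e1) (mul_le_mul' le_rfl e2))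
          (add_le_add (mul_le_mul' le_rfl e3) (mul_le_mul' le_rfl e4))
    _ = _ := by ring

/-- second type: `f` travels `p → u`, `g` travels `q → t` -/
theorem PT_B {ta P f g : V → V → ℝ≥0∞} {a1 c1 a2 c2 : ℝ≥0∞} (hf : QT f a1 c1) (hg : QT g a2 c2)
    (n : ℕ) (p q t u : V) :
    FF ta P (fun x => f p x * g q x) n t u ≤
      a1 * a2 * NN ta P f g n + a1 * c2 * g q t * NN ta P f kone n
        + c1 * a2 * f p u * NN ta P kone g n + c1 * c2 * (f p u * g q t) * NN ta P kone kone n := by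
  have h := PT_A (ta := ta) (P := P) hg hf n q p t u
  have e : (fun x => f p x * g q x) = fun x => g q x * f p x := by
    funext x
    exact mul_comm _ _
  rw [e]
  refine h.trans (le_of_eq ?_)
  ring

end IPC
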