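import Pool.Agent.Lib.MP_25e40f_pr.C.Krec

/-!
# MP_25e40f_pr, stream C: geometric bounds, no weight and one weight
-/

set_option autoImplicit false
set_option linter.unusedVariables false

open scoped ENNReal

namespace IPC

variable {V : Type}

/-- the start of a diagram: `sum (ta(x,t) ta(t,u) ta(y,u) + ta(x,u) ta(y,t) ta(t,u)) FF(t,u)` with weights -/
theorem KS_le {ta P f g : V → V → ℝ≥0∞} {a1 c1 a2 c2 Z11 Z1g Zf1 Zfg : ℝ≥0∞} (n : ℕ) (x y : V)
    (hs : ∀ x y, ta x y = ta y x) (hf : QT f a1 c1) (hg : QT g a2 c2)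
    (sg : ∀ x y, g x y = g y x)
    (h11 : ch3 ta ta ta x y ≤ Z11) (h1g : ch3 ta ta (wt g ta) x y ≤ Z1g)
    (hf1 : ch3 (wt f ta) ta ta x y ≤ Zf1) (hfg : ch3 (wt f ta) ta (wt g ta) x y ≤ Zfg) :
    KS ta P (fun X => f x X * g y X) n x y ≤
      a1 * a2 * Z11 * (NN ta P g f n + NN ta P f g n)
      + a1 * c2 * Z1g * (NN ta P kone f n + NN ta P f kone n)
      + c1 * a2 * Zf1 * (NN ta P g kone n + NN ta P kone g n)
      + c1 * c2 * Zfg * (2 * NN ta P kone kone n) := by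
  have eA : ∑' t, ∑' u, ta x t * ta t u * ta y u * FF ta P (fun X => f x X * g y X) n t u ≤
      a1 * a2 * NN ta P g f n * Z11 + a1 * c2 * NN ta P kone f n * Z1g
      + c1 * a2 * NN ta P g kone n * Zf1 + c1 * c2 * NN ta P kone kone n * Zfg := by
    calc _ ≤ ∑' t, ∑' u, (a1 * a2 * NN ta P g f n * (ta x t * ta t u * ta u y)
          + a1 * c2 * NN ta P kone f n * (ta x t * ta t u * wt g ta u y)
          + c1 * a2 * NN ta P g kone n * (wt f ta x t * ta t u * ta u y)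
          + c1 * c2 * NN ta P kone kone n * (wt f ta x t * ta t u * wt g ta u y)) := by
          refine ENNReal.tsum_le_tsum fun t => ENNReal.tsum_le_tsum fun u => ?_
          refine (mul_le_mul' le_rfl (PT_A (ta := ta) (P := P) hf hg n x y t u)).trans (le_of_eq ?_)
          rw [wt_apply, wt_apply, hs y u, sg y u]
          ring
      _ = a1 * a2 * NN ta P g f n * ch3 ta ta ta x y + a1 * c2 * NN ta P kone f n * ch3 ta ta (wt g ta) x y
          + c1 * a2 * NN ta P g kone n * ch3 (wt f ta) ta ta x y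
          + c1 * c2 * NN ta P kone kone n * ch3 (wt f ta) ta (wt g ta) x y := by
          rw [ch3_apply, ch3_apply, ch3_apply, ch3_apply]
          simp only [← ENNReal.tsum_mul_left, ← ENNReal.tsum_add]
      _ ≤ _ := add_le_add (add_le_add (add_le_add (mul_le_mul' le_rfl h11) (mul_le_mul' le_rfl h1g))
          (mul_le_mul' le_rfl hf1)) (mul_le_mul' le_rfl hfg)
  have eB : ∑' t, ∑' u, ta x u * ta y t * ta t u * FF ta P (fun X => f x X * g y X) n t u ≤
      a1 * a2 * NN ta P f g n * Z11 + a1 * c2 * NN ta P f kone n * Z1g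
      + c1 * a2 * NN ta P kone g n * Zf1 + c1 * c2 * NN ta P kone kone n * Zfg := by
    rw [ENNReal.tsum_comm]
    calc _ ≤ ∑' u, ∑' t, (a1 * a2 * NN ta P f g n * (ta x u * ta u t * ta t y)
          + a1 * c2 * NN ta P f kone n * (ta x u * ta u t * wt g ta t y)
          + c1 * a2 * NN ta P kone g n * (wt f ta x u * ta u t * ta t y)
          + c1 * c2 * NN ta P kone kone n * (wt f ta x u * ta u t * wt g ta t y)) := by
          refine ENNReal.tsum_le_tsum fun u => ENNReal.tsum_le_tsum fun t => ?_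
          refine (mul_le_mul' le_rfl (PT_B (ta := ta) (P := P) hf hg n x y t u)).trans (le_of_eq ?_)
          rw [wt_apply, wt_apply, hs y t, sg y t, hs t u]
          ring
      _ = a1 * a2 * NN ta P f g n * ch3 ta ta ta x y + a1 * c2 * NN ta P f kone n * ch3 ta ta (wt g ta) x y
          + c1 * a2 * NN ta P kone g n * ch3 (wt f ta) ta ta x y
          + c1 * c2 * NN ta P kone kone n * ch3 (wt f ta) ta (wt g ta) x y := by
          rw [ch3_apply, ch3_apply, ch3_apply, ch3_apply]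
          simp only [← ENNReal.tsum_mul_left, ← ENNReal.tsum_add]
      _ ≤ _ := add_le_add (add_le_add (add_le_add (mul_le_mul' le_rfl h11) (mul_le_mul' le_rfl h1g))
          (mul_le_mul' le_rfl hf1)) (mul_le_mul' le_rfl hfg)
  rw [KS_eq]
  calc _ = (∑' t, ∑' u, ta x t * ta t u * ta y u * FF ta P (fun X => f x X * g y X) n t u)
        + ∑' t, ∑' u, ta x u * ta y t * ta t u * FF ta P (fun X => f x X * g y X) n t u := by
        rw [← ENNReal.tsum_add]
        refine tsum_congr fun t => ?_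
        rw [← ENNReal.tsum_add]
        exact tsum_congr fun u => by ring
    _ ≤ _ := add_le_add eA eB
    _ = _ := by ring

namespace Ker

variable {ta P : V → V → ℝ≥0∞} {q : ℝ≥0∞}

theorem q_le (hq : 1000 * q ≤ 1) (k : ℝ≥0∞) (hk : k ≤ 1000) : k * q ≤ 1 :=
  (mul_le_mul' hk le_rfl).trans hq

theorem tri2 (h : Ker ta P q) (hq : 1000 * q ≤ 1) (x y : V) : ch3 ta ta ta x y ≤ 2 := by
  refine (h.tri x y).trans ?_
  calc 1 + 2 * q ≤ 1 + 1 := add_le_add le_rfl (q_le hq 2 (by norm_num))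
    _ = 2 := by norm_num

theorem lbd11 (h : Ker ta P q) (hq : 1000 * q ≤ 1) : LBd ta P kone kone q 2 := by
  refine ⟨fun x y => ?_, fun x y => ?_, fun x y => ?_⟩
  · rw [wt_kone, wt_kone]
    exact h.q4 x y
  · rw [wt_kone]
    exact h.q4 x y
  · rw [wt_kone]
    exact h.tri2 hq x y

theorem lev11 (h : Ker ta P q) (hq : 1000 * q ≤ 1) : LevBd ta P kone kone (12 * q) := by
  have e := LevBd_of h.symm h.one_le Wgt_kone Wgt_kone (h.tri2 hq) h.t3 (h.lbd11 hq) (h.lbd11 hq)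
    (h.lbd11 hq)
  have e2 : ((1 : ℝ≥0∞) + 0) * (1 + 0) * WB 2 q q 2 q 2 q 2 = 12 * q := by
    unfold WB
    ring
  rw [e2] at e
  exact e

/-- no weight: `2^n N_n(1,1) ≤ 12 q` -/
theorem NN11 (h : Ker ta P q) (hq : 1000 * q ≤ 1) (n : ℕ) : 2 ^ n * NN ta P kone kone n ≤ 12 * q := by
  have l := h.lev11 hq
  refine seq_bd (x := fun n => 2 ^ n * NN ta P kone kone n) (k := 96 * q) (r := 0) ?_ (by simp) ?_ ?_ n
  · simpa using NN_zero h.one l
  · calc 2 * (96 * q) = 192 * q := by ring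
      _ ≤ 1 := q_le hq _ (by norm_num)
  · intro n
    have e := NN_rec n QT_kone QT_kone l l l l
    calc 2 ^ (n + 1) * NN ta P kone kone (n + 1) ≤ 2 ^ (n + 1) * _ := mul_le_mul' le_rfl e
      _ = 96 * q * (2 ^ n * NN ta P kone kone n) + 0 := by ring

theorem lev1f (h : Ker ta P q) (hq : 1000 * q ≤ 1) {f : V → V → ℝ≥0∞} {a c X : ℝ≥0∞} (hf : Wgt f a c)
    (H2 : LBd ta P kone f X X) : LevBd ta P kone f (7 * ((a + c) * X)) := by
  have e := LevBd_of h.symm h.one_le Wgt_kone hf (h.tri2 hq) h.t3 (h.lbd11 hq) H2 H2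
  have e2 : ((1 : ℝ≥0∞) + 0) * (a + c) * WB 2 q q 2 X X X X ≤ 7 * ((a + c) * X) := by
    unfold WB
    calc ((1 : ℝ≥0∞) + 0) * (a + c) * (2 * (X * q + 2 * X) + (X * q + 2 * X))
        = (6 + 3 * q) * ((a + c) * X) := by ring
      _ ≤ (6 + 1) * ((a + c) * X) :=
          mul_le_mul' (add_le_add le_rfl (q_le hq 3 (by norm_num))) le_rfl
      _ = _ := by norm_num
  exact ⟨fun u w => (e.l1 u w).trans e2, fun u w => (e.l2 u w).trans e2,
    fun u w => (e.l3 u w).trans e2, fun u w => (e.l4 u w).trans e2⟩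

theorem levf1 (h : Ker ta P q) (hq : 1000 * q ≤ 1) {f : V → V → ℝ≥0∞} {a c X : ℝ≥0∞} (hf : Wgt f a c)
    (H1 : LBd ta P f kone X X) : LevBd ta P f kone (9 * ((a + c) * X)) := by
  have e := LevBd_of h.symm h.one_le hf Wgt_kone (h.tri2 hq) h.t3 H1 (h.lbd11 hq) H1
  have e2 : (a + c) * ((1 : ℝ≥0∞) + 0) * WB 2 q X X q 2 X X ≤ 9 * ((a + c) * X) := by
    unfold WB
    calc (a + c) * ((1 : ℝ≥0∞) + 0) * (2 * (2 * X + 2 * X) + (X * q + X * q))
        = (8 + 2 * q) * ((a + c) * X) := by ring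
      _ ≤ (8 + 1) * ((a + c) * X) :=
          mul_le_mul' (add_le_add le_rfl (q_le hq 2 (by norm_num))) le_rfl
      _ = _ := by norm_num
  exact ⟨fun u w => (e.l1 u w).trans e2, fun u w => (e.l2 u w).trans e2,
    fun u w => (e.l3 u w).trans e2, fun u w => (e.l4 u w).trans e2⟩

/-- one weight: `2^n (N_n(f,1) + N_n(1,f)) ≤ (16 + 4c)(a + c) X` -/
theorem NNf (h : Ker ta P q) (hq : 1000 * q ≤ 1) {f : V → V → ℝ≥0∞} {a c X : ℝ≥0∞} (hf : Wgt f a c)
    (hqa : 1000 * (a * q) ≤ 1) (H1 : LBd ta P f kone X X) (H2 : LBd ta P kone f X X) (n : ℕ) :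
    2 ^ n * (NN ta P f kone n + NN ta P kone f n) ≤ (16 + 4 * c) * ((a + c) * X) := by
  have l := h.lev11 hq
  have lf := h.levf1 hq hf H1
  have fl := h.lev1f hq hf H2
  refine seq_bd (x := fun n => 2 ^ n * (NN ta P f kone n + NN ta P kone f n)) (k := 96 * (a * q))
    (r := 128 * c * ((a + c) * X) * (12 * q)) ?_ ?_ ?_ ?_ n
  · calc 2 ^ 0 * (NN ta P f kone 0 + NN ta P kone f 0)
        ≤ 9 * ((a + c) * X) + 7 * ((a + c) * X) := by
          rw [pow_zero, one_mul]
          exact add_le_add (NN_zero h.one lf) (NN_zero h.one fl)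
      _ = 16 * ((a + c) * X) := by ring
      _ ≤ _ := mul_le_mul' le_self_add le_rfl
  · calc 2 * (128 * c * ((a + c) * X) * (12 * q)) = (4 * c * ((a + c) * X)) * (768 * q) := by ring
      _ ≤ (4 * c * ((a + c) * X)) * 1 := mul_le_mul' le_rfl (q_le hq _ (by norm_num))
      _ = 4 * c * ((a + c) * X) := mul_one _
      _ ≤ _ := mul_le_mul' le_add_self le_rfl
  · calc 2 * (96 * (a * q)) = 192 * (a * q) := by ring
      _ ≤ 1000 * (a * q) := mul_le_mul' (by norm_num) le_rfl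
      _ ≤ 1 := hqa
  · intro n
    have e1 := NN_rec n hf.qt QT_kone l l lf lf
    have e2 := NN_rec n QT_kone hf.qt l fl l fl
    have e3 := h.NN11 hq n
    calc 2 ^ (n + 1) * (NN ta P f kone (n + 1) + NN ta P kone f (n + 1))
        ≤ 2 ^ (n + 1) * (_ + _) := mul_le_mul' le_rfl (add_le_add e1 e2)
      _ = 96 * (a * q) * (2 ^ n * (NN ta P f kone n + NN ta P kone f n))
          + 128 * c * ((a + c) * X) * (2 ^ n * NN ta P kone kone n) := by ring
      _ ≤ _ := add_le_add le_rfl (mul_le_mul' le_rfl e3)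

/-- **C3**: no weight, start point `x` -/
theorem KS_one (h : Ker ta P q) (hq : 1000 * q ≤ 1) (n : ℕ) (x y : V) :
    2 ^ n * KS ta P (fun _ => 1) n x y ≤ 48 * q := by
  have e := KS_le (P := P) (Z11 := 2) (Z1g := 2) (Zf1 := 2) (Zfg := 2) n x y h.symm QT_kone QT_kone
    (fun _ _ => rfl) (h.tri2 hq x y) (by rw [wt_kone]; exact h.tri2 hq x y)
    (by rw [wt_kone]; exact h.tri2 hq x y) (by rw [wt_kone]; exact h.tri2 hq x y)
  have e0 : (fun X => kone x X * kone y X) = fun _ : V => (1 : ℝ≥0∞) := by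
    funext X
    simp [kone]
  rw [e0] at e
  calc 2 ^ n * KS ta P (fun _ => 1) n x y ≤ 2 ^ n * _ := mul_le_mul' le_rfl e
    _ = 4 * (2 ^ n * NN ta P kone kone n) := by ring
    _ ≤ 4 * (12 * q) := mul_le_mul' le_rfl (h.NN11 hq n)
    _ = 48 * q := by ring

/-- **C4**, one weight -/
theorem KS_wt (h : Ker ta P q) (hq : 1000 * q ≤ 1) {f : V → V → ℝ≥0∞} {a c X : ℝ≥0∞} (hf : Wgt f a c)
    (hqa : 1000 * (a * q) ≤ 1) (H1 : LBd ta P f kone X X) (H2 : LBd ta P kone f X X) (n : ℕ) (x y : V) :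
    2 ^ n * KS ta P (fun X => f x X) n x y ≤ (2 * a * (16 + 4 * c) * (a + c) + c) * X := by
  have z : ∀ x y, ch3 (wt f ta) ta ta x y ≤ X := fun x y => by
    have := H2.z3 x y
    rwa [wt_kone] at this
  have e := KS_le (P := P) (g := kone) (a2 := 1) (c2 := 0) (Z11 := 2) (Z1g := 2) (Zf1 := X) (Zfg := X)
    n x y h.symm hf.qt QT_kone (fun _ _ => rfl) (h.tri2 hq x y)
    (by rw [wt_kone]; exact h.tri2 hq x y) (z x y) (by rw [wt_kone]; exact z x y)
  have e0 : (fun X => f x X * kone y X) = fun X : V => f x X := by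
    funext X
    simp [kone]
  rw [e0] at e
  calc 2 ^ n * KS ta P (fun X => f x X) n x y ≤ 2 ^ n * _ := mul_le_mul' le_rfl e
    _ = 2 * a * (2 ^ n * (NN ta P f kone n + NN ta P kone f n))
        + 2 * c * X * (2 ^ n * NN ta P kone kone n) := by ring
    _ ≤ 2 * a * ((16 + 4 * c) * ((a + c) * X)) + 2 * c * X * (12 * q) :=
        add_le_add (mul_le_mul' le_rfl (h.NNf hq hf hqa H1 H2 n)) (mul_le_mul' le_rfl (h.NN11 hq n))
    _ = 2 * a * (16 + 4 * c) * (a + c) * X + c * X * (24 * q) := by ring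
    _ ≤ 2 * a * (16 + 4 * c) * (a + c) * X + c * X * 1 :=
        add_le_add le_rfl (mul_le_mul' le_rfl (q_le hq _ (by norm_num)))
    _ = _ := by ring

end Ker

end IPC
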