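import Pool.Agent.Lib.MP_25e40f_pr.C.Kconv

/-!
# MP_25e40f_pr, stream C: the kernels `K_n` at a fixed point `(v, a)`, two weights
-/

set_option autoImplicit false
set_option linter.unusedVariables false

open scoped ENNReal

namespace IPC

variable {V : Type}

/-- the sum over one level at a fixed point -/
noncomputable def PL (c : V → V → V → V → V → ℝ≥0∞) (h : V → V → ℝ≥0∞) (v a : V) : ℝ≥0∞ :=
  ∑' z, ∑' t, ∑' u, c v a z t u * h t u

theorem PL_add (c : V → V → V → V → V → ℝ≥0∞) (h h' : V → V → ℝ≥0∞) (v a : V) :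
    PL c (fun t u => h t u + h' t u) v a = PL c h v a + PL c h' v a := by
  unfold PL
  rw [← ENNReal.tsum_add]
  refine tsum_congr fun z => ?_
  rw [← ENNReal.tsum_add]
  refine tsum_congr fun t => ?_
  rw [← ENNReal.tsum_add]
  exact tsum_congr fun u => mul_add _ _ _

theorem PL_mul (c : V → V → V → V → V → ℝ≥0∞) (k : ℝ≥0∞) (h : V → V → ℝ≥0∞) (v a : V) :
    PL c (fun t u => k * h t u) v a = k * PL c h v a := by
  unfold PL
  rw [← ENNReal.tsum_mul_left]
  refine tsum_congr fun z => ?_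
  rw [← ENNReal.tsum_mul_left]
  refine tsum_congr fun t => ?_
  rw [← ENNReal.tsum_mul_left]
  exact tsum_congr fun u => by ring

/-- all loops with the weights `al` (first path) and `be` (second path) are at most `X` -/
structure PBd (ta al be : V → V → ℝ≥0∞) (X : ℝ≥0∞) : Prop where
  m11 : ∀ x y, mm ta ta x y ≤ X
  ma1 : ∀ x y, mm (wt al ta) ta x y ≤ X
  mb1 : ∀ x y, mm (wt be ta) ta x y ≤ X
  ta11 : ∀ x y, ch3 (wt al ta) ta ta x y ≤ X
  t1a1 : ∀ x y, ch3 ta (wt al ta) ta x y ≤ X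
  tb1a : ∀ x y, ch3 (wt be ta) ta (wt al ta) x y ≤ X
  tb11 : ∀ x y, ch3 (wt be ta) ta ta x y ≤ X

/-- case 1 -/
theorem pl1 {ta al be : V → V → ℝ≥0∞} {X : ℝ≥0∞} (hs : ∀ x y, ta x y = ta y x)
    (H : PBd ta al be X) (v a : V) :
    PL (cs1 ta) (fun t u => al v t * be a u) v a ≤ X * X := by
  calc PL (cs1 ta) (fun t u => al v t * be a u) v a
      = ∑' t, ∑' z, wt al ta v t * ta t z * ta z a * mm (wt be ta) ta a z := by
        unfold PL
        rw [ENNReal.tsum_comm]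
        refine tsum_congr fun t => tsum_congr fun z => ?_
        rw [mm_apply, ← ENNReal.tsum_mul_left]
        refine tsum_congr fun u => ?_
        unfold cs1
        rw [wt_apply, wt_apply, hs z u]
        ring
    _ ≤ ∑' t, ∑' z, wt al ta v t * ta t z * ta z a * X :=
        ENNReal.tsum_le_tsum fun t => ENNReal.tsum_le_tsum fun z => mul_le_mul' le_rfl (H.mb1 a z)
    _ = ch3 (wt al ta) ta ta v a * X := by
        rw [ch3_apply, ← ENNReal.tsum_mul_right]
        refine tsum_congr fun t => ?_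
        rw [ENNReal.tsum_mul_right]
    _ ≤ X * X := mul_le_mul' (H.ta11 v a) le_rfl

/-- case 2 -/
theorem pl2 {ta al be : V → V → ℝ≥0∞} {b c X : ℝ≥0∞} (hs : ∀ x y, ta x y = ta y x)
    (ha : Wgt al b c) (H : PBd ta al be X) (v a : V) :
    PL (cs2 ta) (fun t u => al v t * be a u) v a ≤ (b + c) * (2 * (X * X)) := by
  calc PL (cs2 ta) (fun t u => al v t * be a u) v a
      ≤ ∑' z, ∑' t, (b + c) * (ta v z * wt al ta z t * ta t a * X + wt al ta v z * ta z t * ta t a * X) := by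
        unfold PL
        refine ENNReal.tsum_le_tsum fun z => ENNReal.tsum_le_tsum fun t => ?_
        calc ∑' u, cs2 ta v a z t u * (al v t * be a u)
            = ta v z * ta z t * ta t a * al v t * mm (wt be ta) ta a z := by
              rw [mm_apply, ← ENNReal.tsum_mul_left]
              refine tsum_congr fun u => ?_
              unfold cs2
              rw [wt_apply, hs z u]
              ring
          _ ≤ ta v z * ta z t * ta t a * ((b + c) * (al z t + al v z)) * X :=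
              mul_le_mul' (mul_le_mul' le_rfl (ha.le v z t)) (H.mb1 a z)
          _ = _ := by
              rw [wt_apply, wt_apply]
              ring
    _ = (b + c) * (ch3 ta (wt al ta) ta v a * X + ch3 (wt al ta) ta ta v a * X) := by
        rw [ch3_apply, ch3_apply]
        simp only [← ENNReal.tsum_mul_left, ← ENNReal.tsum_mul_right, ← ENNReal.tsum_add]
    _ ≤ (b + c) * (X * X + X * X) :=
        mul_le_mul' le_rfl (add_le_add (mul_le_mul' (H.t1a1 v a) le_rfl) (mul_le_mul' (H.ta11 v a) le_rfl))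
    _ = _ := by ring

/-- case 4 -/
theorem pl4 {ta al be : V → V → ℝ≥0∞} {b c X : ℝ≥0∞} (hs : ∀ x y, ta x y = ta y x)
    (ha : Wgt al b c) (H : PBd ta al be X) (v a : V) :
    PL (cs4 ta) (fun t u => al v t * be a u) v a ≤ (b + c) * (2 * (X * X)) := by
  calc PL (cs4 ta) (fun t u => al v t * be a u) v a
      ≤ ∑' z, (b + c) * (ta v z * ta z a * X + wt al ta v z * ta z a * X) := by
        unfold PL
        refine ENNReal.tsum_le_tsum fun z => ?_
        calc ∑' t, ∑' u, cs4 ta v a z t u * (al v t * be a u)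
            ≤ ∑' u, ∑' t, (b + c) * (ta v z * ta z a * (wt be ta a u * ta u t * wt al ta t z)
              + wt al ta v z * ta z a * (wt be ta a u * ta u t * ta t z)) := by
              rw [ENNReal.tsum_comm]
              refine ENNReal.tsum_le_tsum fun u => ENNReal.tsum_le_tsum fun t => ?_
              unfold cs4
              calc ta v z * ta z a * ta a u * ta z t * ta t u * (al v t * be a u)
                  ≤ ta v z * ta z a * ta a u * ta z t * ta t u *
                    (((b + c) * (al z t + al v z)) * be a u) :=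
                    mul_le_mul' le_rfl (mul_le_mul' (ha.le v z t) le_rfl)
                _ = _ := by
                    rw [wt_apply, wt_apply, wt_apply, hs z t, hs t u, ha.symm z t]
                    ring
          _ = (b + c) * (ta v z * ta z a * ch3 (wt be ta) ta (wt al ta) a z
              + wt al ta v z * ta z a * ch3 (wt be ta) ta ta a z) := by
              rw [ch3_apply, ch3_apply]
              simp only [← ENNReal.tsum_mul_left, ← ENNReal.tsum_add]
          _ ≤ _ := mul_le_mul' le_rfl (add_le_add (mul_le_mul' le_rfl (H.tb1a a z))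
              (mul_le_mul' le_rfl (H.tb11 a z)))
    _ = (b + c) * (mm ta ta v a * X + mm (wt al ta) ta v a * X) := by
        rw [ENNReal.tsum_mul_left, ENNReal.tsum_add, ENNReal.tsum_mul_right, ENNReal.tsum_mul_right]
        rfl
    _ ≤ (b + c) * (X * X + X * X) :=
        mul_le_mul' le_rfl (add_le_add (mul_le_mul' (H.m11 v a) le_rfl) (mul_le_mul' (H.ma1 v a) le_rfl))
    _ = _ := by ring

/-- case 3 -/
theorem pl3 {ta al be : V → V → ℝ≥0∞} {b c X : ℝ≥0∞} (hs : ∀ x y, ta x y = ta y x)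
    (ha : Wgt al b c) (H : PBd ta al be X) (v a : V) :
    PL (cs3 ta) (fun t u => al v u * be a t) v a ≤ (b + c) * (2 * (X * X)) := by
  refine le_trans (le_of_eq ?_) (pl4 hs ha H v a)
  unfold PL
  refine tsum_congr fun z => ?_
  rw [ENNReal.tsum_comm]
  refine tsum_congr fun t => tsum_congr fun u => ?_
  unfold cs3 cs4
  rw [hs u t]
  ring

/-- a common bound for the four cases -/
structure PLB (ta al be : V → V → ℝ≥0∞) (L : ℝ≥0∞) : Prop where
  l1 : ∀ v a, PL (cs1 ta) (fun t u => al v t * be a u) v a ≤ L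
  l2 : ∀ v a, PL (cs2 ta) (fun t u => al v t * be a u) v a ≤ L
  l3 : ∀ v a, PL (cs3 ta) (fun t u => al v u * be a t) v a ≤ L
  l4 : ∀ v a, PL (cs4 ta) (fun t u => al v t * be a u) v a ≤ L

theorem PLB_of {ta al be : V → V → ℝ≥0∞} {b c X : ℝ≥0∞} (hs : ∀ x y, ta x y = ta y x)
    (ha : Wgt al b c) (H : PBd ta al be X) : PLB ta al be ((b + c) * (2 * (X * X))) := by
  refine ⟨fun v a => (pl1 hs H v a).trans ?_, pl2 hs ha H, pl3 hs ha H, pl4 hs ha H⟩
  calc X * X = 1 * (1 * (X * X)) := by ring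
    _ ≤ (b + c) * (2 * (X * X)) :=
        mul_le_mul' (ha.one_le.trans le_self_add) (mul_le_mul' (by norm_num) le_rfl)

theorem PL_four {cs : V → V → V → V → V → ℝ≥0∞} {f g : V → V → ℝ≥0∞}
    {k1 k2 k3 k4 L : ℝ≥0∞} (v a : V)
    (h11 : PL cs (fun t u => kone v t * kone a u) v a ≤ L)
    (h1g : PL cs (fun t u => kone v t * g a u) v a ≤ L)
    (hf1 : PL cs (fun t u => f v t * kone a u) v a ≤ L)
    (hfg : PL cs (fun t u => f v t * g a u) v a ≤ L) {A B C D : ℝ≥0∞} :
    PL cs (fun t u => k1 * A + k2 * g a u * B + k3 * f v t * C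
      + k4 * (f v t * g a u) * D) v a ≤
      (k1 * A + k2 * B + k3 * C + k4 * D) * L := by
  have e : (fun t u => k1 * A + k2 * g a u * B + k3 * f v t * C + k4 * (f v t * g a u) * D)
      = fun t u => ((k1 * A) * (kone v t * kone a u) + (k2 * B) * (kone v t * g a u))
        + ((k3 * C) * (f v t * kone a u) + (k4 * D) * (f v t * g a u)) := by
    funext t u
    simp only [kone]
    ring
  rw [e, PL_add, PL_add, PL_add, PL_mul, PL_mul, PL_mul, PL_mul]
  calc _ ≤ (k1 * A * L + k2 * B * L) + (k3 * C * L + k4 * D * L) :=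
        add_le_add (add_le_add (mul_le_mul' le_rfl h11) (mul_le_mul' le_rfl h1g))
          (add_le_add (mul_le_mul' le_rfl hf1) (mul_le_mul' le_rfl hfg))
    _ = _ := by ring

theorem PL_four' {cs : V → V → V → V → V → ℝ≥0∞} {f g : V → V → ℝ≥0∞}
    {k1 k2 k3 k4 L : ℝ≥0∞} (v a : V)
    (h11 : PL cs (fun t u => kone v u * kone a t) v a ≤ L)
    (h1g : PL cs (fun t u => kone v u * g a t) v a ≤ L)
    (hf1 : PL cs (fun t u => f v u * kone a t) v a ≤ L)
    (hfg : PL cs (fun t u => f v u * g a t) v a ≤ L) {A B C D : ℝ≥0∞} :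
    PL cs (fun t u => k1 * A + k2 * g a t * B + k3 * f v u * C
      + k4 * (f v u * g a t) * D) v a ≤
      (k1 * A + k2 * B + k3 * C + k4 * D) * L := by
  have e : (fun t u => k1 * A + k2 * g a t * B + k3 * f v u * C + k4 * (f v u * g a t) * D)
      = fun t u => ((k1 * A) * (kone v u * kone a t) + (k2 * B) * (kone v u * g a t))
        + ((k3 * C) * (f v u * kone a t) + (k4 * D) * (f v u * g a t)) := by
    funext t u
    simp only [kone]
    ring
  rw [e, PL_add, PL_add, PL_add, PL_mul, PL_mul, PL_mul, PL_mul]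
  calc _ ≤ (k1 * A * L + k2 * B * L) + (k3 * C * L + k4 * D * L) :=
        add_le_add (add_le_add (mul_le_mul' le_rfl h11) (mul_le_mul' le_rfl h1g))
          (add_le_add (mul_le_mul' le_rfl hf1) (mul_le_mul' le_rfl hfg))
    _ = _ := by ring

/-- the recursion at a fixed point -/
theorem KK_succ_le {ta P f g : V → V → ℝ≥0∞} {a1 c1 a2 c2 L : ℝ≥0∞} (n : ℕ) (v a : V)
    (hf : QT f a1 c1) (hg : QT g a2 c2) (h11 : PLB ta kone kone L) (h1g : PLB ta kone g L)
    (hf1 : PLB ta f kone L) (hfg : PLB ta f g L) :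
    KK ta P (fun x => f v x * g a x) (n + 1) v a ≤
      (a1 * a2 * (3 * NN ta P g f n + NN ta P f g n)
        + a1 * c2 * (3 * NN ta P kone f n + NN ta P f kone n)
        + c1 * a2 * (3 * NN ta P g kone n + NN ta P kone g n)
        + c1 * c2 * (4 * NN ta P kone kone n)) * L := by
  have e1 := PL_four (f := f) (g := g) (k1 := a1 * a2) (k2 := a1 * c2) (k3 := c1 * a2)
    (k4 := c1 * c2) v a (h11.l1 v a) (h1g.l1 v a) (hf1.l1 v a) (hfg.l1 v a)
    (A := NN ta P g f n) (B := NN ta P kone f n) (C := NN ta P g kone n) (D := NN ta P kone kone n)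
  have e2 := PL_four (f := f) (g := g) (k1 := a1 * a2) (k2 := a1 * c2) (k3 := c1 * a2)
    (k4 := c1 * c2) v a (h11.l2 v a) (h1g.l2 v a) (hf1.l2 v a) (hfg.l2 v a)
    (A := NN ta P g f n) (B := NN ta P kone f n) (C := NN ta P g kone n) (D := NN ta P kone kone n)
  have e3 := PL_four' (f := f) (g := g) (k1 := a1 * a2) (k2 := a1 * c2) (k3 := c1 * a2)
    (k4 := c1 * c2) v a (h11.l3 v a) (h1g.l3 v a) (hf1.l3 v a) (hfg.l3 v a)
    (A := NN ta P f g n) (B := NN ta P f kone n) (C := NN ta P kone g n) (D := NN ta P kone kone n)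
  have e4 := PL_four (f := f) (g := g) (k1 := a1 * a2) (k2 := a1 * c2) (k3 := c1 * a2)
    (k4 := c1 * c2) v a (h11.l4 v a) (h1g.l4 v a) (hf1.l4 v a) (hfg.l4 v a)
    (A := NN ta P g f n) (B := NN ta P kone f n) (C := NN ta P g kone n) (D := NN ta P kone kone n)
  refine le_trans ?_ ((add_le_add (add_le_add (add_le_add e1 e2) e3) e4).trans (le_of_eq ?_))
  · unfold PL
    simp only [← ENNReal.tsum_add]
    rw [KK_succ']
    refine ENNReal.tsum_le_tsum fun z => ENNReal.tsum_le_tsum fun t => ENNReal.tsum_le_tsum fun u => ?_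
    have hA := PT_A (ta := ta) (P := P) hf hg n v a t u
    have hB := PT_B (ta := ta) (P := P) hf hg n v a t u
    calc (cs1 ta v a z t u + cs2 ta v a z t u + cs3 ta v a z t u + cs4 ta v a z t u)
          * FF ta P (fun x => f v x * g a x) n t u
        = cs1 ta v a z t u * FF ta P (fun x => f v x * g a x) n t u
          + cs2 ta v a z t u * FF ta P (fun x => f v x * g a x) n t u
          + cs3 ta v a z t u * FF ta P (fun x => f v x * g a x) n t u
          + cs4 ta v a z t u * FF ta P (fun x => f v x * g a x) n t u := by ring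
      _ ≤ _ := add_le_add (add_le_add (add_le_add (mul_le_mul' le_rfl hA) (mul_le_mul' le_rfl hA))
            (mul_le_mul' le_rfl hB)) (mul_le_mul' le_rfl hA)
  · ring

/-- the constant of the bound at a fixed point -/
noncomputable def KPC (a1 c1 a2 c2 k CP q X : ℝ≥0∞) : ℝ≥0∞ :=
  let E := EC a1 c1 a2 c2 k CP X
  2 * ((a1 * a2 * (3 * (LC a1 c1 a2 c2 q E E E + LC a2 c2 a1 c1 q E E E
        + 4 * (RC a1 c1 a2 c2 q E E E + RC a2 c2 a1 c1 q E E E)))
      + a1 * c2 * (3 * ((16 + 4 * c1) * ((a1 + c1) * E)))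
      + c1 * a2 * (3 * ((16 + 4 * c2) * ((a2 + c2) * E)))
      + c1 * c2 * (4 * (12 * q))) * ((a1 + c1) * (2 * (X * X)))) + (a1 + c1) * (X * X + X * X)

theorem LC_ne_top {a1 c1 a2 c2 q Xf Xg X : ℝ≥0∞} (h1 : a1 ≠ ∞) (h2 : c1 ≠ ∞) (h3 : a2 ≠ ∞)
    (h4 : c2 ≠ ∞) (hq : q ≠ ∞) (h5 : Xf ≠ ∞) (h6 : Xg ≠ ∞) (h7 : X ≠ ∞) :
    LC a1 c1 a2 c2 q Xf Xg X ≠ ∞ := by
  unfold LC WB
  finiteness

theorem RC_ne_top {a1 c1 a2 c2 q Xf Xg X : ℝ≥0∞} (h1 : a1 ≠ ∞) (h2 : c1 ≠ ∞) (h3 : a2 ≠ ∞)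
    (h4 : c2 ≠ ∞) (hq : q ≠ ∞) (h5 : Xf ≠ ∞) (h6 : Xg ≠ ∞) (h7 : X ≠ ∞) :
    RC a1 c1 a2 c2 q Xf Xg X ≠ ∞ := by
  have := LC_ne_top h1 h2 h3 h4 hq h5 h6 h7
  unfold RC
  finiteness

theorem KPC_ne_top {a1 c1 a2 c2 k CP q X : ℝ≥0∞} (ha1 : a1 ≠ ∞) (hc1 : c1 ≠ ∞) (ha2 : a2 ≠ ∞)
    (hc2 : c2 ≠ ∞) (hk : k ≠ ∞) (hCP : CP ≠ ∞) (hq : q ≠ ∞) (hX : X ≠ ∞) :
    KPC a1 c1 a2 c2 k CP q X ≠ ∞ := by
  have hE := EC_ne_top ha1 hc1 ha2 hc2 hk hCP hX
  have l1 := LC_ne_top ha1 hc1 ha2 hc2 hq hE hE hE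
  have l2 := LC_ne_top ha2 hc2 ha1 hc1 hq hE hE hE
  have l3 := RC_ne_top ha1 hc1 ha2 hc2 hq hE hE hE
  have l4 := RC_ne_top ha2 hc2 ha1 hc1 hq hE hE hE
  have e1 : a1 * a2 * (3 * (LC a1 c1 a2 c2 q (EC a1 c1 a2 c2 k CP X) (EC a1 c1 a2 c2 k CP X)
      (EC a1 c1 a2 c2 k CP X) + LC a2 c2 a1 c1 q (EC a1 c1 a2 c2 k CP X) (EC a1 c1 a2 c2 k CP X)
      (EC a1 c1 a2 c2 k CP X) + 4 * (RC a1 c1 a2 c2 q (EC a1 c1 a2 c2 k CP X)
      (EC a1 c1 a2 c2 k CP X) (EC a1 c1 a2 c2 k CP X) + RC a2 c2 a1 c1 q (EC a1 c1 a2 c2 k CP X)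
      (EC a1 c1 a2 c2 k CP X) (EC a1 c1 a2 c2 k CP X)))) ≠ ∞ := by finiteness
  have e2 : a1 * c2 * (3 * ((16 + 4 * c1) * ((a1 + c1) * EC a1 c1 a2 c2 k CP X))) ≠ ∞ := by
    finiteness
  have e3 : c1 * a2 * (3 * ((16 + 4 * c2) * ((a2 + c2) * EC a1 c1 a2 c2 k CP X))) ≠ ∞ := by
    finiteness
  have e4 : c1 * c2 * (4 * (12 * q)) ≠ ∞ := by finiteness
  have e5 : (a1 + c1) * (2 * (X * X)) ≠ ∞ := by finiteness
  have e6 : (a1 + c1) * (X * X + X * X) ≠ ∞ := by finiteness
  unfold KPC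
  exact ENNReal.add_ne_top.2 ⟨ENNReal.mul_ne_top (by norm_num) (ENNReal.mul_ne_top
    (ENNReal.add_ne_top.2 ⟨ENNReal.add_ne_top.2 ⟨ENNReal.add_ne_top.2 ⟨e1, e2⟩, e3⟩, e4⟩) e5), e6⟩

/-- **C4 at a fixed point**: `2^n K_n[f(v,·) g(a,·)](v,a) ≤ C` -/
theorem Ker.KK_EB {ta P f g : V → V → ℝ≥0∞} {q a1 c1 a2 c2 k CP X : ℝ≥0∞} (h : Ker ta P q)
    (hq : 1000 * q ≤ 1) (hf : Wgt f a1 c1) (hg : Wgt g a2 c2) (hqa : 1000 * (a1 * a2 * q) ≤ 1)
    (hkf : ∀ x z, P x z * f x z ≤ k * P x z) (hkg : ∀ x z, P x z * g x z ≤ k * P x z)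
    (hrow : ∀ x, ∑' y, P x y ≤ CP) (H : EB ta f g X) (n : ℕ) (v a : V) :
    2 ^ n * KK ta P (fun x => f v x * g a x) n v a ≤ KPC a1 c1 a2 c2 k CP q X := by
  have hqf : 1000 * (a1 * q) ≤ 1 := by
    refine le_trans ?_ hqa
    refine mul_le_mul' le_rfl ?_
    calc a1 * q = a1 * 1 * q := by ring
      _ ≤ a1 * a2 * q := mul_le_mul' (mul_le_mul' le_rfl hg.one_le) le_rfl
  have hqg : 1000 * (a2 * q) ≤ 1 := by
    refine le_trans ?_ hqa
    refine mul_le_mul' le_rfl ?_
    calc a2 * q = 1 * a2 * q := by ring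
      _ ≤ a1 * a2 * q := mul_le_mul' (mul_le_mul' hf.one_le le_rfl) le_rfl
  have T := two_of_EB h.one_le hf.qt hg.qt hkf hkg hrow H
  have m2 : ∀ {b d : V → V → ℝ≥0∞}, (∀ x y, ch4 b ta ta d x y ≤ X) → ∀ x y, mm b d x y ≤ X :=
    fun h' x y => (mm_mono (fun _ _ => le_rfl) (fun x y => (le_mm_right h.one_le x y).trans
      (mm_mono (fun _ _ => le_rfl) (fun x y => le_mm_right h.one_le x y) x y)) x y).trans (h' x y)
  have m3 : ∀ {b d : V → V → ℝ≥0∞}, (∀ x y, ch4 b ta ta d x y ≤ X) → ∀ x y, ch3 b ta d x y ≤ X :=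
    fun h' x y => (ch3_le_ch4 h.one_le x y).trans (h' x y)
  have m3' : ∀ {b : V → V → ℝ≥0∞}, (∀ x y, ch4 ta b ta ta x y ≤ X) → ∀ x y, ch3 ta b ta x y ≤ X :=
    fun h' x y => (mm_mono (fun _ _ => le_rfl) (mm_mono (fun _ _ => le_rfl)
      (fun x y => le_mm_left h.one_le x y)) x y).trans (h' x y)
  have p11 : PBd ta kone kone X := by
    refine ⟨m2 H.one, ?_, ?_, ?_, ?_, ?_, ?_⟩ <;> rw [wt_kone]
    · exact m2 H.one
    · exact m2 H.one
    · exact m3 H.one
    · exact m3 H.one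
    · exact m3 H.one
    · exact m3 H.one
  have p1g : PBd ta kone g X := by
    refine ⟨m2 H.one, ?_, m2 H.g0, ?_, ?_, ?_, m3 H.g0⟩ <;> rw [wt_kone]
    · exact m2 H.one
    · exact m3 H.one
    · exact m3 H.one
    · exact m3 H.g0
  have pf1 : PBd ta f kone X := by
    refine ⟨m2 H.one, m2 H.f0, ?_, m3 H.f0, m3' H.f1, ?_, ?_⟩ <;> rw [wt_kone]
    · exact m2 H.one
    · exact m3 H.f3
    · exact m3 H.one
  have pfg : PBd ta f g X :=
    ⟨m2 H.one, m2 H.f0, m2 H.g0, m3 H.f0, m3' H.f1, m3 H.g0f3, m3 H.g0⟩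
  have one_le : (1 : ℝ≥0∞) + 0 ≤ a1 + c1 := by
    rw [add_zero]
    exact hf.one_le.trans le_self_add
  have up : ∀ {al be : V → V → ℝ≥0∞}, PLB ta al be ((1 + 0) * (2 * (X * X))) →
      PLB ta al be ((a1 + c1) * (2 * (X * X))) := fun h' =>
    ⟨fun v a => (h'.l1 v a).trans (mul_le_mul' one_le le_rfl),
      fun v a => (h'.l2 v a).trans (mul_le_mul' one_le le_rfl),
      fun v a => (h'.l3 v a).trans (mul_le_mul' one_le le_rfl),
      fun v a => (h'.l4 v a).trans (mul_le_mul' one_le le_rfl)⟩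
  cases n with
  | zero =>
    rw [pow_zero, one_mul]
    refine (KK_zero_fg h.symm h.one_le hf H hg.symm v a).trans ?_
    unfold KPC
    exact le_add_self
  | succ n =>
    have e := KK_succ_le (P := P) n v a hf.qt hg.qt (up (PLB_of h.symm Wgt_kone p11))
      (up (PLB_of h.symm Wgt_kone p1g)) (PLB_of h.symm hf pf1) (PLB_of h.symm hf pfg)
    have eH := h.NNfg hq hf hg T hqa n
    have eF := h.NNf hq hf hqf T.f1 T.h1f n
    have eG := h.NNf hq hg hqg T.g1 T.h1g n
    have e1 := h.NN11 hq n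
    have e3 : ∀ p r : ℝ≥0∞, 2 ^ n * (3 * p + r) ≤ 3 * (2 ^ n * (r + p)) := fun p r => by
      calc 2 ^ n * (3 * p + r) ≤ 2 ^ n * (3 * p + r + 2 * r) := mul_le_mul' le_rfl le_self_add
        _ = _ := by ring
    calc 2 ^ (n + 1) * KK ta P (fun x => f v x * g a x) (n + 1) v a
        ≤ 2 ^ (n + 1) * _ := mul_le_mul' le_rfl e
      _ = 2 * ((a1 * a2 * (2 ^ n * (3 * NN ta P g f n + NN ta P f g n))
          + a1 * c2 * (2 ^ n * (3 * NN ta P kone f n + NN ta P f kone n))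
          + c1 * a2 * (2 ^ n * (3 * NN ta P g kone n + NN ta P kone g n))
          + c1 * c2 * (4 * (2 ^ n * NN ta P kone kone n))) * ((a1 + c1) * (2 * (X * X)))) := by ring
      _ ≤ 2 * ((a1 * a2 * (3 * (2 ^ n * (NN ta P f g n + NN ta P g f n)))
          + a1 * c2 * (3 * (2 ^ n * (NN ta P f kone n + NN ta P kone f n)))
          + c1 * a2 * (3 * (2 ^ n * (NN ta P g kone n + NN ta P kone g n)))
          + c1 * c2 * (4 * (2 ^ n * NN ta P kone kone n))) * ((a1 + c1) * (2 * (X * X)))) := by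
          refine mul_le_mul' le_rfl (mul_le_mul' (add_le_add (add_le_add (add_le_add
            (mul_le_mul' le_rfl (e3 _ _)) (mul_le_mul' le_rfl (e3 _ _)))
            (mul_le_mul' le_rfl ?_)) le_rfl) le_rfl)
          calc 2 ^ n * (3 * NN ta P g kone n + NN ta P kone g n)
              ≤ 2 ^ n * (3 * NN ta P g kone n + NN ta P kone g n + 2 * NN ta P kone g n) :=
                mul_le_mul' le_rfl le_self_add
            _ = _ := by ring
      _ ≤ 2 * ((a1 * a2 * (3 * _) + a1 * c2 * (3 * _) + c1 * a2 * (3 * _)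
          + c1 * c2 * (4 * (12 * q))) * ((a1 + c1) * (2 * (X * X)))) :=
          mul_le_mul' le_rfl (mul_le_mul' (add_le_add (add_le_add (add_le_add
            (mul_le_mul' le_rfl (mul_le_mul' le_rfl eH))
            (mul_le_mul' le_rfl (mul_le_mul' le_rfl eF)))
            (mul_le_mul' le_rfl (mul_le_mul' le_rfl eG)))
            (mul_le_mul' le_rfl (mul_le_mul' le_rfl e1))) le_rfl)
      _ ≤ _ := by
          unfold KPC
          exact le_self_add

end IPC
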