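import Pool.Agent.Lib.MP_25e40f_pr.C.Klev2

/-!
# MP_25e40f_pr, stream C: the recursion of the norms `N_n(f, g)`
-/

set_option autoImplicit false
set_option linter.unusedVariables false

open scoped ENNReal

namespace IPC

variable {V : Type}

theorem wb1 (T q Ya Za Yb Zb Y Z : ℝ≥0∞) : Zb * Ya + T * Y ≤ WB T q Ya Za Yb Zb Y Z := by
  unfold WB
  calc Zb * Ya + T * Y ≤ (Zb * Ya + T * Y) + ((Zb * Ya + T * Y) + (Z * q + Za * Yb)) := le_self_add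
    _ = _ := by ring

theorem wb2 (T q Ya Za Yb Zb Y Z : ℝ≥0∞) : 2 * (Zb * Ya + T * Y) ≤ WB T q Ya Za Yb Zb Y Z := by
  unfold WB
  exact le_self_add

theorem wb4 (T q Ya Za Yb Zb Y Z : ℝ≥0∞) :
    Z * q + Za * Yb + Zb * Ya + T * Y ≤ WB T q Ya Za Yb Zb Y Z := by
  unfold WB
  calc Z * q + Za * Yb + Zb * Ya + T * Y ≤ (Z * q + Za * Yb + Zb * Ya + T * Y) + (Zb * Ya + T * Y) :=
        le_self_add
    _ = _ := by ring

/-- data of a pair of weights: level bounds for all the cases -/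
structure LevBd (ta P al be : V → V → ℝ≥0∞) (L : ℝ≥0∞) : Prop where
  l1 : ∀ u0 w0, LV ta P (cs1 ta) (fun t u => al u0 t * be w0 u) u0 w0 ≤ L
  l2 : ∀ u0 w0, LV ta P (cs2 ta) (fun t u => al u0 t * be w0 u) u0 w0 ≤ L
  l3 : ∀ u0 w0, LV ta P (cs3 ta) (fun t u => al u0 u * be w0 t) u0 w0 ≤ L
  l4 : ∀ u0 w0, LV ta P (cs4 ta) (fun t u => al u0 t * be w0 u) u0 w0 ≤ L

theorem LevBd_of {ta P al be : V → V → ℝ≥0∞} {a c b d Ya Za Yb Zb Y Z T q : ℝ≥0∞}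
    (hs : ∀ x y, ta x y = ta y x) (h1 : ∀ x, 1 ≤ ta x x) (ha : Wgt al a c) (hb : Wgt be b d)
    (hT : ∀ x y, ch3 ta ta ta x y ≤ T) (hq : ∀ x y, ch3 (mm P ta) ta ta x y ≤ q)
    (Ha : LBd ta P al kone Ya Za) (Hb : LBd ta P kone be Yb Zb) (H : LBd ta P al be Y Z) :
    LevBd ta P al be ((a + c) * (b + d) * WB T q Ya Za Yb Zb Y Z) := by
  have hB : ∀ x y, mm ta ta x y ≤ T := fun x y =>
    le_trans (mm_mono (fun _ _ => le_rfl) (fun x y => le_mm_left h1 x y) x y) (hT x y)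
  exact ⟨fun u0 w0 => (lev1 hs h1 ha hb hB Ha Hb H u0 w0).trans (mul_le_mul' le_rfl (wb1 ..)),
    fun u0 w0 => (lev2 hs h1 ha hb hB Ha Hb H u0 w0).trans (mul_le_mul' le_rfl (wb2 ..)),
    fun u0 w0 => (lev3 hs h1 ha hb hT hq Ha Hb H u0 w0).trans (mul_le_mul' le_rfl (wb4 ..)),
    fun u0 w0 => (lev4 hs h1 ha hb hT hq Ha Hb H u0 w0).trans (mul_le_mul' le_rfl (wb4 ..))⟩

/-- the four terms of a level, type A -/
theorem LV_four {ta P : V → V → ℝ≥0∞} {cs : V → V → V → V → V → ℝ≥0∞} {f g : V → V → ℝ≥0∞}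
    {k1 k2 k3 k4 L11 L1g Lf1 Lfg : ℝ≥0∞} (u0 w0 : V)
    (h11 : LV ta P cs (fun t u => kone u0 t * kone w0 u) u0 w0 ≤ L11)
    (h1g : LV ta P cs (fun t u => kone u0 t * g w0 u) u0 w0 ≤ L1g)
    (hf1 : LV ta P cs (fun t u => f u0 t * kone w0 u) u0 w0 ≤ Lf1)
    (hfg : LV ta P cs (fun t u => f u0 t * g w0 u) u0 w0 ≤ Lfg) {A B C D : ℝ≥0∞} :
    LV ta P cs (fun t u => k1 * A + k2 * g w0 u * B + k3 * f u0 t * C
      + k4 * (f u0 t * g w0 u) * D) u0 w0 ≤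
      k1 * A * L11 + k2 * B * L1g + k3 * C * Lf1 + k4 * D * Lfg := by
  have e : (fun t u => k1 * A + k2 * g w0 u * B + k3 * f u0 t * C + k4 * (f u0 t * g w0 u) * D)
      = fun t u => ((k1 * A) * (kone u0 t * kone w0 u) + (k2 * B) * (kone u0 t * g w0 u))
        + ((k3 * C) * (f u0 t * kone w0 u) + (k4 * D) * (f u0 t * g w0 u)) := by
    funext t u
    simp only [kone]
    ring
  rw [e, LV_add, LV_add, LV_add, LV_mul, LV_mul, LV_mul, LV_mul]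
  calc _ ≤ (k1 * A * L11 + k2 * B * L1g) + (k3 * C * Lf1 + k4 * D * Lfg) :=
        add_le_add (add_le_add (mul_le_mul' le_rfl h11) (mul_le_mul' le_rfl h1g))
          (add_le_add (mul_le_mul' le_rfl hf1) (mul_le_mul' le_rfl hfg))
    _ = _ := by ring

/-- type B -/
theorem LV_four' {ta P : V → V → ℝ≥0∞} {cs : V → V → V → V → V → ℝ≥0∞} {f g : V → V → ℝ≥0∞}
    {k1 k2 k3 k4 L11 L1g Lf1 Lfg : ℝ≥0∞} (u0 w0 : V)
    (h11 : LV ta P cs (fun t u => kone u0 u * kone w0 t) u0 w0 ≤ L11)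
    (h1g : LV ta P cs (fun t u => kone u0 u * g w0 t) u0 w0 ≤ L1g)
    (hf1 : LV ta P cs (fun t u => f u0 u * kone w0 t) u0 w0 ≤ Lf1)
    (hfg : LV ta P cs (fun t u => f u0 u * g w0 t) u0 w0 ≤ Lfg) {A B C D : ℝ≥0∞} :
    LV ta P cs (fun t u => k1 * A + k2 * g w0 t * B + k3 * f u0 u * C
      + k4 * (f u0 u * g w0 t) * D) u0 w0 ≤
      k1 * A * L11 + k2 * B * L1g + k3 * C * Lf1 + k4 * D * Lfg := by
  have e : (fun t u => k1 * A + k2 * g w0 t * B + k3 * f u0 u * C + k4 * (f u0 u * g w0 t) * D)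
      = fun t u => ((k1 * A) * (kone u0 u * kone w0 t) + (k2 * B) * (kone u0 u * g w0 t))
        + ((k3 * C) * (f u0 u * kone w0 t) + (k4 * D) * (f u0 u * g w0 t)) := by
    funext t u
    simp only [kone]
    ring
  rw [e, LV_add, LV_add, LV_add, LV_mul, LV_mul, LV_mul, LV_mul]
  calc _ ≤ (k1 * A * L11 + k2 * B * L1g) + (k3 * C * Lf1 + k4 * D * Lfg) :=
        add_le_add (add_le_add (mul_le_mul' le_rfl h11) (mul_le_mul' le_rfl h1g))
          (add_le_add (mul_le_mul' le_rfl hf1) (mul_le_mul' le_rfl hfg))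
    _ = _ := by ring

/-- the recursion -/
theorem NN_rec {ta P f g : V → V → ℝ≥0∞} {a1 c1 a2 c2 L11 L1g Lf1 Lfg : ℝ≥0∞} (n : ℕ)
    (hf : QT f a1 c1) (hg : QT g a2 c2)
    (h11 : LevBd ta P kone kone L11) (h1g : LevBd ta P kone g L1g) (hf1 : LevBd ta P f kone Lf1)
    (hfg : LevBd ta P f g Lfg) :
    NN ta P f g (n + 1) ≤
      a1 * a2 * L11 * (3 * NN ta P g f n + NN ta P f g n)
      + a1 * c2 * L1g * (3 * NN ta P kone f n + NN ta P f kone n)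
      + c1 * a2 * Lf1 * (3 * NN ta P g kone n + NN ta P kone g n)
      + c1 * c2 * Lfg * (4 * NN ta P kone kone n) := by
  refine NN_le fun u0 w0 => ?_
  refine (NN_succ_le u0 w0 hf hg).trans ?_
  have e1 := LV_four (ta := ta) (P := P) (f := f) (g := g) (k1 := a1 * a2) (k2 := a1 * c2)
    (k3 := c1 * a2) (k4 := c1 * c2) u0 w0 (h11.l1 u0 w0) (h1g.l1 u0 w0) (hf1.l1 u0 w0) (hfg.l1 u0 w0)
    (A := NN ta P g f n) (B := NN ta P kone f n) (C := NN ta P g kone n) (D := NN ta P kone kone n)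
  have e2 := LV_four (ta := ta) (P := P) (f := f) (g := g) (k1 := a1 * a2) (k2 := a1 * c2)
    (k3 := c1 * a2) (k4 := c1 * c2) u0 w0 (h11.l2 u0 w0) (h1g.l2 u0 w0) (hf1.l2 u0 w0) (hfg.l2 u0 w0)
    (A := NN ta P g f n) (B := NN ta P kone f n) (C := NN ta P g kone n) (D := NN ta P kone kone n)
  have e3 := LV_four' (ta := ta) (P := P) (f := f) (g := g) (k1 := a1 * a2) (k2 := a1 * c2)
    (k3 := c1 * a2) (k4 := c1 * c2) u0 w0 (h11.l3 u0 w0) (h1g.l3 u0 w0) (hf1.l3 u0 w0) (hfg.l3 u0 w0)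
    (A := NN ta P f g n) (B := NN ta P f kone n) (C := NN ta P kone g n) (D := NN ta P kone kone n)
  have e4 := LV_four (ta := ta) (P := P) (f := f) (g := g) (k1 := a1 * a2) (k2 := a1 * c2)
    (k3 := c1 * a2) (k4 := c1 * c2) u0 w0 (h11.l4 u0 w0) (h1g.l4 u0 w0) (hf1.l4 u0 w0) (hfg.l4 u0 w0)
    (A := NN ta P g f n) (B := NN ta P kone f n) (C := NN ta P g kone n) (D := NN ta P kone kone n)
  refine (add_le_add (add_le_add (add_le_add e1 e2) e3) e4).trans (le_of_eq ?_)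
  ring

/-- the start of the recursion -/
theorem NN_zero {ta P f g : V → V → ℝ≥0∞} {Lfg : ℝ≥0∞} (h1 : ∀ x, ta x x = 1)
    (hfg : LevBd ta P f g Lfg) : NN ta P f g 0 ≤ Lfg := by
  refine NN_le fun u0 w0 => ?_
  refine le_trans ?_ (hfg.l4 u0 w0)
  unfold LV
  refine ENNReal.tsum_le_tsum fun v => ENNReal.tsum_le_tsum fun a => ?_
  rw [KK_zero, ← ENNReal.tsum_mul_left]
  refine ENNReal.tsum_le_tsum fun z => ?_
  rw [← ENNReal.tsum_mul_left, ENNReal.tsum_comm]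
  refine ENNReal.tsum_le_tsum fun u => ?_
  refine le_trans (le_of_eq ?_) (ENNReal.le_tsum u)
  unfold cs4
  rw [h1 u]
  ring

/-- a recursion lemma -/
theorem seq_bd {x : ℕ → ℝ≥0∞} {k r M : ℝ≥0∞} (h0 : x 0 ≤ M) (hr : 2 * r ≤ M) (hk : 2 * k ≤ 1)
    (hrec : ∀ n, x (n + 1) ≤ k * x n + r) (n : ℕ) : x n ≤ M := by
  induction n with
  | zero => exact h0
  | succ n ih =>
    have h2 : (2 : ℝ≥0∞) ≠ 0 := by norm_num
    have h2' : (2 : ℝ≥0∞) ≠ ∞ := by norm_num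
    have e1 : k * x n ≤ M / 2 := by
      rw [ENNReal.le_div_iff_mul_le (Or.inl h2) (Or.inl h2')]
      calc k * x n * 2 = (2 * k) * x n := by ring
        _ ≤ 1 * M := mul_le_mul' hk ih
        _ = M := one_mul M
    have e2 : r ≤ M / 2 := by
      rw [ENNReal.le_div_iff_mul_le (Or.inl h2) (Or.inl h2'), mul_comm]
      exact hr
    calc x (n + 1) ≤ k * x n + r := hrec n
      _ ≤ M / 2 + M / 2 := add_le_add e1 e2
      _ = M := ENNReal.add_halves M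

end IPC
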