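import Pool.Agent.Lib.MP_25e40f_pr.C.Kone

/-!
# MP_25e40f_pr, stream C: geometric bounds, two weights
-/

set_option autoImplicit false
set_option linter.unusedVariables false

open scoped ENNReal

namespace IPC

variable {V : Type}

/-- loop bounds of a pair of weights `f`, `g` -/
structure Two (ta P f g : V → V → ℝ≥0∞) (Xf Xg X : ℝ≥0∞) : Prop where
  f1 : LBd ta P f kone Xf Xf
  h1f : LBd ta P kone f Xf Xf
  g1 : LBd ta P g kone Xg Xg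
  h1g : LBd ta P kone g Xg Xg
  fg : LBd ta P f g X X
  gf : LBd ta P g f X X

theorem Two.swap {ta P f g : V → V → ℝ≥0∞} {Xf Xg X : ℝ≥0∞} (h : Two ta P f g Xf Xg X) :
    Two ta P g f Xg Xf X := ⟨h.g1, h.h1g, h.f1, h.h1f, h.gf, h.fg⟩

/-- the level constant of the pair `(f, g)` -/
noncomputable def LC (a1 c1 a2 c2 q Xf Xg X : ℝ≥0∞) : ℝ≥0∞ :=
  (a1 + c1) * (a2 + c2) * WB 2 q Xf Xf Xg Xg X X

/-- the inhomogeneous part of the recursion for the pair `(f, g)` -/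
noncomputable def RC (a1 c1 a2 c2 q Xf Xg X : ℝ≥0∞) : ℝ≥0∞ :=
  a1 * c2 * (7 * ((a2 + c2) * Xg)) * (3 * ((16 + 4 * c1) * ((a1 + c1) * Xf)))
    + c1 * a2 * (9 * ((a1 + c1) * Xf)) * (3 * ((16 + 4 * c2) * ((a2 + c2) * Xg)))
    + c1 * c2 * LC a1 c1 a2 c2 q Xf Xg X * (4 * (12 * q))

namespace Ker

variable {ta P : V → V → ℝ≥0∞} {q : ℝ≥0∞}

theorem levfg (h : Ker ta P q) (hq : 1000 * q ≤ 1) {f g : V → V → ℝ≥0∞}
    {a1 c1 a2 c2 Xf Xg X : ℝ≥0∞} (hf : Wgt f a1 c1) (hg : Wgt g a2 c2)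
    (H : Two ta P f g Xf Xg X) : LevBd ta P f g (LC a1 c1 a2 c2 q Xf Xg X) :=
  LevBd_of h.symm h.one_le hf hg (h.tri2 hq) h.t3 H.f1 H.h1g H.fg

theorem NN_rec2 (h : Ker ta P q) (hq : 1000 * q ≤ 1) {f g : V → V → ℝ≥0∞}
    {a1 c1 a2 c2 Xf Xg X : ℝ≥0∞} (hf : Wgt f a1 c1) (hg : Wgt g a2 c2)
    (H : Two ta P f g Xf Xg X) (hqf : 1000 * (a1 * q) ≤ 1) (hqg : 1000 * (a2 * q) ≤ 1) (n : ℕ) :
    2 ^ n * NN ta P f g (n + 1) ≤
      a1 * a2 * (12 * q) * (2 ^ n * (3 * NN ta P g f n + NN ta P f g n))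
        + RC a1 c1 a2 c2 q Xf Xg X := by
  have e := NN_rec n hf.qt hg.qt (h.lev11 hq) (h.lev1f hq hg H.h1g) (h.levf1 hq hf H.f1)
    (h.levfg hq hf hg H)
  have eF : 2 ^ n * (3 * NN ta P kone f n + NN ta P f kone n) ≤
      3 * ((16 + 4 * c1) * ((a1 + c1) * Xf)) := by
    calc 2 ^ n * (3 * NN ta P kone f n + NN ta P f kone n)
        ≤ 2 ^ n * (3 * NN ta P kone f n + NN ta P f kone n + 2 * NN ta P f kone n) :=
          mul_le_mul' le_rfl le_self_add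
      _ = 3 * (2 ^ n * (NN ta P f kone n + NN ta P kone f n)) := by ring
      _ ≤ _ := mul_le_mul' le_rfl (h.NNf hq hf hqf H.f1 H.h1f n)
  have eG : 2 ^ n * (3 * NN ta P g kone n + NN ta P kone g n) ≤
      3 * ((16 + 4 * c2) * ((a2 + c2) * Xg)) := by
    calc 2 ^ n * (3 * NN ta P g kone n + NN ta P kone g n)
        ≤ 2 ^ n * (3 * NN ta P g kone n + NN ta P kone g n + 2 * NN ta P kone g n) :=
          mul_le_mul' le_rfl le_self_add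
      _ = 3 * (2 ^ n * (NN ta P g kone n + NN ta P kone g n)) := by ring
      _ ≤ _ := mul_le_mul' le_rfl (h.NNf hq hg hqg H.g1 H.h1g n)
  have e1 : 2 ^ n * (4 * NN ta P kone kone n) ≤ 4 * (12 * q) := by
    calc 2 ^ n * (4 * NN ta P kone kone n) = 4 * (2 ^ n * NN ta P kone kone n) := by ring
      _ ≤ _ := mul_le_mul' le_rfl (h.NN11 hq n)
  calc 2 ^ n * NN ta P f g (n + 1) ≤ 2 ^ n * _ := mul_le_mul' le_rfl e
    _ = a1 * a2 * (12 * q) * (2 ^ n * (3 * NN ta P g f n + NN ta P f g n))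
        + (a1 * c2 * (7 * ((a2 + c2) * Xg)) * (2 ^ n * (3 * NN ta P kone f n + NN ta P f kone n))
        + c1 * a2 * (9 * ((a1 + c1) * Xf)) * (2 ^ n * (3 * NN ta P g kone n + NN ta P kone g n))
        + c1 * c2 * LC a1 c1 a2 c2 q Xf Xg X * (2 ^ n * (4 * NN ta P kone kone n))) := by ring
    _ ≤ _ := add_le_add le_rfl (add_le_add (add_le_add (mul_le_mul' le_rfl eF)
        (mul_le_mul' le_rfl eG)) (mul_le_mul' le_rfl e1))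

/-- two weights: `2^n (N_n(f,g) + N_n(g,f))` is bounded -/
theorem NNfg (h : Ker ta P q) (hq : 1000 * q ≤ 1) {f g : V → V → ℝ≥0∞}
    {a1 c1 a2 c2 Xf Xg X : ℝ≥0∞} (hf : Wgt f a1 c1) (hg : Wgt g a2 c2)
    (H : Two ta P f g Xf Xg X) (hqa : 1000 * (a1 * a2 * q) ≤ 1) (n : ℕ) :
    2 ^ n * (NN ta P f g n + NN ta P g f n) ≤
      LC a1 c1 a2 c2 q Xf Xg X + LC a2 c2 a1 c1 q Xg Xf X
        + 4 * (RC a1 c1 a2 c2 q Xf Xg X + RC a2 c2 a1 c1 q Xg Xf X) := by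
  have hqf : 1000 * (a1 * q) ≤ 1 := by
    refine le_trans ?_ hqa
    refine mul_le_mul' le_rfl ?_
    calc a1 * q = a1 * 1 * q := by ring
      _ ≤ a1 * a2 * q := mul_le_mul' (mul_le_mul' le_rfl hg.one_le) le_rfl
  have hqg : 1000 * (a2 * q) ≤ 1 := by
    refine le_trans ?_ hqa
    refine mul_le_mul' le_rfl ?_
    calc a2 * q = 1 * a2 * q := by ring
      _ ≤ a1 * a2 * q := mul_le_mul' (mul_le_mul' hf.one_le le_rfl) le_rfl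
  refine seq_bd (x := fun n => 2 ^ n * (NN ta P f g n + NN ta P g f n)) (k := 96 * (a1 * a2 * q))
    (r := 2 * (RC a1 c1 a2 c2 q Xf Xg X + RC a2 c2 a1 c1 q Xg Xf X)) ?_ ?_ ?_ ?_ n
  · refine le_trans ?_ le_self_add
    simp only [pow_zero, one_mul]
    exact add_le_add (NN_zero h.one (h.levfg hq hf hg H)) (NN_zero h.one (h.levfg hq hg hf H.swap))
  · calc 2 * (2 * (RC a1 c1 a2 c2 q Xf Xg X + RC a2 c2 a1 c1 q Xg Xf X))
        = 4 * (RC a1 c1 a2 c2 q Xf Xg X + RC a2 c2 a1 c1 q Xg Xf X) := by ring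
      _ ≤ _ := le_add_self
  · calc 2 * (96 * (a1 * a2 * q)) = 192 * (a1 * a2 * q) := by ring
      _ ≤ 1000 * (a1 * a2 * q) := mul_le_mul' (by norm_num) le_rfl
      _ ≤ 1 := hqa
  · intro n
    have e1 := h.NN_rec2 hq hf hg H hqf hqg n
    have e2 := h.NN_rec2 hq hg hf H.swap hqg hqf n
    calc 2 ^ (n + 1) * (NN ta P f g (n + 1) + NN ta P g f (n + 1))
        = 2 * (2 ^ n * NN ta P f g (n + 1) + 2 ^ n * NN ta P g f (n + 1)) := by ring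
      _ ≤ 2 * (_ + _) := mul_le_mul' le_rfl (add_le_add e1 e2)
      _ = _ := by ring

/-- the final constant of the two weight bound -/
noncomputable def KC (a1 c1 a2 c2 q Xf Xg X : ℝ≥0∞) : ℝ≥0∞ :=
  a1 * a2 * 2 * (LC a1 c1 a2 c2 q Xf Xg X + LC a2 c2 a1 c1 q Xg Xf X
        + 4 * (RC a1 c1 a2 c2 q Xf Xg X + RC a2 c2 a1 c1 q Xg Xf X))
    + a1 * c2 * Xg * ((16 + 4 * c1) * ((a1 + c1) * Xf))
    + c1 * a2 * Xf * ((16 + 4 * c2) * ((a2 + c2) * Xg)) + c1 * c2 * X * (2 * (12 * q))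

theorem KC_ne_top {a1 c1 a2 c2 q Xf Xg X : ℝ≥0∞} (ha1 : a1 ≠ ∞) (hc1 : c1 ≠ ∞)
    (ha2 : a2 ≠ ∞) (hc2 : c2 ≠ ∞) (hqt : q ≠ ∞) (hXf : Xf ≠ ∞) (hXg : Xg ≠ ∞) (hX : X ≠ ∞) :
    KC a1 c1 a2 c2 q Xf Xg X ≠ ∞ := by
  have hLC : ∀ {a1 c1 a2 c2 Xf Xg X : ℝ≥0∞}, a1 ≠ ∞ → c1 ≠ ∞ → a2 ≠ ∞ → c2 ≠ ∞ → Xf ≠ ∞ → Xg ≠ ∞ →
      X ≠ ∞ → LC a1 c1 a2 c2 q Xf Xg X ≠ ∞ := by
    intro a1 c1 a2 c2 Xf Xg X h1 h2 h3 h4 h5 h6 h7
    unfold LC WB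
    finiteness
  have hRC : ∀ {a1 c1 a2 c2 Xf Xg X : ℝ≥0∞}, a1 ≠ ∞ → c1 ≠ ∞ → a2 ≠ ∞ → c2 ≠ ∞ → Xf ≠ ∞ → Xg ≠ ∞ →
      X ≠ ∞ → RC a1 c1 a2 c2 q Xf Xg X ≠ ∞ := by
    intro a1 c1 a2 c2 Xf Xg X h1 h2 h3 h4 h5 h6 h7
    have := hLC h1 h2 h3 h4 h5 h6 h7
    unfold RC
    finiteness
  have l1 := hLC ha1 hc1 ha2 hc2 hXf hXg hX
  have l2 := hLC ha2 hc2 ha1 hc1 hXg hXf hX
  have l3 := hRC ha1 hc1 ha2 hc2 hXf hXg hX
  have l4 := hRC ha2 hc2 ha1 hc1 hXg hXf hX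
  unfold KC
  finiteness

/-- **C4**, two weights: the constant depends on `a1 c1 a2 c2 q Xf Xg X` only -/
theorem KS_two (h : Ker ta P q) (hq : 1000 * q ≤ 1) {f g : V → V → ℝ≥0∞}
    {a1 c1 a2 c2 Xf Xg X : ℝ≥0∞} (hf : Wgt f a1 c1) (hg : Wgt g a2 c2)
    (H : Two ta P f g Xf Xg X) (hqa : 1000 * (a1 * a2 * q) ≤ 1) (n : ℕ) (x y : V) :
    2 ^ n * KS ta P (fun X => f x X * g y X) n x y ≤ KC a1 c1 a2 c2 q Xf Xg X := by
  have hqf : 1000 * (a1 * q) ≤ 1 := by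
    refine le_trans ?_ hqa
    refine mul_le_mul' le_rfl ?_
    calc a1 * q = a1 * 1 * q := by ring
      _ ≤ a1 * a2 * q := mul_le_mul' (mul_le_mul' le_rfl hg.one_le) le_rfl
  have hqg : 1000 * (a2 * q) ≤ 1 := by
    refine le_trans ?_ hqa
    refine mul_le_mul' le_rfl ?_
    calc a2 * q = 1 * a2 * q := by ring
      _ ≤ a1 * a2 * q := mul_le_mul' (mul_le_mul' hf.one_le le_rfl) le_rfl
  have z : ∀ {f : V → V → ℝ≥0∞} {X : ℝ≥0∞}, LBd ta P kone f X X → ∀ x y, ch3 (wt f ta) ta ta x y ≤ X := by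
    intro f X H2 x y
    have := H2.z3 x y
    rwa [wt_kone] at this
  have z' : ∀ {f : V → V → ℝ≥0∞} {X : ℝ≥0∞}, LBd ta P f kone X X → ∀ x y, ch3 ta ta (wt f ta) x y ≤ X := by
    intro f X H2 x y
    have := H2.z3 x y
    rwa [wt_kone] at this
  have e := KS_le (P := P) (Z11 := 2) (Z1g := Xg) (Zf1 := Xf) (Zfg := X) n x y h.symm hf.qt hg.qt
    hg.symm (h.tri2 hq x y) (z' H.g1 x y) (z H.h1f x y) (H.gf.z3 x y)
  calc 2 ^ n * KS ta P (fun X => f x X * g y X) n x y ≤ 2 ^ n * _ := mul_le_mul' le_rfl e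
    _ = a1 * a2 * 2 * (2 ^ n * (NN ta P f g n + NN ta P g f n))
        + a1 * c2 * Xg * (2 ^ n * (NN ta P f kone n + NN ta P kone f n))
        + c1 * a2 * Xf * (2 ^ n * (NN ta P g kone n + NN ta P kone g n))
        + c1 * c2 * X * (2 * (2 ^ n * NN ta P kone kone n)) := by ring
    _ ≤ _ := add_le_add (add_le_add (add_le_add
        (mul_le_mul' le_rfl (h.NNfg hq hf hg H hqa n))
        (mul_le_mul' le_rfl (h.NNf hq hf hqf H.f1 H.h1f n)))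
        (mul_le_mul' le_rfl (h.NNf hq hg hqg H.g1 H.h1g n)))
        (mul_le_mul' le_rfl (mul_le_mul' le_rfl (h.NN11 hq n)))

theorem ne_top_of (hq : 1000 * q ≤ 1) : q ≠ ∞ := by
  rintro rfl
  rw [ENNReal.mul_top (by norm_num)] at hq
  exact absurd hq (by simp)

end Ker

end IPC
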